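import Pool.Agent.Lib.MP_51bb46_lc.Defs

set_option autoImplicit false

/-!
Random k-CNFs and short-line Frege: the definitions of the statement.
-/

namespace Pool.Agent.Lib.MP_51bb46_lc.RC

open Finset

/-- The k-CNF with the `M` clauses `{F (c, 0), ..., F (c, k - 1)}`, `c : Fin M`. The literal `(v, true)` is the variable
`v`, the literal `(v, false)` is its negation. -/
def cnf {n M k : ℕ} (F : Fin M × Fin k → Fin n × Bool) : Finset (Clause (Fin n)) :=
  univ.image fun c => univ.image fun j => F (c, j)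

/-- `F` needs long refutations if all but `t` lines have at most `c k ^ (1/2 - ε) n / ((r + 1) (t + 1))` variable
occurrences: such a refutation with at most `r` premises per step has at least
`2 ^ (c n / (k ^ (1 - ε) (r + 1) (t + 1)))` lines. -/
def Hard (c ε : ℝ) (k : ℕ) {n : ℕ} (F : Finset (Clause (Fin n))) : Prop :=
  ∀ (r t ℓ : ℕ) (L : Fin ℓ → Fml (Fin n)), (r + 1) * (t + 1) ≤ k → Refutes r F L →
    (univ.filter fun i => c * (k : ℝ) ^ (1 / 2 - ε) * (n / ((r + 1) * (t + 1))) < (L i).occurrences).card ≤ t →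
    (2 : ℝ) ^ (c * (n / ((k : ℝ) ^ (1 - ε) * ((r + 1) * (t + 1))))) ≤ ℓ

end Pool.Agent.Lib.MP_51bb46_lc.RC
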