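import Mathlib
import Pool.Agent.Lib.MP_51bb46_lc.Descent
import Pool.Agent.Lib.MP_51bb46_lc.Defs
import Pool.Agent.Lib.MP_51bb46_lc.RC.Stm

section

set_option autoImplicit false

namespace Pool.Agent.Lib.MP_51bb46_lc

open Finset

lemma exp_le_quad {w : ℝ} (hw : |w| ≤ 1) : Real.exp w ≤ 1 + w + w ^ 2 := by
  have := Real.abs_exp_sub_one_sub_id_le hw
  have := (abs_le.mp this).2
  linarith

lemma half_exp_le (a : ℝ) : (1 + Real.exp (-a)) / 2 ≤ Real.exp (-a / 2 + a ^ 2 / 8) := by
  have h1 := Real.cosh_le_exp_half_sq (a / 2)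
  rw [Real.cosh_eq] at h1
  rw [Real.exp_add]
  have h2 : (1 + Real.exp (-a)) / 2 = Real.exp (-a / 2) *
      ((Real.exp (a / 2) + Real.exp (-(a / 2))) / 2) := by
    have e1 : Real.exp (-a / 2) * Real.exp (a / 2) = 1 := by
      rw [← Real.exp_add]
      have : -a / 2 + a / 2 = 0 := by ring
      rw [this, Real.exp_zero]
    have e2 : Real.exp (-a / 2) * Real.exp (-(a / 2)) = Real.exp (-a) := by
      rw [← Real.exp_add]; congr 1; ring
    rw [mul_div_assoc', mul_add, e1, e2]
  rw [h2]
  apply mul_le_mul_of_nonneg_left _ (Real.exp_pos _).le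
  have e3 : a ^ 2 / 8 = (a / 2) ^ 2 / 2 := by ring
  rw [e3]
  exact h1

set_option maxHeartbeats 2000000 in
theorem exists_lamOK (α : ℝ) (h1 : 1 ≤ α) (h2 : α < 3 / 2) :
    ∃ (K z0 : ℝ) (J0 : ℕ), 0 < K ∧ LamOK (fun j => K * (j : ℝ) ^ (-α)) J0 z0 := by
  set β : ℝ := (α + 3 / 2) / 2 with hβ
  have hβ1 : α < β := by rw [hβ]; linarith
  have hβ2 : β < 3 / 2 := by rw [hβ]; linarith
  set z0 : ℝ := (3 / 2 - β) / 5 with hz0
  have hz0pos : 0 < z0 := by rw [hz0]; linarith
  have hz0le : z0 ≤ 1 / 10 := by rw [hz0]; linarith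
  obtain ⟨J1, hJ1⟩ := exists_nat_ge (21 / z0)
  obtain ⟨J2, hJ2⟩ := exists_nat_ge (9 / 4 / (β - α))
  set J0 : ℕ := J1 + J2 + 1 with hJ0
  have hJ0pos : (0 : ℝ) < J0 := by rw [hJ0]; push_cast; positivity
  set K : ℝ := 3 * (J0 : ℝ) ^ (α - 1) with hK
  have hKpos : 0 < K := by rw [hK]; positivity
  have hj1 : ∀ j : ℕ, J0 < j → 21 / z0 ≤ j := by
    intro j hj
    have : (J1 : ℝ) ≤ j := by exact_mod_cast (by omega : J1 ≤ j)
    linarith
  have hj2 : ∀ j : ℕ, J0 < j → 9 / 4 / (β - α) ≤ j := by
    intro j hj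
    have : (J2 : ℝ) ≤ j := by exact_mod_cast (by omega : J2 ≤ j)
    linarith
  have hpos : ∀ j : ℕ, 1 ≤ j → 0 < K * (j : ℝ) ^ (-α) := by
    intro j hj
    have : (0 : ℝ) < j := by exact_mod_cast hj
    positivity
  -- the ratio bound
  have hratio : ∀ j : ℕ, J0 < j →
      K * (((j - 1 : ℕ) : ℝ)) ^ (-α) ≤ K * (j : ℝ) ^ (-α) * (1 + β / j) := by
    intro j hj
    have hj2' : 2 ≤ j := by omega
    have hjr : (2 : ℝ) ≤ j := by exact_mod_cast hj2'
    have hjpos : (0 : ℝ) < j := by linarith
    have hcast : ((j - 1 : ℕ) : ℝ) = (j : ℝ) - 1 := by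
      rw [Nat.cast_sub (by omega)]; simp
    rw [hcast]
    have hjm : (0 : ℝ) < (j : ℝ) - 1 := by linarith
    have e1 : ((j : ℝ) - 1) ^ (-α) = (j : ℝ) ^ (-α) * ((1 - 1 / (j : ℝ)) ^ α)⁻¹ := by
      have : (j : ℝ) - 1 = j * (1 - 1 / (j : ℝ)) := by field_simp
      have h0 : 0 ≤ 1 - 1 / (j : ℝ) := by
        rw [sub_nonneg, div_le_one hjpos]; linarith
      rw [this, Real.mul_rpow hjpos.le h0, Real.rpow_neg h0]
    rw [e1]
    have e1' : K * (j : ℝ) ^ (-α) * (1 + β / j) = K * ((j : ℝ) ^ (-α) * (1 + β / j)) := by ring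
    rw [e1']
    apply mul_le_mul_of_nonneg_left _ hKpos.le
    apply mul_le_mul_of_nonneg_left _ (Real.rpow_nonneg hjpos.le _)
    have hb := one_add_mul_self_le_rpow_one_add (s := -(1 / (j : ℝ))) (p := α)
      (by rw [neg_le_neg_iff, div_le_one hjpos]; linarith) h1
    have e2 : 1 + -(1 / (j : ℝ)) = 1 - 1 / (j : ℝ) := by ring
    rw [e2] at hb
    have hpp : 0 < 1 + α * -(1 / (j : ℝ)) := by
      have : α / j ≤ 3 / 4 := by
        rw [div_le_iff₀ hjpos]; nlinarith
      have e3 : α * -(1 / (j : ℝ)) = -(α / j) := by ring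
      rw [e3]; linarith
    have hpow : 0 < (1 - 1 / (j : ℝ)) ^ α := lt_of_lt_of_le hpp hb
    rw [inv_le_iff_one_le_mul₀ hpow]
    have h3 := hj2 j hj
    have hβα : 0 < β - α := by linarith
    rw [div_le_iff₀ hβα] at h3
    calc (1 : ℝ) ≤ (1 + β / j) * (1 + α * -(1 / (j : ℝ))) := by
          have : (1 + β / j) * (1 + α * -(1 / (j : ℝ))) =
              1 + ((β - α) * j - α * β) / j ^ 2 := by
            field_simp; ring
          rw [this]
          have h4 : 0 ≤ ((β - α) * j - α * β) / (j : ℝ) ^ 2 := by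
            apply div_nonneg _ (by positivity)
            have : α * β ≤ 9 / 4 := by nlinarith
            linarith
          linarith
      _ ≤ (1 + β / j) * (1 - 1 / (j : ℝ)) ^ α := by
          apply mul_le_mul_of_nonneg_left hb
          have : 0 ≤ β / (j : ℝ) := by
            apply div_nonneg _ hjpos.le
            linarith
          linarith
  refine ⟨K, z0, J0, hKpos, ⟨by omega, hpos, ?_, ?_, ?_, ?_⟩⟩
  · -- antitone
    intro i j hi hij
    have hi' : (0 : ℝ) < i := by exact_mod_cast hi
    have hij' : (i : ℝ) ≤ j := by exact_mod_cast hij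
    apply mul_le_mul_of_nonneg_left _ hKpos.le
    exact Real.rpow_le_rpow_of_nonpos hi' hij' (by linarith)
  · -- base
    intro j hj hjJ
    have hjpos : (0 : ℝ) < j := by exact_mod_cast hj
    have hjJ' : (j : ℝ) ≤ J0 := by exact_mod_cast hjJ
    have e1 : (j : ℝ) * (K * (j : ℝ) ^ (-α)) = K * (j : ℝ) ^ (1 - α) := by
      have : (j : ℝ) ^ (1 - α) = (j : ℝ) ^ (1 : ℝ) * (j : ℝ) ^ (-α) := by
        rw [← Real.rpow_add hjpos]; congr 1
      rw [this, Real.rpow_one]; ring
    rw [e1, hK]
    have e2 : (J0 : ℝ) ^ (1 - α) ≤ (j : ℝ) ^ (1 - α) :=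
      Real.rpow_le_rpow_of_nonpos hjpos hjJ' (by linarith)
    have e3 : (J0 : ℝ) ^ (α - 1) * (J0 : ℝ) ^ (1 - α) = 1 := by
      rw [← Real.rpow_add hJ0pos]
      have : α - 1 + (1 - α) = 0 := by ring
      rw [this, Real.rpow_zero]
    have e4 : 0 < (J0 : ℝ) ^ (α - 1) := by positivity
    nlinarith
  · -- hB
    intro j hj o O hoO hz hlog
    have hj1' := hj1 j hj
    have hjpos : (0 : ℝ) < j := lt_of_lt_of_le (by positivity) hj1'
    have hj1le : (1 : ℝ) ≤ j := by exact_mod_cast (by omega : 1 ≤ j)
    set L := K * (j : ℝ) ^ (-α) with hL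
    have hLpos : 0 < L := hpos j (by omega)
    have hr := hratio j hj
    rw [← hL] at hr
    have hoO' : (o : ℝ) ≤ O := by exact_mod_cast hoO
    have ho0 : (0 : ℝ) ≤ o := Nat.cast_nonneg _
    have h3 : K * (((j - 1 : ℕ) : ℝ)) ^ (-α) * ((O : ℝ) - o) - L * O ≤ 21 / 10 / j - z0 := by
      have e1 : K * (((j - 1 : ℕ) : ℝ)) ^ (-α) * ((O : ℝ) - o) ≤
          L * (1 + β / j) * ((O : ℝ) - o) :=
        mul_le_mul_of_nonneg_right hr (by linarith)
      have hlog4 : Real.log 4 < 1.3863 := by
        have : (4 : ℝ) = 2 ^ 2 := by norm_num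
        rw [this, Real.log_pow]
        have := Real.log_two_lt_d9
        push_cast
        linarith
      have e2 : β / j * (L * ((O : ℝ) - o)) ≤ 21 / 10 / j := by
        rw [div_mul_eq_mul_div]
        apply div_le_div_of_nonneg_right _ hjpos.le
        have : L * ((O : ℝ) - o) ≤ 1.3863 := by
          have h00 : 0 ≤ L * (o : ℝ) := mul_nonneg hLpos.le ho0
          have h01 : L * ((O : ℝ) - o) = L * O - L * o := by ring
          linarith
        have h0 : 0 ≤ L * ((O : ℝ) - o) := mul_nonneg hLpos.le (by linarith)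
        calc β * (L * ((O : ℝ) - o)) ≤ 3 / 2 * 1.3863 :=
              mul_le_mul hβ2.le this h0 (by norm_num)
          _ ≤ 21 / 10 := by norm_num
      have e3 : L * (1 + β / j) * ((O : ℝ) - o) - L * O =
          β / j * (L * ((O : ℝ) - o)) - L * o := by ring
      linarith
    have h4 : 21 / 10 / (j : ℝ) ≤ z0 / 10 := by
      rw [div_le_iff₀ hjpos]
      rw [div_le_iff₀ hz0pos] at hj1'
      linarith
    have h5 : Real.exp (K * (((j - 1 : ℕ) : ℝ)) ^ (-α) * ((O : ℝ) - o) - L * O) ≤
        1 - 9 / 20 * z0 := by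
      calc _ ≤ Real.exp (-(9 / 10 * z0)) := Real.exp_le_exp.mpr (by linarith)
        _ ≤ 1 + -(9 / 10 * z0) + (-(9 / 10 * z0)) ^ 2 := exp_le_quad (by
            rw [abs_neg, abs_of_nonneg (by positivity)]; linarith)
        _ ≤ 1 - 9 / 20 * z0 := by nlinarith
    have h6 : 4 / (j : ℝ) * Real.exp (-(L * O)) ≤ 4 / j := by
      have : Real.exp (-(L * O)) ≤ 1 := Real.exp_le_one_iff.mpr (by
        have : 0 ≤ L * O := mul_nonneg hLpos.le (Nat.cast_nonneg _)
        linarith)
      have h7 : 0 < 4 / (j : ℝ) := by positivity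
      nlinarith
    have h7 : 4 / (j : ℝ) ≤ z0 / 5 := by
      rw [div_le_iff₀ hjpos]
      rw [div_le_iff₀ hz0pos] at hj1'
      linarith
    have h8 : (((j : ℝ) - 1) / j) *
        Real.exp (K * (((j - 1 : ℕ) : ℝ)) ^ (-α) * ((O : ℝ) - o) - L * O) ≤
        1 - 9 / 20 * z0 := by
      have h9 : ((j : ℝ) - 1) / j ≤ 1 := by rw [div_le_one hjpos]; linarith
      have h10 : 0 ≤ ((j : ℝ) - 1) / j := div_nonneg (by linarith) hjpos.le
      have h11 := Real.exp_pos (K * (((j - 1 : ℕ) : ℝ)) ^ (-α) * ((O : ℝ) - o) - L * O)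
      have h12 := mul_le_mul_of_nonneg_right h9 h11.le
      rw [one_mul] at h12
      exact h12.trans h5
    linarith
  · -- hC
    intro j hj m Kc hKc o ho
    have hj1' := hj1 j hj
    have hjpos : (0 : ℝ) < j := lt_of_lt_of_le (by positivity) hj1'
    set L := K * (j : ℝ) ^ (-α) with hL
    have hLpos : 0 < L := hpos j (by omega)
    have hr := hratio j hj
    rw [← hL] at hr
    set S : ℝ := ∑ i' ∈ Kc, (o i' : ℝ) with hS
    have hoS : ∀ i ∈ Kc, (o i : ℝ) ≤ S := fun i hi =>
      Finset.single_le_sum (f := fun i => (o i : ℝ)) (fun _ _ => Nat.cast_nonneg _) hi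
    set A : ℝ := L * S with hA
    have hAsum : ∑ i ∈ Kc, L * (o i : ℝ) = A := by rw [← Finset.mul_sum]
    have hA0 : 0 ≤ A := mul_nonneg hLpos.le (Finset.sum_nonneg fun _ _ => Nat.cast_nonneg _)
    have hAle : A ≤ j * z0 := by
      rw [← hAsum]
      calc ∑ i ∈ Kc, L * (o i : ℝ) ≤ ∑ i ∈ Kc, z0 := Finset.sum_le_sum ho
        _ = j * z0 := by rw [Finset.sum_const, hKc, nsmul_eq_mul]
    set u : ℝ := β * A / j with hu
    have hβ0 : 0 < β := by linarith
    have hu0 : 0 ≤ u := by positivity
    have huz : u ≤ β * z0 := by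
      rw [hu, div_le_iff₀ hjpos]; nlinarith
    set θ : ℝ := 3 / 2 - z0 / 8 with hθ
    have hθ1 : θ ≤ 3 / 2 := by rw [hθ]; linarith
    have hθ0 : 0 < θ := by rw [hθ]; linarith
    have hterm : ∀ i ∈ Kc, Real.exp (K * (((j - 1 : ℕ) : ℝ)) ^ (-α) * (S - o i) - L * S) *
        ((1 + Real.exp (-(L * o i))) / 2) ≤
        1 + u - θ * (L * o i) + (u ^ 2 + 9 / 4 * z0 * (L * o i)) := by
      intro i hi
      set a : ℝ := L * o i with ha
      have ha0 : 0 ≤ a := mul_nonneg hLpos.le (Nat.cast_nonneg _)
      have haz : a ≤ z0 := ho i hi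
      have e1 : K * (((j - 1 : ℕ) : ℝ)) ^ (-α) * (S - o i) - L * S ≤ u - a := by
        have e2 : K * (((j - 1 : ℕ) : ℝ)) ^ (-α) * (S - o i) ≤ L * (1 + β / j) * (S - o i) :=
          mul_le_mul_of_nonneg_right hr (by linarith [hoS i hi])
        have e3 : L * (1 + β / j) * (S - o i) - L * S = u - a - β / j * a := by
          rw [hu, hA, ha]; ring
        have e4 : 0 ≤ β / j * a := by positivity
        linarith
      calc Real.exp (K * (((j - 1 : ℕ) : ℝ)) ^ (-α) * (S - o i) - L * S) *
            ((1 + Real.exp (-a)) / 2)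
          ≤ Real.exp (u - a) * Real.exp (-a / 2 + a ^ 2 / 8) := by
            apply mul_le_mul (Real.exp_le_exp.mpr e1) (half_exp_le a) (by positivity)
              (Real.exp_pos _).le
        _ = Real.exp (u - a + (-a / 2 + a ^ 2 / 8)) := (Real.exp_add _ _).symm
        _ ≤ Real.exp (u - θ * a) := by
            apply Real.exp_le_exp.mpr
            rw [hθ]; nlinarith
        _ ≤ 1 + (u - θ * a) + (u - θ * a) ^ 2 := by
            apply exp_le_quad
            rw [abs_le]
            constructor
            · nlinarith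
            · nlinarith
        _ ≤ 1 + u - θ * a + (u ^ 2 + 9 / 4 * z0 * a) := by
            have e5 : (u - θ * a) ^ 2 ≤ u ^ 2 + 9 / 4 * z0 * a := by
              have e6 : (u - θ * a) ^ 2 = u ^ 2 - 2 * u * (θ * a) + (θ * θ) * (a * a) := by ring
              have e7 : 0 ≤ 2 * u * (θ * a) := by positivity
              have e8 : θ * θ ≤ 9 / 4 := by nlinarith
              have e9 : a * a ≤ z0 * a := by nlinarith
              have e10 : (θ * θ) * (a * a) ≤ 9 / 4 * (z0 * a) :=
                mul_le_mul e8 e9 (by positivity) (by norm_num)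
              linarith
            linarith
    rw [div_le_one hjpos]
    calc _ ≤ ∑ i ∈ Kc, (1 + u - θ * (L * o i) + (u ^ 2 + 9 / 4 * z0 * (L * o i))) :=
          Finset.sum_le_sum hterm
      _ = j * (1 + u) - θ * A + (j * u ^ 2 + 9 / 4 * z0 * A) := by
          have e0 : ∀ i ∈ Kc, (1 + u - θ * (L * o i) + (u ^ 2 + 9 / 4 * z0 * (L * o i))) =
              (1 + u + u ^ 2) + (9 / 4 * z0 - θ) * (L * o i) := by intro i _; ring
          rw [Finset.sum_congr rfl e0, Finset.sum_add_distrib, Finset.sum_const, hKc,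
            ← Finset.mul_sum (s := Kc) (f := fun i => L * (o i : ℝ)), hAsum, nsmul_eq_mul]
          ring
      _ ≤ j := by
          have e1 : (j : ℝ) * u = β * A := by rw [hu]; field_simp
          have e2 : (j : ℝ) * u ^ 2 ≤ 9 / 4 * z0 * A := by
            have : (j : ℝ) * u ^ 2 = β * A * u := by rw [pow_two, ← mul_assoc, e1]
            rw [this]
            have e3 : β * A * u ≤ β * A * (β * z0) :=
              mul_le_mul_of_nonneg_left huz (by positivity)
            have e4 : β * β ≤ 9 / 4 := by nlinarith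
            have e5 : β * A * (β * z0) = (β * β) * (A * z0) := by ring
            have e6 : (β * β) * (A * z0) ≤ 9 / 4 * (A * z0) :=
              mul_le_mul_of_nonneg_right e4 (by positivity)
            linarith
          have e3 : β - θ + 9 / 4 * z0 + 9 / 4 * z0 ≤ 0 := by
            rw [hθ]
            have : 3 / 2 - β = 5 * z0 := by rw [hz0]; ring
            linarith
          have e4 : (β - θ + 9 / 4 * z0 + 9 / 4 * z0) * A ≤ 0 :=
            mul_nonpos_of_nonpos_of_nonneg e3 hA0
          nlinarith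

end Pool.Agent.Lib.MP_51bb46_lc
end

section

set_option autoImplicit false
set_option linter.unusedSectionVars false

/-!
The descent for systems of clauses with expansion factor two.
-/

namespace Pool.Agent.Lib.MP_51bb46_lc.RC

open Finset

variable {N : ℕ} {ι : Type} [DecidableEq ι]

/-- the constraint `e`: satisfied outright, or by one of its literals -/
def Cst (sat : ι → Prop) (nb : ι → Finset (Fin N)) (sg : ι → Fin N → Bool) (e : ι)
    (y : Fin N → Bool) : Prop := sat e ∨ ∃ b ∈ nb e, y b = sg e b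

/-- locally consistent partial assignments -/
def GoodC (sat : ι → Prop) (nb : ι → Finset (Fin N)) (sg : ι → Fin N → Bool) (q : ℕ)
    (α : Fin N → Option Bool) : Prop :=
  ∀ S : Finset ι, S.card ≤ q → ∃ y, Agree α y ∧ ∀ e ∈ S, Cst sat nb sg e y

variable {sat : ι → Prop} {nb : ι → Finset (Fin N)} {sg : ι → Fin N → Bool}

lemma GoodC.sub {q : ℕ} {α β : Fin N → Option Bool} (h : GoodC sat nb sg q β) (hs : Sub α β) :
    GoodC sat nb sg q α := by
  intro S hS
  obtain ⟨y, hy, h2⟩ := h S hS
  exact ⟨y, hs.agree hy, h2⟩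

/-- a minimal inconsistent set of constraints has few neighbours -/
lemma min_card {α : Fin N → Option Bool} {S : Finset ι}
    (hS : ¬ ∃ y, Agree α y ∧ ∀ e ∈ S, Cst sat nb sg e y)
    (hmin : ∀ T ⊂ S, ∃ y, Agree α y ∧ ∀ e ∈ T, Cst sat nb sg e y) :
    (S.biUnion nb).card ≤ S.card + (dom α).card := by
  classical
  -- a maximal set with few free neighbours
  set Φ : Finset (Finset ι) := S.powerset.filter
    (fun T => ((T.biUnion nb) \ dom α).card ≤ T.card) with hΦ
  have hne : Φ.Nonempty := ⟨∅, by simp [hΦ]⟩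
  obtain ⟨T, hT, hTmax⟩ := Finset.exists_max_image Φ Finset.card hne
  rw [hΦ, mem_filter, mem_powerset] at hT
  obtain ⟨hTS, hTc⟩ := hT
  have hTeq : T = S := by
    by_contra hne'
    have hTss : T ⊂ S := Finset.ssubset_iff_subset_ne.mpr ⟨hTS, hne'⟩
    obtain ⟨y1, hy1, hE1⟩ := hmin T hTss
    -- Hall for the rest
    set free : ι → Finset (Fin N) := fun e => (nb e \ dom α) \ (T.biUnion nb) with hfree
    have hall : ∀ U : Finset {e // e ∈ S \ T}, U.card ≤ (U.biUnion (fun e => free e.1)).card := by
      intro U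
      by_contra hlt
      push Not at hlt
      set U' : Finset ι := U.map ⟨Subtype.val, Subtype.val_injective⟩ with hU'
      have hU'c : U'.card = U.card := Finset.card_map _
      have hU'S : U' ⊆ S \ T := by
        intro e he
        rw [hU', mem_map] at he
        obtain ⟨⟨e', he'⟩, _, rfl⟩ := he
        exact he'
      have hdisj : Disjoint T U' := by
        rw [Finset.disjoint_left]
        intro e he he'
        exact (mem_sdiff.mp (hU'S he')).2 he
      have hsub : ((T ∪ U').biUnion nb) \ dom α ⊆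
          ((T.biUnion nb) \ dom α) ∪ U.biUnion (fun e => free e.1) := by
        intro v hv
        rw [mem_sdiff, mem_biUnion] at hv
        obtain ⟨⟨e, he, hve⟩, hvd⟩ := hv
        rw [mem_union]
        by_cases hvT : v ∈ T.biUnion nb
        · exact Or.inl (mem_sdiff.mpr ⟨hvT, hvd⟩)
        · right
          rcases mem_union.mp he with he | he
          · exact absurd (mem_biUnion.mpr ⟨e, he, hve⟩) hvT
          · rw [hU', mem_map] at he
            obtain ⟨e', he', rfl⟩ := he
            rw [mem_biUnion]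
            exact ⟨e', he', by
              rw [hfree]
              exact mem_sdiff.mpr ⟨mem_sdiff.mpr ⟨hve, hvd⟩, hvT⟩⟩
      have hc : (((T ∪ U').biUnion nb) \ dom α).card ≤ (T ∪ U').card := by
        rw [Finset.card_union_of_disjoint hdisj, hU'c]
        calc (((T ∪ U').biUnion nb) \ dom α).card
            ≤ (((T.biUnion nb) \ dom α) ∪ U.biUnion (fun e => free e.1)).card :=
              Finset.card_le_card hsub
          _ ≤ ((T.biUnion nb) \ dom α).card + (U.biUnion (fun e => free e.1)).card :=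
              Finset.card_union_le _ _
          _ ≤ T.card + U.card := by omega
      have hmem : T ∪ U' ∈ Φ := by
        rw [hΦ, mem_filter, mem_powerset]
        exact ⟨Finset.union_subset hTS (hU'S.trans Finset.sdiff_subset), hc⟩
      have h1 := hTmax _ hmem
      rw [Finset.card_union_of_disjoint hdisj, hU'c] at h1
      omega
    obtain ⟨f, hfinj, hf⟩ :=
      (Finset.all_card_le_biUnion_card_iff_exists_injective (fun e : {e // e ∈ S \ T} => free e.1)).mp
        hall
    apply hS
    refine ⟨fun v => if h : ∃ e, f e = v then sg (Classical.choose h).1 v else y1 v, ?_, ?_⟩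
    · intro v c hv
      have : ¬ ∃ e, f e = v := by
        rintro ⟨e, rfl⟩
        have := hf e
        rw [hfree] at this
        have h2 := (mem_sdiff.mp (mem_sdiff.mp this).1).2
        apply h2
        simp [dom, hv]
      simp only [dif_neg this]
      exact hy1 v c hv
    · intro e he
      by_cases heT : e ∈ T
      · rcases hE1 e heT with h | ⟨b, hb, hyb⟩
        · exact Or.inl h
        · right
          refine ⟨b, hb, ?_⟩
          have : ¬ ∃ e', f e' = b := by
            rintro ⟨e', rfl⟩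
            have h2 := hf e'
            rw [hfree] at h2
            exact (mem_sdiff.mp h2).2 (mem_biUnion.mpr ⟨e, heT, hb⟩)
          simp only [dif_neg this]
          exact hyb
      · right
        set e' : {e // e ∈ S \ T} := ⟨e, mem_sdiff.mpr ⟨he, heT⟩⟩ with he'
        have h2 := hf e'
        rw [hfree] at h2
        refine ⟨f e', (mem_sdiff.mp (mem_sdiff.mp h2).1).1, ?_⟩
        have hex : ∃ e'', f e'' = f e' := ⟨e', rfl⟩
        simp only [dif_pos hex]
        have h3 : Classical.choose hex = e' := hfinj (Classical.choose_spec hex)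
        rw [h3]
  rw [hTeq] at hTc
  have h1 : (S.biUnion nb) ⊆ ((S.biUnion nb) \ dom α) ∪ dom α := by
    intro v hv
    by_cases h : v ∈ dom α
    · exact mem_union_right _ h
    · exact mem_union_left _ (mem_sdiff.mpr ⟨hv, h⟩)
  calc (S.biUnion nb).card ≤ (((S.biUnion nb) \ dom α) ∪ dom α).card := Finset.card_le_card h1
    _ ≤ ((S.biUnion nb) \ dom α).card + (dom α).card := Finset.card_union_le _ _
    _ ≤ S.card + (dom α).card := by omega

/-- inconsistent sets contain minimal ones, which are small -/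
lemma min_small {q : ℕ}
    (hg : ∀ S : Finset ι, S.card ≤ 2 * q → (∀ e ∈ S, ¬ sat e) →
      2 * S.card ≤ (S.biUnion nb).card)
    {α : Fin N → Option Bool} {S0 : Finset ι} (hS0 : S0.card ≤ 2 * q)
    (hun : ¬ ∃ y, Agree α y ∧ ∀ e ∈ S0, Cst sat nb sg e y) :
    ∃ S ⊆ S0, S.card ≤ (dom α).card ∧ ¬ ∃ y, Agree α y ∧ ∀ e ∈ S, Cst sat nb sg e y := by
  obtain ⟨S, hSsub, hSmin⟩ := exists_minimal_le_of_wellFoundedLT
        (fun S : Finset ι => ¬ ∃ y, Agree α y ∧ ∀ e ∈ S, Cst sat nb sg e y) S0 hun
  refine ⟨S, hSsub, ?_, hSmin.prop⟩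
  have hmin : ∀ T ⊂ S, ∃ y, Agree α y ∧ ∀ e ∈ T, Cst sat nb sg e y := by
    intro T hT
    by_contra hcon
    exact hT.2 (hSmin.le_of_le hcon hT.1)
  have hns : ∀ e ∈ S, ¬ sat e := by
    intro e he hsat
    obtain ⟨y, hy, hE⟩ := hmin (S.erase e) (Finset.erase_ssubset he)
    apply hSmin.prop
    refine ⟨y, hy, fun e' he' => ?_⟩
    by_cases h : e' = e
    · exact Or.inl (h ▸ hsat)
    · exact hE e' (mem_erase.mpr ⟨h, he'⟩)
  have h1 := min_card hSmin.prop hmin
  have h2 := hg S ((Finset.card_le_card hSsub).trans hS0) hns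
  omega

lemma GoodC.empty {q : ℕ}
    (hg : ∀ S : Finset ι, S.card ≤ 2 * q → (∀ e ∈ S, ¬ sat e) →
      2 * S.card ≤ (S.biUnion nb).card) : GoodC sat nb sg q (fun _ => none) := by
  intro S hS
  by_contra hcon
  obtain ⟨S', _, hc, hun⟩ := min_small hg (by omega) hcon
  have h7 : (dom (fun _ : Fin N => (none : Option Bool))).card = 0 := by simp [dom]
  have h8 : S' = ∅ := Finset.card_eq_zero.mp (by omega)
  apply hun
  rw [h8]
  exact ⟨fun _ => false, (fun _ _ h => by cases h), (fun e he => by simp at he)⟩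

lemma GoodC.extend {q : ℕ}
    (hg : ∀ S : Finset ι, S.card ≤ 2 * q → (∀ e ∈ S, ¬ sat e) →
      2 * S.card ≤ (S.biUnion nb).card)
    {α : Fin N → Option Bool} (h : GoodC sat nb sg q α) (hα : (dom α).card ≤ q) (v : Fin N) :
    ∃ c, GoodC sat nb sg q (Function.update α v (some c)) ∧
      Sub α (Function.update α v (some c)) := by
  rcases hv : α v with _ | c
  · suffices hc : ∃ c, GoodC sat nb sg q (Function.update α v (some c)) by
      obtain ⟨c, hc⟩ := hc
      refine ⟨c, hc, fun w c' hw => ?_⟩
      have : w ≠ v := by rintro rfl; rw [hv] at hw; cases hw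
      rw [Function.update_of_ne this]; exact hw
    by_contra hcon
    push Not at hcon
    unfold GoodC at hcon
    push Not at hcon
    obtain ⟨S0, hS0, h0⟩ := hcon false
    obtain ⟨S1, hS1, h1⟩ := hcon true
    have hun : ¬ ∃ y, Agree α y ∧ ∀ e ∈ S0 ∪ S1, Cst sat nb sg e y := by
      rintro ⟨y, hy, hE⟩
      have hag : ∀ c, y v = c → Agree (Function.update α v (some c)) y := by
        intro c hc w c' hw
        by_cases hwv : w = v
        · subst hwv
          rw [Function.update_self] at hw
          rw [hc]; exact Option.some.inj hw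
        · rw [Function.update_of_ne hwv] at hw; exact hy w c' hw
      cases hyv : y v with
      | false =>
        obtain ⟨e, he, hne⟩ := h0 y (hag _ hyv)
        exact hne (hE e (mem_union_left _ he))
      | true =>
        obtain ⟨e, he, hne⟩ := h1 y (hag _ hyv)
        exact hne (hE e (mem_union_right _ he))
    have hSc : (S0 ∪ S1).card ≤ 2 * q := (Finset.card_union_le S0 S1).trans (by omega)
    obtain ⟨S, _, hc, hS⟩ := min_small hg hSc hun
    exact hS (h S (by omega))
  · refine ⟨c, ?_, ?_⟩
    · rw [← hv, Function.update_eq_self]; exact h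
    · rw [← hv, Function.update_eq_self]; exact fun _ _ h => h

lemma queryC {q : ℕ}
    (hg : ∀ S : Finset ι, S.card ≤ 2 * q → (∀ e ∈ S, ¬ sat e) →
      2 * S.card ≤ (S.biUnion nb).card) (d : ℕ) :
    ∀ (f : (Fin N → Bool) → Bool) (α : Fin N → Option Bool), HD d f → GoodC sat nb sg q α →
      (dom α).card + d ≤ q →
      ∃ α' π c, Sub α α' ∧ Sub π α' ∧ GoodC sat nb sg q α' ∧
        (dom α').card ≤ (dom α).card + d ∧
        (dom π).card ≤ d ∧ ∀ y, Agree π y → f y = c := by
  have hconst : ∀ (d : ℕ) (f : (Fin N → Bool) → Bool) (α : Fin N → Option Bool),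
      (∃ c, ∀ y, f y = c) → GoodC sat nb sg q α →
      ∃ α' π c, Sub α α' ∧ Sub π α' ∧ GoodC sat nb sg q α' ∧
        (dom α').card ≤ (dom α).card + d ∧
        (dom π).card ≤ d ∧ ∀ y, Agree π y → f y = c := by
    rintro d f α ⟨c, hc⟩ hα
    refine ⟨α, fun _ => none, c, fun _ _ h => h, ?_, hα, by omega, ?_, fun y _ => hc y⟩
    · intro v c hv; cases hv
    · simp [dom]
  induction d with
  | zero => intro f α hf hα _; exact hconst 0 f α hf hα
  | succ d ih =>
    intro f α hf hα hsz
    rcases hf with hf | ⟨b, hb⟩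
    · exact hconst (d + 1) f α hf hα
    · obtain ⟨c0, hc0, hsub⟩ := GoodC.extend hg hα (by omega) b
      have hd := dom_update α b c0
      obtain ⟨α', π, c, h1, h2, h3, h4, h5, h6⟩ := ih _ _ (hb c0) hc0 (by omega)
      have hα'b : α' b = some c0 := h1 b c0 (by rw [Function.update_self])
      refine ⟨α', Function.update π b (some c0), c, hsub.trans h1, ?_, h3, by omega, ?_, ?_⟩
      · intro v c' hv
        by_cases h : v = b
        · subst h
          rw [Function.update_self] at hv
          rw [hα'b]; exact hv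
        · rw [Function.update_of_ne h] at hv; exact h2 v c' hv
      · exact (dom_update π b c0).trans (by omega)
      · intro y hy
        have hyb : y b = c0 := hy b c0 (by rw [Function.update_self])
        have h7 := h6 y (by
          intro v c' hv
          by_cases h : v = b
          · subst h
            have := h2 v c' hv
            rw [hα'b] at this
            rw [hyb]; exact Option.some.inj this
          · exact hy v c' (by rw [Function.update_of_ne h]; exact hv))
        rw [← hyb, Function.update_eq_self] at h7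
        exact h7

lemma queryC_all {q : ℕ}
    (hg : ∀ S : Finset ι, S.card ≤ 2 * q → (∀ e ∈ S, ¬ sat e) →
      2 * S.card ≤ (S.biUnion nb).card) (d : ℕ) {κ : Type}
    [DecidableEq κ] (h : κ → (Fin N → Bool) → Bool) (P : Finset κ) :
    ∀ (α : Fin N → Option Bool), (∀ p ∈ P, HD d (h p)) → GoodC sat nb sg q α →
      (dom α).card + P.card * d ≤ q →
      ∃ α', Sub α α' ∧ GoodC sat nb sg q α' ∧
        ∀ p ∈ P, ∃ π c, Sub π α' ∧ (dom π).card ≤ d ∧ ∀ y, Agree π y → h p y = c := by
  induction P using Finset.induction_on with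
  | empty => intro α _ hα _; exact ⟨α, fun _ _ h => h, hα, fun p hp => by simp at hp⟩
  | insert p P hp ih =>
    intro α hP hα hsz
    rw [Finset.card_insert_of_notMem hp, add_mul, one_mul] at hsz
    obtain ⟨α', π, c, h1, h2, h3, h4, h5, h6⟩ :=
      queryC hg d (h p) α (hP p (mem_insert_self p P)) hα (by omega)
    obtain ⟨α'', k1, k2, k3⟩ := ih α' (fun p' hp' => hP p' (mem_insert_of_mem hp')) h3 (by omega)
    refine ⟨α'', h1.trans k1, k2, fun p' hp' => ?_⟩
    rcases mem_insert.mp hp' with rfl | hp'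
    · exact ⟨π, c, h2.trans k1, h5, h6⟩
    · exact k3 p' hp'

/-- **Descent.** -/
theorem descentC {q : ℕ}
    (hg : ∀ S : Finset ι, S.card ≤ 2 * q → (∀ e ∈ S, ¬ sat e) →
      2 * S.card ≤ (S.biUnion nb).card)
    {ℓ r t d : ℕ} (h : Fin ℓ → (Fin N → Bool) → Bool) (Ax : Finset (Fin ℓ))
    (hAx : ∀ i ∈ Ax, ∃ e, ∀ y, Cst sat nb sg e y → h i y = true)
    (hInf : ∀ i, i ∉ Ax → ∃ P : Finset (Fin ℓ), P.card ≤ r ∧ (∀ p ∈ P, p < i) ∧
      ∀ y, (∀ p ∈ P, h p y = true) → h i y = true)
    (Lg : Finset (Fin ℓ)) (hLg : Lg.card ≤ t) (hSh : ∀ i, i ∉ Lg → HD d (h i))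
    (hq : 1 ≤ q) (hrq : r * (t + 1) ≤ q) (hd : d * (r * (t + 1) + 1) ≤ q)
    (hlast : ∃ i, ∀ y, h i y = false) : False := by
  choose! prem hp1 hp2 hp3 using hInf
  -- expansion of the premises
  have hexp : ∀ i, i ∉ Ax → ∃ P : Finset (Fin ℓ), P.card ≤ r * (t + 1) ∧ (∀ p ∈ P, p < i) ∧
      (∀ p ∈ P, p ∈ Ax ∨ p ∉ Lg) ∧ ∀ y, (∀ p ∈ P, h p y = true) → h i y = true := by
    intro i hi
    set Z := (Lg \ Ax).filter (fun z => z < i) with hZ
    have hZi : ∀ z ∈ insert i Z, z ∉ Ax ∧ z ≤ i := by
      intro z hz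
      rcases mem_insert.mp hz with rfl | hz
      · exact ⟨hi, le_rfl⟩
      · rw [hZ, mem_filter, mem_sdiff] at hz
        exact ⟨hz.1.2, hz.2.le⟩
    refine ⟨((insert i Z).biUnion prem) \ (Lg \ Ax), ?_, ?_, ?_, ?_⟩
    · calc (((insert i Z).biUnion prem) \ (Lg \ Ax)).card ≤ ((insert i Z).biUnion prem).card :=
            Finset.card_le_card Finset.sdiff_subset
        _ ≤ (insert i Z).card * r :=
            Finset.card_biUnion_le_card_mul _ _ _ (fun z hz => hp1 z (hZi z hz).1)
        _ ≤ (t + 1) * r := by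
            apply Nat.mul_le_mul_right
            have h1 := Finset.card_insert_le i Z
            have h2 : Z.card ≤ Lg.card := Finset.card_le_card
              ((Finset.filter_subset _ _).trans Finset.sdiff_subset)
            omega
        _ = r * (t + 1) := Nat.mul_comm _ _
    · intro p hp
      rw [mem_sdiff, mem_biUnion] at hp
      obtain ⟨⟨z, hz, hpz⟩, _⟩ := hp
      exact lt_of_lt_of_le (hp2 z (hZi z hz).1 p hpz) (hZi z hz).2
    · intro p hp
      rw [mem_sdiff, mem_sdiff] at hp
      by_cases h1 : p ∈ Ax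
      · exact Or.inl h1
      · exact Or.inr (fun h2 => hp.2 ⟨h2, h1⟩)
    · intro y hy
      have hall : ∀ n : ℕ, ∀ z : Fin ℓ, z.val ≤ n → z ∈ insert i Z → h z y = true := by
        intro n
        induction n using Nat.strong_induction_on with
        | _ n ih =>
          intro z hzn hz
          apply hp3 z (hZi z hz).1
          intro p hp
          by_cases hpL : p ∈ Lg \ Ax
          · have hpz := hp2 z (hZi z hz).1 p hp
            have hpz' : p.val < z.val := hpz
            apply ih p.val (by omega) p le_rfl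
            apply mem_insert_of_mem
            rw [hZ, mem_filter]
            exact ⟨hpL, lt_of_lt_of_le hpz (hZi z hz).2⟩
          · exact hy p (by rw [mem_sdiff, mem_biUnion]; exact ⟨⟨z, hz, hp⟩, hpL⟩)
      exact hall i.val i le_rfl (mem_insert_self i Z)
  -- the walk
  have hwalk : ∀ n : ℕ, ∀ i : Fin ℓ, i.val ≤ n → ∀ α : Fin N → Option Bool,
      GoodC sat nb sg q α →
      (dom α).card ≤ d → (∀ y, Agree α y → h i y = false) → False := by
    intro n
    induction n using Nat.strong_induction_on with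
    | _ n ih =>
      intro i hin α hα hsz hfalse
      by_cases hi : i ∈ Ax
      · obtain ⟨e, he⟩ := hAx i hi
        obtain ⟨y, hy, hE⟩ := hα {e} (by rw [card_singleton]; exact hq)
        have h1 := he y (hE e (mem_singleton_self e))
        have h2 := hfalse y hy
        rw [h1] at h2; cases h2
      · obtain ⟨P, hPc, hPlt, hPt, hPs⟩ := hexp i hi
        have hsz' : (dom α).card + (P \ Ax).card * d ≤ q := by
          have h1 : (P \ Ax).card ≤ r * (t + 1) := (Finset.card_le_card sdiff_subset).trans hPc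
          have h2 : (P \ Ax).card * d ≤ r * (t + 1) * d := Nat.mul_le_mul_right _ h1
          have h3 : d * (r * (t + 1) + 1) = r * (t + 1) * d + d := by ring
          omega
        obtain ⟨α', k1, k2, k3⟩ := queryC_all hg d h (P \ Ax) α (by
          intro p hp
          rw [mem_sdiff] at hp
          rcases hPt p hp.1 with h1 | h1
          · exact absurd h1 hp.2
          · exact hSh p h1) hα hsz'
        have hAx' : ∀ i, ∃ e : Option ι, i ∈ Ax → ∃ e', e = some e' ∧
            ∀ y, Cst sat nb sg e' y → h i y = true := by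
          intro i
          by_cases hi : i ∈ Ax
          · obtain ⟨e, he⟩ := hAx i hi
            exact ⟨some e, fun _ => ⟨e, rfl, he⟩⟩
          · exact ⟨none, fun h => absurd h hi⟩
        choose ea hea using hAx'
        obtain ⟨y, hy, hE⟩ := k2 ((P ∩ Ax).biUnion (fun p => (ea p).toFinset)) (by
          calc ((P ∩ Ax).biUnion (fun p => (ea p).toFinset)).card
              ≤ (P ∩ Ax).card * 1 := by
                apply Finset.card_biUnion_le_card_mul
                intro p _
                cases ea p <;> simp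
            _ = (P ∩ Ax).card := mul_one _
            _ ≤ P.card := Finset.card_le_card Finset.inter_subset_left
            _ ≤ q := hPc.trans hrq)
        have hiy := hfalse y (k1.agree hy)
        have : ∃ p ∈ P, h p y ≠ true := by
          by_contra hcon
          push Not at hcon
          rw [hPs y hcon] at hiy; cases hiy
        obtain ⟨p, hpP, hpy⟩ := this
        by_cases hpA : p ∈ Ax
        · apply hpy
          obtain ⟨e', he', hh⟩ := hea p hpA
          apply hh
          apply hE
          rw [mem_biUnion]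
          exact ⟨p, mem_inter.mpr ⟨hpP, hpA⟩, by rw [he']; simp⟩
        · obtain ⟨π, c, m1, m2, m3⟩ := k3 p (mem_sdiff.mpr ⟨hpP, hpA⟩)
          have hlt : p.val < i.val := hPlt p hpP
          apply ih p.val (by omega) p le_rfl π (k2.sub m1) m2
          intro y' hy'
          have hc : c = false := by
            have := m3 y (m1.agree hy)
            rw [this] at hpy
            cases c
            · rfl
            · exact absurd rfl hpy
          rw [m3 y' hy', hc]
  obtain ⟨i, hi⟩ := hlast
  exact hwalk i.val i le_rfl (fun _ => none) (GoodC.empty hg) (by simp [dom]) (fun y _ => hi y)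

end Pool.Agent.Lib.MP_51bb46_lc.RC
end

section

set_option autoImplicit false
set_option linter.unusedSectionVars false

namespace Pool.Agent.Lib.MP_51bb46_lc

open Finset

/-- translation to negation normal form; `s` is the polarity -/
def Fml.toG {V : Type} : Bool → Fml V → G V
  | s, .var v => .lit v s
  | s, .cst b => .cst (b == s)
  | s, .neg A => A.toG (!s)
  | s, .and A B => .gate s (A.toG s) (B.toG s)
  | s, .or A B => .gate (!s) (A.toG s) (B.toG s)
  | s, .imp A B => .gate (!s) (A.toG (!s)) (B.toG s)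

lemma ev_toG {V : Type} (A : Fml V) (s : Bool) (x : V → Bool) :
    (A.toG s).ev x = (A.eval x == s) := by
  induction A generalizing s with
  | var v => rfl
  | cst b => rfl
  | neg A ih =>
    simp only [Fml.toG, ih, Fml.eval]
    cases A.eval x <;> cases s <;> rfl
  | and A B hA hB =>
    simp only [Fml.toG, G.ev, hA, hB, Fml.eval]
    cases A.eval x <;> cases B.eval x <;> cases s <;> rfl
  | or A B hA hB =>
    simp only [Fml.toG, G.ev, hA, hB, Fml.eval]
    cases A.eval x <;> cases B.eval x <;> cases s <;> rfl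
  | imp A B hA hB =>
    simp only [Fml.toG, G.ev, hA, hB, Fml.eval]
    cases A.eval x <;> cases B.eval x <;> cases s <;> rfl

lemma len_toG {V : Type} (A : Fml V) (s : Bool) : (A.toG s).len = A.occurrences := by
  induction A generalizing s with
  | var v => rfl
  | cst b => rfl
  | neg A ih => exact ih (!s)
  | and A B hA hB => simp only [Fml.toG, G.len, hA, hB, Fml.occurrences]
  | or A B hA hB => simp only [Fml.toG, G.len, hA, hB, Fml.occurrences]
  | imp A B hA hB => simp only [Fml.toG, G.len, hA, hB, Fml.occurrences]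

/-- **Concentrated shrinkage.** -/
theorem shrink (α : ℝ) (h1 : 1 ≤ α) (h2 : α < 3 / 2) : ∃ K : ℝ, 0 < K ∧
    ∀ (N m : ℕ), 1 ≤ m → ∀ (f : G (Fin N × Fin m)) (d : ℕ),
      Pr f (fun _ => univ) d ≤ (1 / 2) ^ d * Real.exp (K * (m : ℝ) ^ (-α) * f.len) := by
  obtain ⟨K, z0, J0, hK, hl⟩ := exists_lamOK α h1 h2
  refine ⟨K, hK, fun N m hm f d => ?_⟩
  have : Nonempty (Fin m) := ⟨⟨0, hm⟩⟩
  have := main_bound hl _ f (fun _ : Fin N => (univ : Finset (Fin m)))
    (fun _ => univ_nonempty) le_rfl d
  convert this using 3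
  unfold Psi
  simp only [Finset.card_univ, Fintype.card_fin]
  rw [← Finset.mul_sum]
  congr 1
  rw [← G.sum_occ, Fintype.sum_prod_type]
  push_cast
  rfl

lemma HD.shift {B : Type} [DecidableEq B] (s : B → Bool) (d : ℕ) :
    ∀ g : (B → Bool) → Bool, HD d g → HD d (fun y => g (fun b => xor (y b) (s b))) := by
  induction d with
  | zero => rintro g ⟨c, hc⟩; exact ⟨c, fun y => hc _⟩
  | succ d ih =>
    rintro g (⟨c, hc⟩ | ⟨b, hb⟩)
    · exact Or.inl ⟨c, fun y => hc _⟩
    · right
      refine ⟨b, fun v => ?_⟩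
      have := ih _ (hb (xor v (s b)))
      convert this using 2 with y
      show g _ = g _
      congr 1
      funext c
      by_cases h : c = b
      · subst h; simp
      · simp [Function.update_of_ne h]

section Lift

variable {N m : ℕ} (g : Fin (N + 1) → Fin 10 → Fin N) (rhs : Fin (N + 1) → ZMod 2)

/-- the clause of an equation falsified by the pattern `τ` -/
def cl (e : Fin (N + 1)) (τ : Fin 10 × Fin m → Bool) : Clause (Fin N × Fin m) :=
  univ.image (fun p : Fin 10 × Fin m => ((g e p.1, p.2), !(τ p)))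

/-- the lifted CNF -/
def FF (m : ℕ) : Finset (Clause (Fin N × Fin m)) :=
  (univ.filter (fun q : Fin (N + 1) × (Fin 10 × Fin m → Bool) =>
    ∑ p, zb (q.2 p) ≠ rhs q.1)).image (fun q => cl g q.1 q.2)

lemma cl_card (e : Fin (N + 1)) (τ : Fin 10 × Fin m → Bool) : (cl g e τ).card ≤ 10 * m := by
  refine Finset.card_image_le.trans ?_
  rw [Finset.card_univ, Fintype.card_prod, Fintype.card_fin, Fintype.card_fin]

lemma FF_card : (FF g rhs m).card ≤ (N + 1) * 2 ^ (10 * m) := by
  refine Finset.card_image_le.trans ?_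
  refine (Finset.card_filter_le _ _).trans ?_
  rw [Finset.card_univ, Fintype.card_prod, Fintype.card_fun, Fintype.card_prod, Fintype.card_fin,
    Fintype.card_fin, Fintype.card_fin, Fintype.card_bool]

lemma not_holds_cl (e : Fin (N + 1)) (τ : Fin 10 × Fin m → Bool) (x : Fin N × Fin m → Bool)
    (h : ¬ (cl g e τ).holds x) (p : Fin 10 × Fin m) : x (g e p.1, p.2) = τ p := by
  by_contra hne
  apply h
  refine ⟨((g e p.1, p.2), !(τ p)), mem_image_of_mem _ (mem_univ p), ?_⟩
  show x (g e p.1, p.2) = !(τ p)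
  revert hne
  cases x (g e p.1, p.2) <;> cases τ p <;> simp

/-- parity of a block -/
def bpar (x : Fin N × Fin m → Bool) (b : Fin N) : ZMod 2 := ∑ j, zb (x (b, j))

lemma exists_zb (a : ZMod 2) : ∃ c, zb c = a := by
  revert a; decide

lemma FF_unsat (h : ∀ y, ∃ e, ¬ Eqn g rhs e y) : Unsat (FF g rhs m) := by
  intro x
  choose y hy using fun b => exists_zb (bpar x b)
  obtain ⟨e, he⟩ := h y
  refine ⟨cl g e (fun p => x (g e p.1, p.2)), ?_, ?_⟩
  · apply mem_image_of_mem (f := fun q : Fin (N + 1) × (Fin 10 × Fin m → Bool) => cl g q.1 q.2)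
      (a := (e, fun p => x (g e p.1, p.2)))
    rw [mem_filter]
    refine ⟨mem_univ _, ?_⟩
    intro hs
    apply he
    unfold Eqn
    simp only [hy, bpar]
    rw [← hs, Fintype.sum_prod_type]
  · rintro ⟨l, hl, hl2⟩
    obtain ⟨p, _, rfl⟩ := mem_image.mp hl
    simp at hl2

/-- the lifted point -/
def lft (a : Fin N → Fin m) (x : Fin N × Fin m → Bool) (s y : Fin N → Bool) :
    Fin N × Fin m → Bool :=
  fun p => if a p.1 = p.2 then xor (y p.1) (s p.1) else x p

lemma exists_shift (a : Fin N → Fin m) (x : Fin N × Fin m → Bool) :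
    ∃ s : Fin N → Bool, ∀ y b, bpar (lft a x s y) b = zb (y b) := by
  choose s hs using fun b => exists_zb (∑ j ∈ univ.erase (a b), zb (x (b, j)))
  refine ⟨s, fun y b => ?_⟩
  unfold bpar
  rw [← Finset.add_sum_erase univ _ (mem_univ (a b))]
  have h1 : ∀ j ∈ univ.erase (a b), zb (lft a x s y (b, j)) = zb (x (b, j)) := by
    intro j hj
    have : ¬ a b = j := fun h => (mem_erase.mp hj).1 h.symm
    simp [lft, this]
  rw [Finset.sum_congr rfl h1, ← hs]
  simp only [lft, if_true]
  rw [zb_xor]
  generalize zb (y b) = u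
  generalize zb (s b) = v
  revert u v
  decide

lemma holds_of_Eqn {e : Fin (N + 1)} {y : Fin N → Bool} (hE : Eqn g rhs e y)
    {x : Fin N × Fin m → Bool} (hx : ∀ b, bpar x b = zb (y b)) {C : Clause (Fin N × Fin m)}
    {τ : Fin 10 × Fin m → Bool} (hτ : ∑ p, zb (τ p) ≠ rhs e) (hC : cl g e τ = C) :
    C.holds x := by
  by_contra hcon
  rw [← hC] at hcon
  apply hτ
  have h1 := not_holds_cl g e τ x hcon
  have h2 : ∀ p, zb (τ p) = zb (x (g e p.1, p.2)) := fun p => by rw [h1 p]
  rw [Finset.sum_congr rfl (fun p _ => h2 p), Fintype.sum_prod_type]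
  unfold Eqn at hE
  rw [← hE]
  apply Finset.sum_congr rfl
  intro i _
  exact hx (g e i)

end Lift

/-- some restriction is good for all short lines -/
lemma exists_good {N m ℓ : ℕ} (hm : 1 ≤ m) (f : Fin ℓ → G (Fin N × Fin m)) (d : ℕ)
    (I : Finset (Fin ℓ)) (hsum : ∑ i ∈ I, Pr (f i) (fun _ => univ) d < 1) :
    ∃ a x, ∀ i ∈ I, HD d (R a x (f i)) := by
  have : Nonempty (Fin m) := ⟨⟨0, hm⟩⟩
  by_contra hcon
  push Not at hcon
  have h1 : (1 : ℝ) ≤ ∑ i ∈ I, Pr (f i) (fun _ => univ) d := by
    calc (1 : ℝ) = avA (fun _ : Fin N => (univ : Finset (Fin m))) (fun _ => avX (fun _ => 1)) := by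
          simp only [avX_const]
          exact (avA_const (fun _ => univ_nonempty) 1).symm
      _ ≤ avA (fun _ : Fin N => (univ : Finset (Fin m)))
            (fun a => avX (fun x => ∑ i ∈ I, ind d (f i) a x)) := by
          apply avA_mono
          intro a _
          apply avX_mono
          intro x
          obtain ⟨i, hi, hne⟩ := hcon a x
          have h2 : ind d (f i) a x = 1 := by unfold ind; rw [if_neg hne]
          rw [← h2]
          exact Finset.single_le_sum (f := fun i => ind d (f i) a x)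
            (fun i _ => ind_nonneg d (f i) a x) hi
      _ = ∑ i ∈ I, Pr (f i) (fun _ => univ) d := by
          unfold Pr
          have h3 : ∀ a : Fin N → Fin m, avX (fun x => ∑ i ∈ I, ind d (f i) a x) =
              ∑ i ∈ I, avX (fun x => ind d (f i) a x) := by
            intro a
            unfold avX
            rw [Finset.sum_comm, Finset.sum_div]
          simp only [h3]
          unfold avA
          rw [Finset.sum_comm, Finset.sum_div]
  linarith

theorem core {N m : ℕ} (hm : 1 ≤ m) {g : Fin (N + 1) → Fin 10 → Fin N}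
    {rhs : Fin (N + 1) → ZMod 2} {q : ℕ}
    (hg : ∀ S : Finset (Fin (N + 1)), 1 ≤ S.card → S.card ≤ 2 * q →
      6 * S.card < (S.biUnion (fun e => univ.image (g e))).card)
    {ℓ r t d : ℕ} (L : Fin ℓ → Fml (Fin N × Fin m)) (hL : Refutes r (FF g rhs m) L)
    (hq : 1 ≤ q) (hrq : r * (t + 1) ≤ q) (hd : d * (r * (t + 1) + 1) ≤ 2 * q)
    (Lg : Finset (Fin ℓ)) (hLg : Lg.card ≤ t)
    (hsum : ∑ i ∈ Lgᶜ, Pr ((L i).toG true) (fun _ => univ) d < 1) : False := by
  obtain ⟨a, x, hax⟩ := exists_good hm (fun i => (L i).toG true) d Lgᶜ hsum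
  obtain ⟨s, hs⟩ := exists_shift a x
  classical
  obtain ⟨hL1, hL2⟩ := hL
  have hR : ∀ i y, (L i).eval (lft a x s y) =
      R a x ((L i).toG true) (fun b => xor (y b) (s b)) := by
    intro i y
    unfold R
    rw [ev_toG]
    simp only [beq_true]
    rfl
  apply descent hg (rhs := rhs) (fun i y => (L i).eval (lft a x s y))
    (univ.filter (fun i => ∃ C ∈ FF g rhs m, ∀ x, C.holds x → (L i).eval x = true))
    _ _ Lg hLg _ hq hrq hd _ (r := r)
  · intro i hi
    rw [mem_filter] at hi
    obtain ⟨_, C, hC, hCi⟩ := hi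
    obtain ⟨qq, hqq, hqC⟩ := mem_image.mp hC
    rw [mem_filter] at hqq
    refine ⟨qq.1, fun y hy => hCi _ ?_⟩
    exact holds_of_Eqn g rhs hy (hs y) hqq.2 hqC
  · intro i hi
    rcases hL1 i with h | ⟨P, h1, h2, h3⟩
    · exact absurd (by rw [mem_filter]; exact ⟨mem_univ _, h⟩) hi
    · exact ⟨P, h1, h2, fun y hy => h3 _ hy⟩
  · intro i hi
    have h1 := hax i (by rw [mem_compl]; exact hi)
    have h2 := HD.shift s d _ h1
    have h3 : (fun y => (L i).eval (lft a x s y)) =
        (fun y => R a x ((L i).toG true) (fun b => xor (y b) (s b))) := by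
      funext y; exact hR i y
    rw [h3]; exact h2
  · obtain ⟨i, hi⟩ := hL2
    exact ⟨i, fun y => hi _⟩

theorem numeric {N m : ℕ} (hN : 1 ≤ N) (hm : 1 ≤ m) {g : Fin (N + 1) → Fin 10 → Fin N}
    {rhs : Fin (N + 1) → ZMod 2}
    (hg : ∀ S : Finset (Fin (N + 1)), 1 ≤ S.card → 300 * S.card ≤ N →
      6 * S.card < (S.biUnion (fun e => univ.image (g e))).card)
    {K α : ℝ} (hK : 0 < K)
    (hsh : ∀ (f : G (Fin N × Fin m)) (d : ℕ),
      Pr f (fun _ => univ) d ≤ (1 / 2) ^ d * Real.exp (K * (m : ℝ) ^ (-α) * f.len))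
    {ℓ r t : ℕ} (L : Fin ℓ → Fml (Fin N × Fin m)) (hL : Refutes r (FF g rhs m) L)
    {c : ℝ} (hc : c = 1 / (10000 * (1 + 2 * K)))
    (ht : (univ.filter (fun i => c * (m : ℝ) ^ α * (N / ((r + 1) * (t + 1))) <
      (L i).occurrences)).card ≤ t) :
    (2 : ℝ) ^ (c * (N / ((r + 1) * (t + 1)))) ≤ 2 * ℓ := by
  by_contra hcon
  push Not at hcon
  obtain ⟨i0, _⟩ := hL.2
  have hℓ : 1 ≤ ℓ := by have := i0.isLt; omega
  have hℓr : (1 : ℝ) ≤ ℓ := by exact_mod_cast hℓ
  set D : ℝ := N / ((r + 1) * (t + 1)) with hD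
  have hrt : (0 : ℝ) < ((r : ℝ) + 1) * (t + 1) := by positivity
  have hD0 : 0 < D := by
    rw [hD]
    have : (0 : ℝ) < N := by exact_mod_cast hN
    positivity
  have hcpos : 0 < c := by rw [hc]; positivity
  have hc1 : c * (10000 * (1 + 2 * K)) = 1 := by rw [hc]; field_simp
  -- D is large
  have hcD : 1 < c * D := by
    by_contra hle
    push Not at hle
    have h1 : (2 : ℝ) ^ (c * D) ≤ 2 ^ (1 : ℝ) :=
      Real.rpow_le_rpow_of_exponent_le (by norm_num) hle
    rw [Real.rpow_one] at h1
    linarith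
  have hDbig : 10000 < D := by
    have h1 : c * 10000 ≤ 1 := by nlinarith
    by_contra hle
    push Not at hle
    nlinarith
  have hND : (N : ℝ) = D * (((r : ℝ) + 1) * (t + 1)) := by
    rw [hD]; field_simp
  set q : ℕ := N / 600 with hq
  set X : ℕ := r * (t + 1) + 1 with hX
  have hXle : (X : ℝ) ≤ ((r : ℝ) + 1) * (t + 1) := by
    rw [hX]; push_cast
    have : (0 : ℝ) ≤ t := Nat.cast_nonneg _
    nlinarith
  have hXpos : (1 : ℝ) ≤ X := by rw [hX]; push_cast; nlinarith [Nat.cast_nonneg (α := ℝ) r, Nat.cast_nonneg (α := ℝ) t]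
  have hNX : 10000 * (X : ℝ) ≤ N := by
    rw [hND]; nlinarith
  have hNX' : 10000 * X ≤ N := by exact_mod_cast hNX
  have hqX : X ≤ q := by
    rw [hq, Nat.le_div_iff_mul_le (by norm_num)]; omega
  set d : ℕ := 2 * q / X with hd
  have hXpos' : 0 < X := by omega
  have hdX : d * X ≤ 2 * q := Nat.div_mul_le_self _ _
  have hdbig : D / 800 ≤ d := by
    have h1 : 2 * q < X * (d + 1) := by
      rw [hd]
      have := Nat.lt_mul_div_succ (2 * q) hXpos'
      exact this
    have h2 : N < 600 * (q + 1) := by omega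
    have h3 : (2 * q : ℝ) < X * (d + 1) := by exact_mod_cast h1
    have h4 : (N : ℝ) < 600 * (q + 1) := by exact_mod_cast h2
    have h5 : (N : ℝ) / 300 - 2 < ((r : ℝ) + 1) * (t + 1) * (d + 1) := by
      calc (N : ℝ) / 300 - 2 < 2 * q := by linarith
        _ < X * (d + 1) := h3
        _ ≤ ((r : ℝ) + 1) * (t + 1) * (d + 1) := by gcongr
    rw [hND] at h5
    set Y := ((r : ℝ) + 1) * (t + 1) with hY
    have hY1 : 1 ≤ Y := hXpos.trans hXle
    have h6 : Y * (D / 300 - 2 - (d + 1)) < 0 := by nlinarith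
    have h7 : D / 300 - 2 - (d + 1) < 0 := by
      by_contra h8
      push Not at h8
      have := mul_nonneg (by linarith : (0 : ℝ) ≤ Y) h8
      linarith
    linarith
  refine core hm (q := q) (d := d) (t := t) (r := r) ?_ L hL (by omega) (by omega)
    hdX (univ.filter (fun i => c * (m : ℝ) ^ α * D < (L i).occurrences)) ht ?_
  · intro S hS1 hS2
    apply hg S hS1
    omega
  · -- the union bound
    have hterm : ∀ i ∈ (univ.filter (fun i => c * (m : ℝ) ^ α * D < (L i).occurrences))ᶜ,
        Pr ((L i).toG true) (fun _ => univ) d ≤ (1 / 2) ^ d * Real.exp (K * (c * D)) := by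
      intro i hi
      rw [mem_compl, mem_filter] at hi
      push Not at hi
      have h1 := hi (mem_univ i)
      refine (hsh _ d).trans ?_
      rw [len_toG]
      have hm0 : (0 : ℝ) < m := by exact_mod_cast hm
      have h2 : K * (m : ℝ) ^ (-α) * ((L i).occurrences : ℝ) ≤ K * (c * D) := by
        calc K * (m : ℝ) ^ (-α) * ((L i).occurrences : ℝ)
            ≤ K * (m : ℝ) ^ (-α) * (c * (m : ℝ) ^ α * D) := by gcongr
          _ = K * (c * D) * ((m : ℝ) ^ (-α) * (m : ℝ) ^ α) := by ring
          _ = K * (c * D) := by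
              rw [← Real.rpow_add hm0, neg_add_cancel, Real.rpow_zero, mul_one]
      gcongr
    calc ∑ i ∈ (univ.filter (fun i => c * (m : ℝ) ^ α * D < (L i).occurrences))ᶜ,
          Pr ((L i).toG true) (fun _ => univ) d
        ≤ ∑ i ∈ (univ.filter (fun i => c * (m : ℝ) ^ α * D < (L i).occurrences))ᶜ,
            (1 / 2) ^ d * Real.exp (K * (c * D)) := Finset.sum_le_sum hterm
      _ ≤ ℓ * ((1 / 2) ^ d * Real.exp (K * (c * D))) := by
          rw [Finset.sum_const, nsmul_eq_mul]
          have : (((univ.filter (fun i => c * (m : ℝ) ^ α * D < (L i).occurrences))ᶜ).card : ℝ) ≤ ℓ := by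
            have := Finset.card_le_univ
              ((univ.filter (fun i => c * (m : ℝ) ^ α * D < (L i).occurrences))ᶜ)
            rw [Fintype.card_fin] at this
            exact_mod_cast this
          gcongr
      _ < 1 := by
          have h1 : (ℓ : ℝ) < (2 : ℝ) ^ (c * D) := by
            have : (0 : ℝ) < ℓ := by linarith
            linarith
          have h2 : Real.exp (K * (c * D)) ≤ (2 : ℝ) ^ (2 * K * (c * D)) := by
            rw [Real.rpow_def_of_pos (by norm_num)]
            apply Real.exp_le_exp.mpr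
            have := Real.log_two_gt_d9
            have h3 : 0 ≤ K * (c * D) := by positivity
            nlinarith
          have h3 : ((1 : ℝ) / 2) ^ d = (2 : ℝ) ^ (-(d : ℝ)) := by
            rw [Real.rpow_neg (by norm_num), Real.rpow_natCast, one_div, inv_pow]
          have h4 : c * D + 2 * K * (c * D) ≤ d := by
            have h5 : c * D + 2 * K * (c * D) = (c * (10000 * (1 + 2 * K))) * D / 10000 := by ring
            rw [h5, hc1]; linarith
          have hE : 0 < Real.exp (K * (c * D)) := Real.exp_pos _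
          calc (ℓ : ℝ) * ((1 / 2) ^ d * Real.exp (K * (c * D)))
              < (2 : ℝ) ^ (c * D) * ((1 / 2) ^ d * Real.exp (K * (c * D))) := by
                apply mul_lt_mul_of_pos_right h1
                positivity
            _ ≤ (2 : ℝ) ^ (c * D) * ((2 : ℝ) ^ (-(d : ℝ)) * (2 : ℝ) ^ (2 * K * (c * D))) := by
                rw [h3]; gcongr
            _ = (2 : ℝ) ^ (c * D + (-(d : ℝ) + 2 * K * (c * D))) := by
                rw [← Real.rpow_add (by norm_num), ← Real.rpow_add (by norm_num)]
            _ ≤ (2 : ℝ) ^ (0 : ℝ) := Real.rpow_le_rpow_of_exponent_le (by norm_num) (by linarith)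
            _ = 1 := Real.rpow_zero _

end Pool.Agent.Lib.MP_51bb46_lc
end

section

set_option autoImplicit false
set_option linter.unusedSectionVars false

/-!
Random k-CNFs and short-line Frege: definitions.

A k-CNF with `M` clauses in `n` variables is a function `F : Fin M × Fin k → Fin n × Bool`; the literal `F (c, j)` is
the `j`-th literal of the clause `c`; `(v, true)` is the variable `v`, `(v, false)` its negation.
The variables are divided into blocks by `e : Fin n → Fin N × Fin (m + 1)` (block, index). A restriction `(a, x)` leaves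
one variable of each block alive, the survivor, at the index `a b`, and gives the values `x` to the others. A literal has
the type `none` if its variable is a survivor, `some true` if it is true and `some false` if it is false under `x`.
-/

namespace Pool.Agent.Lib.MP_51bb46_lc.RC

open Finset

section Abs

variable {M k N : ℕ} {Λ : Type}

/-- the weight of a literal of a given type: `1` for false, `y` for true, `z` for survivors (`y ≤ z ≤ 1`) -/
noncomputable def wt (y z : ℝ) : Option Bool → ℝ
  | none => z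
  | some true => y
  | some false => 1

/-- The weight of the literals at the positions `Q`: the product of the weights, times `1 / y` for each repetition of a
block. -/
noncomputable def Wt (y z : ℝ) (ty : Λ → Option Bool) (blk : Λ → Fin N) {P : Type} (f : P → Λ) (Q : Finset P) : ℝ :=
  (∏ p ∈ Q, wt y z (ty (f p))) * (1 / y) ^ (Q.card - (Q.image fun p => blk (f p)).card)

/-- the blocks of the clauses `S` -/
def Bl (blk : Λ → Fin N) (F : Fin M × Fin k → Λ) (S : Finset (Fin M)) : Finset (Fin N) :=
  S.biUnion fun c => univ.image fun j => blk (F (c, j))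

/-- the blocks outside of `B` which contain a survivor literal of a clause of `S` -/
def Sv (ty : Λ → Option Bool) (blk : Λ → Fin N) (F : Fin M × Fin k → Λ) (B : Finset (Fin N)) (S : Finset (Fin M)) :
    Finset (Fin N) :=
  (S.biUnion fun c => (univ.filter fun j => ty (F (c, j)) = none).image fun j => blk (F (c, j))) \ B

/-- no clause of `S` contains a true literal outside of the blocks `B` -/
def Uns (ty : Λ → Option Bool) (blk : Λ → Fin N) (F : Fin M × Fin k → Λ) (B : Finset (Fin N)) (S : Finset (Fin M)) :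
    Prop := ∀ c ∈ S, ∀ j, ty (F (c, j)) = some true → blk (F (c, j)) ∈ B

/-- a bad set of clauses: it has few survivors, apart from repetitions of blocks -/
def Bad (y z : ℝ) (ty : Λ → Option Bool) (blk : Λ → Fin N) (F : Fin M × Fin k → Λ) (I : Finset (Fin M)) : Prop :=
  z ^ (2 * I.card) ≤ Wt y z ty blk F (I ×ˢ univ)

end Abs

section Emb

variable {n N m : ℕ}

/-- the type of a literal under the restriction `(a, x)` -/
def tyE (e : Fin n → Fin N × Fin (m + 1)) (a : Fin N → Fin (m + 1)) (x : Fin N × Fin (m + 1) → Bool)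
    (l : Fin n × Bool) : Option Bool :=
  if a (e l.1).1 = (e l.1).2 then none else some (x (e l.1) == l.2)

/-- the block of a literal -/
def blkE (e : Fin n → Fin N × Fin (m + 1)) (l : Fin n × Bool) : Fin N := (e l.1).1

/-- The block structure: `e` is injective and the indices `0, ..., m - 1` are occupied in every block. -/
structure IsEmb (e : Fin n → Fin N × Fin (m + 1)) : Prop where
  inj : Function.Injective e
  sur : ∀ (b : Fin N) (i : Fin (m + 1)), i.val < m → ∃ v, e v = (b, i)

/-- the candidates for survivors -/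
def JJ (N m : ℕ) : Fin N → Finset (Fin (m + 1)) := fun _ => univ.filter fun i => i.val < m

/-- the set of restrictions -/
def Om (N m : ℕ) : Finset ((Fin N → Fin (m + 1)) × (Fin N × Fin (m + 1) → Bool)) :=
  Fintype.piFinset (JJ N m) ×ˢ univ

/-- The assignment of the variables given by the restriction `(a, x)`, by `σ` (which gives one value to all variables of
a block) and by the values `y` of the survivors. -/
def ptE (e : Fin n → Fin N × Fin (m + 1)) (a : Fin N → Fin (m + 1)) (x : Fin N × Fin (m + 1) → Bool)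
    (σ : Fin N → Option Bool) (y : Fin N → Bool) (v : Fin n) : Bool :=
  match σ (e v).1 with
  | some s => s
  | none => if a (e v).1 = (e v).2 then y (e v).1 else x (e v)

end Emb

end Pool.Agent.Lib.MP_51bb46_lc.RC
end

section

set_option autoImplicit false
set_option linter.unusedSectionVars false

/-!
Random k-CNFs and short-line Frege: cylinders, geometric sums.
-/

namespace Pool.Agent.Lib.MP_51bb46_lc.RC

open Finset

/-- Cylinders: `Fintype.card_piFinset` with the sets `if p ∈ Q then W else univ`. -/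
theorem card_cyl {P Λ : Type} [Fintype P] [DecidableEq P] [Fintype Λ] [DecidableEq Λ] [Nonempty Λ] (Q : Finset P)
    (W : Finset Λ) {E : ℝ} (hE : (W.card : ℝ) ≤ E * Fintype.card Λ) :
    ((univ.filter fun f : P → Λ => ∀ p ∈ Q, f p ∈ W).card : ℝ) ≤
      E ^ Q.card * (Fintype.card Λ : ℝ) ^ Fintype.card P := by
  have h1 : (univ.filter fun f : P → Λ => ∀ p ∈ Q, f p ∈ W) =
      Fintype.piFinset (fun p => if p ∈ Q then W else univ) := by
    ext f
    simp only [mem_filter, mem_univ, true_and, Fintype.mem_piFinset]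
    refine forall_congr' fun p => ?_
    by_cases hp : p ∈ Q <;> simp [hp]
  rw [h1, Fintype.card_piFinset, Nat.cast_prod]
  calc ∏ p, (((if p ∈ Q then W else univ).card : ℕ) : ℝ) ≤
      ∏ p, ((if p ∈ Q then E else 1) * (Fintype.card Λ : ℝ)) := by
        refine prod_le_prod (fun _ _ => Nat.cast_nonneg _) fun p _ => ?_
        by_cases hp : p ∈ Q
        · simpa [hp] using hE
        · simp [hp]
    _ = _ := by
        rw [prod_mul_distrib, prod_ite_mem, univ_inter, prod_const, prod_const, card_univ]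

theorem geom_tail {τ : ℝ} (h0 : 0 ≤ τ) (h1 : τ ≤ 1 / 2) (s t : ℕ) : ∑ i ∈ Icc s t, τ ^ i ≤ 2 * τ ^ s := by
  rcases le_or_gt s t with hst | hst
  · have key : ∑ i ∈ Icc s t, τ ^ i ≤ 2 * τ ^ s - τ ^ t := by
      induction t, hst using Nat.le_induction with
      | base => rw [Icc_self, sum_singleton]; linarith
      | succ t ht ih =>
        rw [sum_Icc_succ_top (by omega)]
        have h2 : 0 ≤ τ ^ t := pow_nonneg h0 t
        have h3 : τ ^ (t + 1) ≤ τ ^ t * (1 / 2) := by
          rw [pow_succ]
          exact mul_le_mul_of_nonneg_left h1 h2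
        linarith
    have h2 : 0 ≤ τ ^ t := pow_nonneg h0 t
    linarith
  · rw [Icc_eq_empty (by omega), sum_empty]
    positivity

end Pool.Agent.Lib.MP_51bb46_lc.RC
end
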