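import Mathlib

section

section

set_option autoImplicit false
set_option linter.unusedSectionVars false

/-!
Random k-CNFs and short-line Frege: the parameters.
-/

namespace Pool.Agent.Lib.MP_51bb46_lc.RC

open Finset Filter

/-- asymptotic facts -/
theorem base (ε : ℝ) (hε : 0 < ε) (A : ℕ) : ∃ k₀ : ℕ, ∀ k : ℕ, k₀ ≤ k → 2 ^ 20 + A ≤ k ∧ k ^ 40 ≤ 2 ^ k ∧
    10 ^ 10 * (k : ℝ) ^ (30 + A) ≤ Real.exp ((k : ℝ) ^ ε / 8) ∧ 2 ≤ (ε * Real.log 2) ^ 2 * k := by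
  have h1 : ∀ᶠ k : ℕ in atTop, 2 ^ 20 + A ≤ k := eventually_ge_atTop _
  have h2 : ∀ᶠ k : ℕ in atTop, k ^ 40 ≤ 2 ^ k := by
    have h := (isLittleO_pow_const_const_pow_of_one_lt (R := ℝ) 40 (r := 2) (by norm_num)).bound
      (show (0 : ℝ) < 1 by norm_num)
    filter_upwards [h] with k hk
    rw [Real.norm_eq_abs, Real.norm_eq_abs, abs_of_nonneg (by positivity), abs_of_nonneg (by positivity), one_mul] at hk
    exact_mod_cast hk
  have h3 : ∀ᶠ k : ℕ in atTop, 10 ^ 10 * (k : ℝ) ^ (30 + A) ≤ Real.exp ((k : ℝ) ^ ε / 8) := by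
    have h := (isLittleO_rpow_exp_pos_mul_atTop ((30 + A : ℕ) / ε) (b := 1 / 8) (by norm_num)).bound
      (show (0 : ℝ) < 1 / 10 ^ 10 by norm_num)
    have ht : Tendsto (fun k : ℕ => (k : ℝ) ^ ε) atTop atTop :=
      (tendsto_rpow_atTop hε).comp tendsto_natCast_atTop_atTop
    filter_upwards [ht.eventually h] with k hk
    have hk0 : (0 : ℝ) ≤ k := Nat.cast_nonneg k
    rw [Real.norm_eq_abs, Real.norm_eq_abs, abs_of_nonneg (by positivity), abs_of_nonneg (by positivity),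
      ← Real.rpow_mul hk0] at hk
    have h4 : ε * ((30 + A : ℕ) / ε) = (30 + A : ℕ) := by field_simp
    rw [h4, Real.rpow_natCast] at hk
    have h5 : (1 : ℝ) / 8 * (k : ℝ) ^ ε = (k : ℝ) ^ ε / 8 := by ring
    rw [h5] at hk
    calc 10 ^ 10 * (k : ℝ) ^ (30 + A) ≤ 10 ^ 10 * (1 / 10 ^ 10 * Real.exp ((k : ℝ) ^ ε / 8)) := by gcongr
      _ = _ := by ring
  have h4 : ∀ᶠ k : ℕ in atTop, 2 ≤ (ε * Real.log 2) ^ 2 * k := by
    have hl : 0 < (ε * Real.log 2) ^ 2 := by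
      have := Real.log_pos (show (1 : ℝ) < 2 by norm_num)
      positivity
    filter_upwards [eventually_ge_atTop ⌈2 / (ε * Real.log 2) ^ 2⌉₊] with k hk
    have h5 : 2 / (ε * Real.log 2) ^ 2 ≤ k := Nat.ceil_le.mp hk
    rw [div_le_iff₀ hl] at h5
    linarith
  obtain ⟨k₀, hk₀⟩ := eventually_atTop.mp (h1.and (h2.and (h3.and h4)))
  exact ⟨k₀, fun k hk => hk₀ k hk⟩

/-- the parameters -/
structure Par (A k n M m : ℕ) (E : ℝ) : Prop where
  hA : 2 ^ 20 + A ≤ k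
  h40 : k ^ 40 ≤ 2 ^ k
  hn : k ^ 10 ≤ n
  hm1 : 1 ≤ m
  hmk : m ≤ k
  hM : (M : ℝ) ≤ k ^ A * 2 ^ k * n
  hE0 : 0 ≤ E
  hE : 2 ^ k * 10 ^ 10 * (k : ℝ) ^ (30 + A) * E ^ k ≤ 1
  hE2 : (n : ℝ) - (n / m : ℕ) / 2 ≤ E * (2 * n)

end Pool.Agent.Lib.MP_51bb46_lc.RC
end

section

set_option autoImplicit false
set_option linter.unusedSectionVars false

/-!
Random k-CNFs and short-line Frege: the parameters, basic estimates.
-/

namespace Pool.Agent.Lib.MP_51bb46_lc.RC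

open Finset

/-- `i₀` -/
def pi0 (k n : ℕ) : ℕ := n / k ^ 8 + 1
/-- `i₁` -/
def pi1 (k n : ℕ) : ℕ := n / k ^ 5
/-- `s₁` -/
def ps1 (k n : ℕ) : ℕ := pi1 k n - pi0 k n
/-- `b₀` -/
def pb0 (k n : ℕ) : ℕ := k * pi0 k n
/-- `q` -/
def pq (n m : ℕ) : ℕ := n / m / 32

theorem div_gt {a b : ℕ} (hb : 0 < b) : (a : ℝ) / b - 1 < ((a / b : ℕ) : ℝ) := by
  have h1 : a < b * (a / b + 1) := Nat.lt_mul_div_succ a hb
  have h2 : (a : ℝ) < b * ((a / b : ℕ) + 1) := by exact_mod_cast h1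
  have hb' : (0 : ℝ) < b := by exact_mod_cast hb
  rw [sub_lt_iff_lt_add, div_lt_iff₀ hb']
  linarith

theorem div_le' {a b : ℕ} : ((a / b : ℕ) : ℝ) ≤ (a : ℝ) / b := Nat.cast_div_le

namespace Par

variable {A k n M m : ℕ} {E : ℝ} (P : Par A k n M m E)

include P

theorem hk : 2 ^ 20 ≤ k := by
  have := P.hA
  omega

theorem k0 : (0 : ℝ) < k := by
  have := P.hk
  have h : 0 < k := by omega
  exact_mod_cast h

theorem kbig : (2 : ℝ) ^ 20 ≤ k := by exact_mod_cast P.hk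

theorem m0 : (0 : ℝ) < m := by exact_mod_cast P.hm1

theorem mlek : (m : ℝ) ≤ k := by exact_mod_cast P.hmk

theorem m1 : (1 : ℝ) ≤ m := by exact_mod_cast P.hm1

theorem k40 : (k : ℝ) ^ 10 ≤ n := by exact_mod_cast P.hn

theorem n0 : (0 : ℝ) < n := lt_of_lt_of_le (by have := P.k0; positivity) P.k40

/-- powers of `k` below `n` -/
theorem kpow {a b : ℕ} (hab : a + b + 1 ≤ 10) : (2 : ℝ) ^ 20 * k ^ a ≤ n / k ^ b := by
  have hk := P.k0
  have hk1 : (1 : ℝ) ≤ k := le_trans (by norm_num) P.kbig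
  rw [le_div_iff₀ (by positivity)]
  calc (2 : ℝ) ^ 20 * k ^ a * k ^ b ≤ k * k ^ a * k ^ b := by gcongr; exact P.kbig
    _ = k ^ (a + b + 1) := by ring
    _ ≤ (k : ℝ) ^ 10 := pow_le_pow_right₀ hk1 hab
    _ ≤ n := P.k40

theorem N_le : ((n / m : ℕ) : ℝ) ≤ n / m := div_le'

theorem N_le' : ((n / m : ℕ) : ℝ) ≤ n := by
  exact_mod_cast Nat.div_le_self n m

theorem N_ge : (n : ℝ) / (2 * m) ≤ ((n / m : ℕ) : ℝ) := by
  have h1 := div_gt (a := n) (b := m) (by have := P.hm1; omega)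
  have h2 : 2 * (m : ℝ) ≤ n := by
    have h3 := P.kpow (a := 1) (b := 0) (by norm_num)
    have h4 := P.mlek
    have h5 := P.k0
    rw [pow_zero, div_one, pow_one] at h3
    nlinarith
  have hm := P.m0
  have h3 : (1 : ℝ) ≤ n / (2 * m) := by
    rw [le_div_iff₀ (by positivity)]
    linarith
  have h4 : (n : ℝ) / m = n / (2 * m) + n / (2 * m) := by field_simp; ring
  linarith

theorem N_gek : (n : ℝ) / (2 * k) ≤ ((n / m : ℕ) : ℝ) := by
  refine le_trans ?_ P.N_ge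
  have hm := P.m0
  have hn := P.n0
  have hmk := P.mlek
  gcongr

theorem i0_ge : (n : ℝ) / k ^ 8 ≤ pi0 k n := by
  have h := div_gt (a := n) (b := k ^ 8) (by have := P.hk; positivity)
  unfold pi0
  push_cast at h ⊢
  linarith

theorem i0_le : (pi0 k n : ℝ) ≤ 2 * (n / k ^ 8) := by
  have h : ((n / k ^ 8 : ℕ) : ℝ) ≤ (n : ℝ) / (k ^ 8 : ℕ) := div_le'
  have h2 := P.kpow (a := 0) (b := 8) (by norm_num)
  unfold pi0
  push_cast at h ⊢
  have h3 : (1 : ℝ) ≤ 2 ^ 20 * (k : ℝ) ^ 0 := by norm_num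
  linarith

theorem i1_le : (pi1 k n : ℝ) ≤ n / k ^ 5 := by
  have h : ((n / k ^ 5 : ℕ) : ℝ) ≤ (n : ℝ) / (k ^ 5 : ℕ) := div_le'
  unfold pi1
  push_cast at h
  exact h

theorem i0_le_i1 : (n : ℝ) / k ^ 6 ≤ (pi1 k n : ℝ) - pi0 k n := by
  have h := div_gt (a := n) (b := k ^ 5) (by have := P.hk; positivity)
  have h1 := P.i0_le
  have hk := P.k0
  have hn := P.n0
  have hb := P.kbig
  have h2 := P.kpow (a := 0) (b := 6) (by norm_num)
  have h3 : (n : ℝ) / k ^ 5 = k * (n / k ^ 6) := by field_simp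
  have h4 : (n : ℝ) / k ^ 8 ≤ n / k ^ 6 := by
    have hk1 : (1 : ℝ) ≤ k := le_trans (by norm_num) P.kbig
    gcongr
    norm_num
  unfold pi1
  push_cast at h ⊢
  rw [h3] at h
  have h5 : (1 : ℝ) ≤ n / k ^ 6 := by
    refine le_trans ?_ h2
    norm_num
  nlinarith

theorem i0_lt : pi0 k n < pi1 k n := by
  have h := P.i0_le_i1
  have hk := P.k0
  have hn := P.n0
  have h1 : (0 : ℝ) < n / k ^ 6 := by positivity
  have h2 : (pi0 k n : ℝ) < pi1 k n := by linarith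
  exact_mod_cast h2

theorem s1_cast : (ps1 k n : ℝ) = (pi1 k n : ℝ) - pi0 k n := by
  unfold ps1
  rw [Nat.cast_sub P.i0_lt.le]

theorem s1_ge : (n : ℝ) / k ^ 6 ≤ ps1 k n := by
  rw [P.s1_cast]; exact P.i0_le_i1

theorem s1_pos : 1 ≤ ps1 k n := by
  have := P.i0_lt
  unfold ps1
  omega

theorem b0_ge : (n : ℝ) / k ^ 7 ≤ pb0 k n := by
  have h := P.i0_ge
  have hk := P.k0
  unfold pb0
  push_cast
  calc (n : ℝ) / k ^ 7 = k * (n / k ^ 8) := by field_simp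
    _ ≤ _ := by gcongr

theorem b0_le : (pb0 k n : ℝ) ≤ 2 * (n / k ^ 7) := by
  have h := P.i0_le
  have hk := P.k0
  unfold pb0
  push_cast
  calc (k : ℝ) * pi0 k n ≤ k * (2 * (n / k ^ 8)) := by gcongr
    _ = 2 * (n / k ^ 7) := by field_simp

theorem b0_pos : 1 ≤ pb0 k n := by
  have := P.hk
  unfold pb0 pi0
  have h1 : 0 < k := by omega
  exact Nat.mul_pos h1 (Nat.succ_pos _)

theorem b0_leN : pb0 k n ≤ n / m := by
  have h1 := P.b0_le
  have h2 := P.N_gek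
  have hk := P.k0
  have hn := P.n0
  have hb := P.kbig
  have hk1 : (1 : ℝ) ≤ k := le_trans (by norm_num) P.kbig
  have h3 : 2 * ((n : ℝ) / k ^ 7) ≤ n / (2 * k) := by
    rw [le_div_iff₀ (by positivity)]
    have h4 : 2 * ((n : ℝ) / k ^ 7) * (2 * k) = n * (4 / k ^ 6) := by field_simp; ring
    rw [h4]
    have h5 : 4 / (k : ℝ) ^ 6 ≤ 1 := by
      rw [div_le_one (by positivity)]
      calc (4 : ℝ) ≤ k := le_trans (by norm_num) hb
        _ = k ^ 1 := (pow_one _).symm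
        _ ≤ (k : ℝ) ^ 6 := pow_le_pow_right₀ hk1 (by norm_num)
    calc (n : ℝ) * (4 / k ^ 6) ≤ n * 1 := by gcongr
      _ = n := mul_one _
  have h6 : (pb0 k n : ℝ) ≤ ((n / m : ℕ) : ℝ) := h1.trans (h3.trans h2)
  exact_mod_cast h6

theorem i1_leN : pi1 k n ≤ n / m := by
  unfold pi1
  apply Nat.div_le_div_left
  · calc m ≤ k := P.hmk
      _ = k ^ 1 := (pow_one _).symm
      _ ≤ k ^ 5 := Nat.pow_le_pow_right (by have := P.hk; omega) (by norm_num)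
  · exact P.hm1

theorem q_le : (pq n m : ℝ) ≤ ((n / m : ℕ) : ℝ) / 32 := by
  unfold pq
  have h : (((n / m) / 32 : ℕ) : ℝ) ≤ ((n / m : ℕ) : ℝ) / (32 : ℕ) := div_le'
  push_cast at h ⊢
  exact h

theorem q_leN : 2 * (2 * pq n m) ≤ n / m := by
  unfold pq
  omega

theorem q_gt : (n : ℝ) / (64 * m) - 1 < pq n m := by
  unfold pq
  have h := div_gt (a := n / m) (b := 32) (by norm_num)
  have h2 := P.N_ge
  have hm := P.m0
  push_cast at h ⊢
  have h3 : (n : ℝ) / (64 * m) = n / (2 * m) / 32 := by field_simp; ring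
  rw [h3]
  linarith

theorem q_gek : k ≤ pq n m := by
  have h := P.q_gt
  have h1 := P.kpow (a := 1) (b := 1) (by norm_num)
  have hm := P.m0
  have hk := P.k0
  have hn := P.n0
  have hmk := P.mlek
  have h2 : (n : ℝ) / (64 * k) ≤ n / (64 * m) := by gcongr
  have h3 : (n : ℝ) / (64 * k) = (n / k ^ 1) / 64 := by field_simp
  have hb := P.kbig
  rw [h3] at h2
  have h4 : (k : ℝ) < pq n m := by
    have h5 : (k : ℝ) + 1 ≤ n / k ^ 1 / 64 := by
      rw [le_div_iff₀ (by norm_num)]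
      refine le_trans ?_ h1
      rw [pow_one]
      nlinarith
    linarith
  exact_mod_cast h4.le

end Par

end Pool.Agent.Lib.MP_51bb46_lc.RC
end
end

section

set_option autoImplicit false
set_option linter.unusedSectionVars false

/-!
Random k-CNFs and short-line Frege: the inequalities for the parameters.
-/

namespace Pool.Agent.Lib.MP_51bb46_lc.RC

open Finset

namespace Par

variable {A k n M m : ℕ} {E : ℝ} (P : Par A k n M m E)

include P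

theorem k1 : (1 : ℝ) ≤ k := le_trans (by norm_num) P.kbig

theorem E_pow : (k : ℝ) ^ A * 2 ^ k * E ^ k ≤ 1 / (10 ^ 10 * (k : ℝ) ^ 30) := by
  have h := P.hE
  have hk := P.k0
  rw [le_div_iff₀ (by positivity)]
  rw [pow_add] at h
  linarith

theorem n3 : 2 * ((n / m : ℕ) : ℝ) * (1 / 8) + (n - ((n / m : ℕ) : ℝ)) * (1 + 1 / (16 * m)) +
    1 / (1 / (16 * (m : ℝ))) * ((2 * (m + 1)) * (k * (pi1 k n : ℕ))) ≤ E * (2 * n) := by
  refine le_trans ?_ P.hE2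
  have hm := P.m0
  have hm1 := P.m1
  have hk := P.k0
  have hn := P.n0
  have hk1 := P.k1
  have hb := P.kbig
  have hmk := P.mlek
  set N : ℝ := ((n / m : ℕ) : ℝ) with hN
  have hN0 : 0 ≤ N := Nat.cast_nonneg _
  have h1 : (n : ℝ) / (16 * m) ≤ N / 8 := by
    have h := P.N_ge
    calc (n : ℝ) / (16 * m) = n / (2 * m) / 8 := by field_simp; ring
      _ ≤ N / 8 := by gcongr
  have h2 : (n - N) * (1 + 1 / (16 * m)) ≤ n - N + N / 8 := by
    have h3 : (n - N) * (1 + 1 / (16 * (m : ℝ))) = n - N + n / (16 * m) - N / (16 * m) := by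
      field_simp
      ring
    rw [h3]
    have h4 : 0 ≤ N / (16 * m) := by positivity
    linarith
  have h3 : 1 / (1 / (16 * (m : ℝ))) * ((2 * (m + 1)) * (k * (pi1 k n : ℕ))) ≤ N / 8 := by
    have h4 : 1 / (1 / (16 * (m : ℝ))) = 16 * m := by field_simp
    rw [h4]
    have h5 := P.i1_le
    have h6 := P.N_gek
    calc 16 * (m : ℝ) * ((2 * (m + 1)) * (k * (pi1 k n : ℕ)))
        ≤ 16 * (k : ℝ) * ((2 * (k + k)) * (k * (n / k ^ 5))) := by gcongr
      _ = n / (2 * k) * (128 / k) := by field_simp; ring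
      _ ≤ n / (2 * k) * (1 / 8) := by
          refine mul_le_mul_of_nonneg_left ?_ (by positivity)
          rw [div_le_iff₀ hk]
          linarith
      _ ≤ N * (1 / 8) := by gcongr
      _ = N / 8 := by ring
  linarith

theorem n4 : 3 * (M : ℝ) * E ^ k ≤ 1 / 4 * (1 / 8) ^ 2 * (pi0 k n : ℕ) := by
  have hk := P.k0
  have hn := P.n0
  have hk1 := P.k1
  have h1 := P.hM
  have h2 := P.E_pow
  have h3 := P.i0_ge
  have hE := P.hE0
  calc 3 * (M : ℝ) * E ^ k ≤ 3 * (k ^ A * 2 ^ k * n) * E ^ k := by gcongr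
    _ = 3 * n * (k ^ A * 2 ^ k * E ^ k) := by ring
    _ ≤ 3 * n * (1 / (10 ^ 10 * (k : ℝ) ^ 30)) := by gcongr
    _ = (n / k ^ 8) * (3 / 10 ^ 10 * (1 / k ^ 22)) := by field_simp
    _ ≤ (n / k ^ 8) * (3 / 10 ^ 10 * 1) := by
        refine mul_le_mul_of_nonneg_left (mul_le_mul_of_nonneg_left ?_ (by positivity)) (by positivity)
        rw [div_le_one (by positivity)]
        exact one_le_pow₀ hk1
    _ ≤ (n / k ^ 8) * (1 / 4 * (1 / 8) ^ 2) := by
        refine mul_le_mul_of_nonneg_left ?_ (by positivity)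
        norm_num
    _ ≤ (pi0 k n : ℕ) * (1 / 4 * (1 / 8) ^ 2) := by gcongr
    _ = _ := by ring

theorem n5 : ((n : ℝ) - ((n / m : ℕ) : ℝ)) + 2 * (m + 1) * (pb0 k n : ℕ) + 2 * (2 * ((2 * pq n m : ℕ) : ℝ)) ≤
    E * (2 * n) := by
  refine le_trans ?_ P.hE2
  have hm := P.m0
  have hm1 := P.m1
  have hk := P.k0
  have hn := P.n0
  have hk1 := P.k1
  have hb := P.kbig
  have hmk := P.mlek
  have h1 := P.q_le
  have h2 := P.b0_le
  have h3 := P.N_gek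
  set N : ℝ := ((n / m : ℕ) : ℝ) with hN
  have h4 : 2 * ((m : ℝ) + 1) * (pb0 k n : ℕ) ≤ N / 4 := by
    calc 2 * ((m : ℝ) + 1) * (pb0 k n : ℕ) ≤ 2 * (k + k) * (2 * (n / k ^ 7)) := by gcongr
      _ = n / (2 * k) * (16 / k ^ 5) := by field_simp; ring
      _ ≤ n / (2 * k) * (1 / 4) := by
          refine mul_le_mul_of_nonneg_left ?_ (by positivity)
          rw [div_le_iff₀ (by positivity)]
          have h5 : (k : ℝ) ^ 1 ≤ k ^ 5 := pow_le_pow_right₀ hk1 (by norm_num)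
          rw [pow_one] at h5
          linarith
      _ ≤ N * (1 / 4) := by gcongr
      _ = N / 4 := by ring
  push_cast
  linarith

theorem n6 : (3 * (M : ℝ) / (ps1 k n : ℕ)) * (3 * ((n / m : ℕ) : ℝ) / (2 * (ps1 k n : ℕ))) ^ 2 * E ^ k ≤ 1 / 4 := by
  have hk := P.k0
  have hn := P.n0
  have hk1 := P.k1
  have h1 := P.hM
  have h2 := P.E_pow
  have h3 := P.s1_ge
  have hE := P.hE0
  have hN := P.N_le'
  have hs : (0 : ℝ) < n / k ^ 6 := by positivity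
  have hs' : (0 : ℝ) < (ps1 k n : ℕ) := lt_of_lt_of_le hs h3
  calc (3 * (M : ℝ) / (ps1 k n : ℕ)) * (3 * ((n / m : ℕ) : ℝ) / (2 * (ps1 k n : ℕ))) ^ 2 * E ^ k
      ≤ (3 * (k ^ A * 2 ^ k * n) / (n / k ^ 6)) * (3 * n / (2 * (n / k ^ 6))) ^ 2 * E ^ k := by gcongr
    _ = 27 / 4 * k ^ 18 * (k ^ A * 2 ^ k * E ^ k) := by field_simp; ring
    _ ≤ 27 / 4 * k ^ 18 * (1 / (10 ^ 10 * (k : ℝ) ^ 30)) := by gcongr
    _ = 27 / 4 / 10 ^ 10 * (1 / k ^ 12) := by field_simp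
    _ ≤ 27 / 4 / 10 ^ 10 * 1 := by
        refine mul_le_mul_of_nonneg_left ?_ (by positivity)
        rw [div_le_one (by positivity)]
        exact one_le_pow₀ hk1
    _ ≤ 1 / 4 := by norm_num

/-- the number of partial assignments of the closure is small -/
theorem b0_pow : (6 * ((n / m : ℕ) : ℝ) / (pb0 k n : ℕ)) ^ (pb0 k n) ≤ (2 : ℝ) ^ ((n : ℝ) / k ^ 6) := by
  have hk := P.k0
  have hn := P.n0
  have hk1 := P.k1
  have hb := P.kbig
  have h1 := P.b0_ge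
  have h2 := P.b0_le
  have hN := P.N_le'
  have hs : (0 : ℝ) < n / k ^ 7 := by positivity
  have hs' : (0 : ℝ) < (pb0 k n : ℕ) := lt_of_lt_of_le hs h1
  have h3 : (6 * ((n / m : ℕ) : ℝ) / (pb0 k n : ℕ)) ≤ 6 * k ^ 7 := by
    calc (6 * ((n / m : ℕ) : ℝ) / (pb0 k n : ℕ)) ≤ 6 * n / (n / k ^ 7) := by gcongr
      _ = 6 * k ^ 7 := by field_simp
  have h4 : (6 * (k : ℝ) ^ 7) ≤ (2 : ℝ) ^ ((k : ℝ) / 2) := by
    have h5 : (6 * (k : ℝ) ^ 7) ^ 2 ≤ ((2 : ℝ) ^ ((k : ℝ) / 2)) ^ 2 := by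
      rw [← Real.rpow_natCast ((2 : ℝ) ^ ((k : ℝ) / 2)), ← Real.rpow_mul (by norm_num)]
      have h6 : (k : ℝ) / 2 * (2 : ℕ) = (k : ℕ) := by push_cast; ring
      rw [h6, Real.rpow_natCast]
      have h7 : (k : ℝ) ^ 40 ≤ 2 ^ k := by exact_mod_cast P.h40
      refine le_trans ?_ h7
      calc (6 * (k : ℝ) ^ 7) ^ 2 = 36 * (k : ℝ) ^ 14 := by ring
        _ ≤ (k : ℝ) * (k : ℝ) ^ 14 := by
          refine mul_le_mul_of_nonneg_right ?_ (by positivity)
          linarith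
        _ = (k : ℝ) ^ 15 := by ring
        _ ≤ (k : ℝ) ^ 40 := pow_le_pow_right₀ hk1 (by norm_num)
    exact (pow_le_pow_iff_left₀ (by positivity) (by positivity) (by norm_num)).mp h5
  calc (6 * ((n / m : ℕ) : ℝ) / (pb0 k n : ℕ)) ^ (pb0 k n) ≤ ((2 : ℝ) ^ ((k : ℝ) / 2)) ^ (pb0 k n) := by
        gcongr
        exact h3.trans h4
    _ = (2 : ℝ) ^ ((k : ℝ) / 2 * (pb0 k n : ℕ)) := by
        rw [← Real.rpow_natCast, ← Real.rpow_mul (by norm_num)]
    _ ≤ (2 : ℝ) ^ ((n : ℝ) / k ^ 6) := by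
        apply Real.rpow_le_rpow_of_exponent_le (by norm_num)
        calc (k : ℝ) / 2 * (pb0 k n : ℕ) ≤ k / 2 * (2 * (n / k ^ 7)) := by gcongr
          _ = n / k ^ 6 := by field_simp

end Par

end Pool.Agent.Lib.MP_51bb46_lc.RC
end
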