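import Mathlib
import Pool.Agent.Lib.MP_51bb46_lc.RC.NumC
import Pool.Agent.Lib.MP_51bb46_lc.RC.CylA

section

section

set_option autoImplicit false
set_option linter.unusedSectionVars false

/-!
Random k-CNFs and short-line Frege: numbers of small subsets.
-/

namespace Pool.Agent.Lib.MP_51bb46_lc.RC

open Finset

/-- `∑_{j ≤ s} C(N,j) ≤ (3 N / s) ^ s`. Proof: with `θ = s / N ≤ 1`: `#{T} θ^s ≤ ∑_T θ^|T| = (1 + θ)^N ≤ exp (θ N) = exp s`
(`Finset.prod_one_add` or `Finset.sum_pow_mul_eq_add_pow`; `Real.add_one_le_exp`; `exp 1 < 3`). -/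
theorem card_small {N s : ℕ} (h1 : 1 ≤ s) (h2 : s ≤ N) :
    ((univ.filter fun T : Finset (Fin N) => T.card ≤ s).card : ℝ) ≤ (3 * N / s : ℝ) ^ s := by
  have hs : (0:ℝ) < s := by exact_mod_cast h1
  have hN : (0:ℝ) < N := by exact_mod_cast (lt_of_lt_of_le h1 h2)
  have hθ0 : (0:ℝ) < s / N := div_pos hs hN
  have hθ1 : (s:ℝ) / N ≤ 1 := by
    rw [div_le_one hN]
    exact_mod_cast h2
  have e1 : ∑ T : Finset (Fin N), ((s:ℝ) / N) ^ T.card = (s / N + 1) ^ N := by
    have := Fintype.sum_pow_mul_eq_add_pow (Fin N) ((s:ℝ) / N) 1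
    simpa using this
  have e2 : ((univ.filter fun T : Finset (Fin N) => T.card ≤ s).card : ℝ) * ((s:ℝ) / N) ^ s ≤
      ∑ T : Finset (Fin N), ((s:ℝ) / N) ^ T.card := by
    calc ((univ.filter fun T : Finset (Fin N) => T.card ≤ s).card : ℝ) * ((s:ℝ) / N) ^ s
        = ∑ T ∈ univ.filter (fun T : Finset (Fin N) => T.card ≤ s), ((s:ℝ) / N) ^ s := by
          rw [sum_const, nsmul_eq_mul]
      _ ≤ ∑ T ∈ univ.filter (fun T : Finset (Fin N) => T.card ≤ s), ((s:ℝ) / N) ^ T.card := by
          refine sum_le_sum fun T hT => ?_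
          exact pow_le_pow_of_le_one hθ0.le hθ1 (mem_filter.1 hT).2
      _ ≤ ∑ T : Finset (Fin N), ((s:ℝ) / N) ^ T.card :=
          sum_le_sum_of_subset_of_nonneg (filter_subset _ _) fun _ _ _ => by positivity
  have e3 : ((s:ℝ) / N + 1) ^ N ≤ 3 ^ s := by
    calc ((s:ℝ) / N + 1) ^ N ≤ (Real.exp (s / N)) ^ N :=
          pow_le_pow_left₀ (by positivity) (Real.add_one_le_exp _) N
      _ = (Real.exp 1) ^ s := by
          rw [← Real.exp_nat_mul, ← Real.exp_nat_mul, mul_one]
          congr 1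
          field_simp
      _ ≤ 3 ^ s := pow_le_pow_left₀ (Real.exp_pos _).le (by linarith [Real.exp_one_lt_d9]) s
  have e4 : (3 * N / s : ℝ) ^ s = 3 ^ s / ((s:ℝ) / N) ^ s := by
    rw [← div_pow]
    congr 1
    field_simp
  rw [e4, le_div_iff₀ (pow_pos hθ0 s)]
  exact (e2.trans (le_of_eq e1)).trans e3

/-- as `card_small`; for `s > M` the set is empty -/
theorem card_eq_size {M s : ℕ} (h1 : 1 ≤ s) :
    ((univ.filter fun T : Finset (Fin M) => T.card = s).card : ℝ) ≤ (3 * M / s : ℝ) ^ s := by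
  rcases le_or_gt s M with h | h
  · refine le_trans ?_ (card_small h1 h)
    have : (univ.filter fun T : Finset (Fin M) => T.card = s) ⊆
        univ.filter fun T : Finset (Fin M) => T.card ≤ s := by
      intro T hT
      rw [mem_filter] at hT ⊢
      exact ⟨hT.1, hT.2.le⟩
    exact_mod_cast card_le_card this
  · have : (univ.filter fun T : Finset (Fin M) => T.card = s) = ∅ := by
      rw [filter_eq_empty_iff]
      intro T _ hT
      have := card_le_univ T
      rw [Fintype.card_fin] at this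
      omega
    rw [this, card_empty, Nat.cast_zero]
    positivity

/-- partial assignments with at most `b` values: for each support at most `2 ^ b` choices -/
theorem card_partial {N b : ℕ} (h1 : 1 ≤ b) (h2 : b ≤ N) :
    ((univ.filter fun σ : Fin N → Option Bool => (univ.filter fun v => σ v ≠ none).card ≤ b).card : ℝ) ≤
      (6 * N / b : ℝ) ^ b := by
  have key : (univ.filter fun σ : Fin N → Option Bool =>
      (univ.filter fun v => σ v ≠ none).card ≤ b).card ≤
      2 ^ b * (univ.filter fun T : Finset (Fin N) => T.card ≤ b).card := by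
    have h3 := card_le_mul_card_image (f := fun σ : Fin N → Option Bool => univ.filter fun v => σ v ≠ none)
      (univ.filter fun σ : Fin N → Option Bool => (univ.filter fun v => σ v ≠ none).card ≤ b) (2 ^ b) (by
        intro T hT
        rw [mem_image] at hT
        obtain ⟨σ₀, hσ₀, rfl⟩ := hT
        have hb := (mem_filter.1 hσ₀).2
        generalize (univ.filter fun v => σ₀ v ≠ none) = T at hb ⊢
        have hsub : (univ.filter fun σ : Fin N → Option Bool =>
            (univ.filter fun v => σ v ≠ none).card ≤ b).filter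
            (fun σ => (univ.filter fun v => σ v ≠ none) = T) ⊆
            Fintype.piFinset (fun v => if v ∈ T then {some true, some false} else {none}) := by
          intro σ hσ
          rw [mem_filter] at hσ
          rw [Fintype.mem_piFinset]
          intro v
          by_cases hv : v ∈ T
          · rw [if_pos hv]
            rw [← hσ.2, mem_filter] at hv
            rcases h : σ v with _ | c
            · exact absurd h hv.2
            · cases c <;> simp
          · rw [if_neg hv]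
            rw [← hσ.2, mem_filter] at hv
            have : σ v = none := by
              by_contra h
              exact hv ⟨mem_univ _, h⟩
            rw [this]
            exact mem_singleton_self _
        refine (card_le_card hsub).trans ?_
        rw [Fintype.card_piFinset]
        have e1 : ∀ v, (if v ∈ T then ({some true, some false} : Finset (Option Bool)) else {none}).card =
            if v ∈ T then 2 else 1 := by
          intro v
          by_cases hv : v ∈ T
          · rw [if_pos hv, if_pos hv]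
            rfl
          · rw [if_neg hv, if_neg hv]
            rfl
        rw [prod_congr rfl fun v _ => e1 v, prod_ite_mem, univ_inter, prod_const]
        exact Nat.pow_le_pow_right (by norm_num) hb)
    refine h3.trans (Nat.mul_le_mul_left _ (card_le_card ?_))
    intro T hT
    rw [mem_image] at hT
    obtain ⟨σ, hσ, rfl⟩ := hT
    rw [mem_filter] at hσ ⊢
    exact ⟨mem_univ _, hσ.2⟩
  have h4 := card_small h1 h2
  have h5 : (6 * N / b : ℝ) ^ b = 2 ^ b * (3 * N / b : ℝ) ^ b := by
    rw [← mul_pow]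
    congr 1
    ring
  rw [h5]
  calc ((univ.filter fun σ : Fin N → Option Bool =>
      (univ.filter fun v => σ v ≠ none).card ≤ b).card : ℝ) ≤
      2 ^ b * ((univ.filter fun T : Finset (Fin N) => T.card ≤ b).card : ℝ) := by exact_mod_cast key
    _ ≤ _ := mul_le_mul_of_nonneg_left h4 (by positivity)

end Pool.Agent.Lib.MP_51bb46_lc.RC
end

section

set_option autoImplicit false
set_option linter.unusedSectionVars false

/-!
Random k-CNFs and short-line Frege: the exceptional probabilities.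
-/

namespace Pool.Agent.Lib.MP_51bb46_lc.RC

open Finset

theorem two_pow_ge {x : ℕ} (hx : 16 ≤ x) : 16 * x ^ 2 ≤ 2 ^ x := by
  induction x, hx using Nat.le_induction with
  | base => norm_num
  | succ x hx ih =>
    rw [pow_succ 2 x]
    nlinarith

theorem two_pow_ge9 {x : ℕ} (hx : 64 ≤ x) : 16 * x ^ 9 ≤ 2 ^ x := by
  induction x, hx using Nat.le_induction with
  | base => norm_num
  | succ x hx ih =>
    have h1 : 64 * (x + 1) ≤ 65 * x := by omega
    have h2 : (64 * (x + 1)) ^ 9 ≤ (65 * x) ^ 9 := Nat.pow_le_pow_left h1 9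
    rw [mul_pow, mul_pow] at h2
    have h3 : (65 : ℕ) ^ 9 * x ^ 9 ≤ 64 ^ 9 * (2 * x ^ 9) := by
      have : (65 : ℕ) ^ 9 ≤ 64 ^ 9 * 2 := by norm_num
      calc (65 : ℕ) ^ 9 * x ^ 9 ≤ 64 ^ 9 * 2 * x ^ 9 := Nat.mul_le_mul_right _ this
        _ = _ := by ring
    have h4 : (x + 1) ^ 9 ≤ 2 * x ^ 9 := Nat.le_of_mul_le_mul_left (h2.trans h3) (by norm_num)
    rw [pow_succ 2 x]
    omega

theorem sq_le_two_pow (s : ℕ) : s ^ 2 ≤ 2 * 2 ^ s := by
  by_cases hs : 16 ≤ s
  · have := two_pow_ge hs
    omega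
  · have : s < 16 := by omega
    interval_cases s <;> norm_num

namespace Par

variable {A k n M m : ℕ} {E : ℝ} (P : Par A k n M m E)

include P

theorem small_of {x : ℕ} (hx : (n : ℝ) / k ^ 8 ≤ x) : 2 * (1 / 2 : ℝ) ^ x ≤ 1 / (8 * n) := by
  have hk := P.k0
  have hn := P.n0
  have hk1 := P.k1
  have h1 := P.kpow (a := 1) (b := 8) (by norm_num)
  have h2 : (n : ℝ) ≤ (n / k ^ 8) ^ 9 := by
    have h3 : (k : ℝ) ≤ n / k ^ 8 := by
      refine le_trans ?_ h1
      rw [pow_one]
      nlinarith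
    calc (n : ℝ) = k ^ 8 * (n / k ^ 8) := by field_simp
      _ ≤ (n / k ^ 8) ^ 8 * (n / k ^ 8) := by gcongr
      _ = _ := by ring
  have h3 : (64 : ℝ) ≤ x := by
    have h4 := P.kpow (a := 0) (b := 8) (by norm_num)
    have h5 : (64 : ℝ) ≤ 2 ^ 20 * (k : ℝ) ^ 0 := by norm_num
    linarith
  have h3' : 64 ≤ x := by exact_mod_cast h3
  have h4 : (16 : ℝ) * (x : ℝ) ^ 9 ≤ 2 ^ x := by exact_mod_cast two_pow_ge9 h3'
  have h5 : (n : ℝ) ≤ (x : ℝ) ^ 9 := h2.trans (by gcongr)
  rw [one_div_pow, le_div_iff₀ (by positivity)]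
  have h6 : 2 * (1 / (2 : ℝ) ^ x) * (8 * n) = 16 * n / 2 ^ x := by ring
  rw [h6, div_le_one (by positivity)]
  linarith

theorem delta : 2 * (1 / 4 : ℝ) ^ (pi0 k n) +
    (3 * ((n / m : ℕ) : ℝ) / (pb0 k n : ℕ)) ^ (pb0 k n) * (2 * (1 / 4 : ℝ) ^ (ps1 k n)) ≤ 1 / (4 * n) := by
  have hk := P.k0
  have hn := P.n0
  have hk1 := P.k1
  have h1 := P.small_of P.i0_ge
  have h2 : 2 * (1 / 4 : ℝ) ^ (pi0 k n) ≤ 1 / (8 * n) := by
    refine le_trans ?_ h1
    gcongr
    norm_num
  have h3 : (n : ℝ) / k ^ 8 ≤ ps1 k n := by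
    refine le_trans ?_ P.s1_ge
    gcongr
    norm_num
  have h4 := P.small_of h3
  have h5 : (3 * ((n / m : ℕ) : ℝ) / (pb0 k n : ℕ)) ^ (pb0 k n) ≤ (2 : ℝ) ^ (ps1 k n) := by
    calc (3 * ((n / m : ℕ) : ℝ) / (pb0 k n : ℕ)) ^ (pb0 k n)
        ≤ (6 * ((n / m : ℕ) : ℝ) / (pb0 k n : ℕ)) ^ (pb0 k n) := by gcongr; norm_num
      _ ≤ (2 : ℝ) ^ ((n : ℝ) / k ^ 6) := P.b0_pow
      _ ≤ (2 : ℝ) ^ ((ps1 k n : ℕ) : ℝ) := by
          apply Real.rpow_le_rpow_of_exponent_le (by norm_num)
          exact P.s1_ge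
      _ = (2 : ℝ) ^ (ps1 k n) := Real.rpow_natCast _ _
  have h6 : (3 * ((n / m : ℕ) : ℝ) / (pb0 k n : ℕ)) ^ (pb0 k n) * (2 * (1 / 4 : ℝ) ^ (ps1 k n)) ≤ 1 / (8 * n) := by
    calc (3 * ((n / m : ℕ) : ℝ) / (pb0 k n : ℕ)) ^ (pb0 k n) * (2 * (1 / 4 : ℝ) ^ (ps1 k n))
        ≤ (2 : ℝ) ^ (ps1 k n) * (2 * (1 / 4 : ℝ) ^ (ps1 k n)) := by gcongr
      _ = 2 * ((2 : ℝ) ^ (ps1 k n) * (1 / 4 : ℝ) ^ (ps1 k n)) := by ring
      _ = 2 * (1 / 2 : ℝ) ^ (ps1 k n) := by
          rw [← mul_pow]
          norm_num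
      _ ≤ _ := h4
  have h7 : (1 : ℝ) / (4 * n) = 1 / (8 * n) + 1 / (8 * n) := by field_simp; norm_num
  rw [h7]
  exact add_le_add h2 h6

theorem n7 : ∑ s ∈ Icc 1 (pi1 k n), ((3 * M / s : ℝ) * (3 * ((n / m : ℕ) : ℝ) / s) *
    (2 * (m + 1) * s / (2 * n)) ^ k) ^ s ≤ 1 / (2 * n) := by
  have hk := P.k0
  have hn := P.n0
  have hk1 := P.k1
  have hb := P.kbig
  have hmk := P.mlek
  have hm1 := P.m1
  have hN := P.N_le'
  have hM := P.hM
  have hkn := P.hk
  have hkA := P.hA
  have hterm : ∀ s ∈ Icc 1 (pi1 k n), ((3 * M / s : ℝ) * (3 * ((n / m : ℕ) : ℝ) / s) *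
      (2 * (m + 1) * s / (2 * n)) ^ k) ^ s ≤ 2 / n ^ 2 * (1 / 2 : ℝ) ^ s := by
    intro s hs
    rw [mem_Icc] at hs
    have hs1 : (1 : ℝ) ≤ s := by exact_mod_cast hs.1
    have hs0 : (0 : ℝ) < s := by linarith
    have hs2 : (s : ℝ) ≤ n / k ^ 5 := le_trans (by exact_mod_cast hs.2) P.i1_le
    set u : ℝ := s / n with hu
    have hu0 : 0 < u := by positivity
    have hu1 : u ≤ 1 / k ^ 5 := by
      rw [hu, div_le_iff₀ hn]
      calc (s : ℝ) ≤ n / k ^ 5 := hs2
        _ = 1 / k ^ 5 * n := by ring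
    have hk5 : (1 : ℝ) / k ^ 5 ≤ 1 := by
      rw [div_le_one (by positivity)]
      exact one_le_pow₀ hk1
    have hin : (3 * M / s : ℝ) * (3 * ((n / m : ℕ) : ℝ) / s) * (2 * (m + 1) * s / (2 * n)) ^ k ≤ u ^ 2 / 4 := by
      calc (3 * M / s : ℝ) * (3 * ((n / m : ℕ) : ℝ) / s) * (2 * (m + 1) * s / (2 * n)) ^ k
          ≤ (3 * (k ^ A * 2 ^ k * n) / s : ℝ) * (3 * n / s) * (2 * (k + k) * s / (2 * n)) ^ k := by gcongr
        _ = 9 * k ^ A * 2 ^ k / u ^ 2 * (2 * k * u) ^ k := by
            have e1 : 2 * ((k : ℝ) + k) * s / (2 * n) = 2 * k * u := by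
              rw [hu]; field_simp; ring
            rw [e1]
            have e2 : (3 * (k ^ A * 2 ^ k * n) / s : ℝ) * (3 * n / s) = 9 * k ^ A * 2 ^ k / u ^ 2 := by
              rw [hu]; field_simp; ring
            rw [e2]
        _ = 9 * k ^ A * 4 ^ k * k ^ k * u ^ 2 * u ^ (k - 4) := by
            have e3 : u ^ k = u ^ (k - 4) * u ^ 4 := by
              rw [← pow_add]; congr 1; omega
            have e4 : (4 : ℝ) ^ k = 2 ^ k * 2 ^ k := by rw [← mul_pow]; norm_num
            rw [mul_pow, mul_pow, e3, e4]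
            field_simp
        _ ≤ 9 * k ^ A * 4 ^ k * k ^ k * u ^ 2 * (1 / k ^ 5) ^ (k - 4) := by gcongr
        _ = u ^ 2 * (9 * k ^ (20 + A) * (4 ^ k * k ^ k * (1 / k ^ 5) ^ k)) := by
            have e3 : ((1 : ℝ) / k ^ 5) ^ k = (1 / k ^ 5) ^ (k - 4) * (1 / k ^ 5) ^ 4 := by
              rw [← pow_add]; congr 1; omega
            rw [e3, pow_add]
            field_simp
        _ = u ^ 2 * (9 * k ^ (20 + A) * (4 / k ^ 4) ^ k) := by
            rw [← mul_pow, ← mul_pow]
            congr 3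
            field_simp
        _ ≤ u ^ 2 * (9 * k ^ (20 + A) * (1 / k ^ 3) ^ (20 + A)) := by
            have e5 : (4 : ℝ) / k ^ 4 ≤ 1 / k ^ 3 := by
              rw [div_le_div_iff₀ (by positivity) (by positivity)]
              calc 4 * (k : ℝ) ^ 3 ≤ (k : ℝ) * (k : ℝ) ^ 3 := by
                    refine mul_le_mul_of_nonneg_right ?_ (by positivity)
                    linarith
                _ = 1 * (k : ℝ) ^ 4 := by ring
            have e6 : (1 : ℝ) / k ^ 3 ≤ 1 := by
              rw [div_le_one (by positivity)]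
              exact one_le_pow₀ hk1
            have e7 : (4 / (k : ℝ) ^ 4) ^ k ≤ (1 / k ^ 3) ^ (20 + A) := by
              calc (4 / (k : ℝ) ^ 4) ^ k ≤ (1 / (k : ℝ) ^ 3) ^ k := by gcongr
                _ ≤ (1 / (k : ℝ) ^ 3) ^ (20 + A) := pow_le_pow_of_le_one (by positivity) e6 (by omega)
            gcongr
        _ = u ^ 2 * (9 * (1 / k ^ 2) ^ (20 + A)) := by
            rw [mul_assoc, ← mul_pow]
            congr 3
            field_simp
        _ ≤ u ^ 2 * (1 / 4) := by
            refine mul_le_mul_of_nonneg_left ?_ (by positivity)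
            have e8 : (1 : ℝ) / k ^ 2 ≤ 1 / 36 := by
              apply one_div_le_one_div_of_le (by norm_num)
              calc (36 : ℝ) ≤ k := le_trans (by norm_num) hb
                _ = k ^ 1 := (pow_one _).symm
                _ ≤ (k : ℝ) ^ 2 := pow_le_pow_right₀ hk1 (by norm_num)
            have e9 : ((1 : ℝ) / k ^ 2) ^ (20 + A) ≤ 1 / k ^ 2 :=
              pow_le_of_le_one (by positivity) (e8.trans (by norm_num)) (by omega)
            linarith
        _ = u ^ 2 / 4 := by ring
    have hu2 : u ≤ 1 := hu1.trans hk5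
    have hnn : (0 : ℝ) ≤ (3 * M / s : ℝ) * (3 * ((n / m : ℕ) : ℝ) / s) * (2 * (m + 1) * s / (2 * n)) ^ k := by
      positivity
    calc ((3 * M / s : ℝ) * (3 * ((n / m : ℕ) : ℝ) / s) * (2 * (m + 1) * s / (2 * n)) ^ k) ^ s
        ≤ (u ^ 2 / 4) ^ s := by gcongr
      _ = (1 / 4) ^ s * u ^ (2 * s) := by
          rw [div_pow, ← pow_mul, one_div_pow]
          ring
      _ ≤ (1 / 4) ^ s * u ^ 2 := by
          gcongr ?_ * ?_
          exact pow_le_pow_of_le_one hu0.le hu2 (by omega)
      _ = (s : ℝ) ^ 2 * (1 / 4) ^ s / n ^ 2 := by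
          rw [hu]; field_simp
      _ ≤ (2 * 2 ^ s) * (1 / 4) ^ s / n ^ 2 := by
          have h := sq_le_two_pow s
          have h' : (s : ℝ) ^ 2 ≤ 2 * 2 ^ s := by exact_mod_cast h
          gcongr
      _ = 2 / n ^ 2 * (2 ^ s * (1 / 4) ^ s) := by ring
      _ = 2 / n ^ 2 * (1 / 2 : ℝ) ^ s := by
          rw [← mul_pow]; norm_num
  calc _ ≤ ∑ s ∈ Icc 1 (pi1 k n), 2 / (n : ℝ) ^ 2 * (1 / 2 : ℝ) ^ s := Finset.sum_le_sum hterm
    _ = 2 / (n : ℝ) ^ 2 * ∑ s ∈ Icc 1 (pi1 k n), (1 / 2 : ℝ) ^ s := by rw [Finset.mul_sum]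
    _ ≤ 2 / (n : ℝ) ^ 2 * (2 * (1 / 2 : ℝ) ^ 1) := by
        gcongr
        exact geom_tail (by norm_num) le_rfl _ _
    _ = 1 / (2 * n) * (4 / n) := by field_simp; norm_num
    _ ≤ 1 / (2 * n) * 1 := by
        have h1 := P.kpow (a := 0) (b := 0) (by norm_num)
        have h2 : (4 : ℝ) / n ≤ 1 := by
          rw [div_le_one hn]
          simp only [pow_zero, mul_one, div_one] at h1
          exact le_trans (by norm_num) h1
        gcongr
    _ = 1 / (2 * n) := mul_one _

end Par

end Pool.Agent.Lib.MP_51bb46_lc.RC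
end

section

set_option autoImplicit false
set_option linter.unusedSectionVars false

/-!
Random k-CNFs and short-line Frege: the deterministic core.
-/

namespace Pool.Agent.Lib.MP_51bb46_lc.RC

open Finset

variable {n N m M k : ℕ} {e : Fin n → Fin N × Fin (m + 1)} {a : Fin N → Fin (m + 1)}
  {x : Fin N × Fin (m + 1) → Bool} {F : Fin M × Fin k → Fin n × Bool}

/-- the clause `c` is satisfied by `σ` or by a true literal outside of the blocks `B` -/
def satC (e : Fin n → Fin N × Fin (m + 1)) (a : Fin N → Fin (m + 1)) (x : Fin N × Fin (m + 1) → Bool)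
    (F : Fin M × Fin k → Fin n × Bool) (B : Finset (Fin N)) (β : Fin N → Bool) (c : Fin M) : Prop :=
  ∃ j, (blkE e (F (c, j)) ∈ B ∧ (F (c, j)).2 = β (blkE e (F (c, j)))) ∨
    (blkE e (F (c, j)) ∉ B ∧ tyE e a x (F (c, j)) = some true)

/-- the survivor blocks of the clause `c` outside of `B` -/
def nbC (e : Fin n → Fin N × Fin (m + 1)) (a : Fin N → Fin (m + 1)) (x : Fin N × Fin (m + 1) → Bool)
    (F : Fin M × Fin k → Fin n × Bool) (B : Finset (Fin N)) (c : Fin M) : Finset (Fin N) :=
  ((univ.filter fun j => tyE e a x (F (c, j)) = none).image fun j => blkE e (F (c, j))) \ B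

open Classical in
/-- the sign of a survivor literal of `c` in the block `b` -/
noncomputable def sgC (e : Fin n → Fin N × Fin (m + 1)) (a : Fin N → Fin (m + 1)) (x : Fin N × Fin (m + 1) → Bool)
    (F : Fin M × Fin k → Fin n × Bool) (c : Fin M) (b : Fin N) : Bool :=
  if h : ∃ j, tyE e a x (F (c, j)) = none ∧ blkE e (F (c, j)) = b then (F (c, h.choose)).2 else true

/-- the partial assignment `β` on the blocks `B` -/
def sigB (B : Finset (Fin N)) (β : Fin N → Bool) (b : Fin N) : Option Bool := if b ∈ B then some (β b) else none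

theorem dom_sigB (B : Finset (Fin N)) (β : Fin N → Bool) : dom (sigB B β) = B := by
  ext b
  unfold dom sigB
  rw [mem_filter]
  by_cases hb : b ∈ B
  · simp [hb]
  · simp [hb]

/-- a satisfied constraint gives a satisfied clause -/
theorem holds_of_Cst (B : Finset (Fin N)) (β : Fin N → Bool) (c : Fin M) (y : Fin N → Bool)
    (h : Cst (satC e a x F B β) (nbC e a x F B) (sgC e a x F) c y) :
    Clause.holds (ptE e a x (sigB B β) y) (univ.image fun j => F (c, j)) := by
  rcases h with ⟨j, h⟩ | ⟨b, hb, hy⟩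
  · refine ⟨F (c, j), mem_image_of_mem _ (mem_univ j), ?_⟩
    rcases h with ⟨h1, h2⟩ | ⟨h1, h2⟩
    · unfold ptE sigB
      unfold blkE at h1 h2
      rw [if_pos h1, h2]
    · unfold ptE sigB
      unfold blkE at h1
      unfold tyE at h2
      rw [if_neg h1]
      by_cases ha : a (e (F (c, j)).1).1 = (e (F (c, j)).1).2
      · rw [if_pos ha] at h2
        exact absurd h2 (by simp)
      · rw [if_neg ha] at h2
        simp only [Option.some.injEq, beq_iff_eq] at h2
        simp only [if_neg ha]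
        exact h2
  · unfold nbC at hb
    rw [mem_sdiff, mem_image] at hb
    obtain ⟨⟨j, hj, hjb⟩, hbB⟩ := hb
    rw [mem_filter] at hj
    have hex : ∃ j, tyE e a x (F (c, j)) = none ∧ blkE e (F (c, j)) = b := ⟨j, hj.2, hjb⟩
    obtain ⟨i, h1, h2, hsg⟩ : ∃ i, tyE e a x (F (c, i)) = none ∧ blkE e (F (c, i)) = b ∧
        sgC e a x F c b = (F (c, i)).2 :=
      ⟨hex.choose, hex.choose_spec.1, hex.choose_spec.2, dif_pos hex⟩
    refine ⟨F (c, i), mem_image_of_mem _ (mem_univ _), ?_⟩
    unfold blkE at h2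
    unfold tyE at h1
    have ha : a (e (F (c, i)).1).1 = (e (F (c, i)).1).2 := by
      by_contra hne
      rw [if_neg hne] at h1
      exact absurd h1 (by simp)
    have hB : (e (F (c, i)).1).1 ∉ B := by rw [h2]; exact hbB
    unfold ptE sigB
    rw [if_neg hB]
    simp only [if_pos ha]
    rw [h2, hy, hsg]

end Pool.Agent.Lib.MP_51bb46_lc.RC
end

section

set_option autoImplicit false
set_option linter.unusedSectionVars false

/-!
Random k-CNFs and short-line Frege: the numbers of literals of each type.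
-/

namespace Pool.Agent.Lib.MP_51bb46_lc.RC

open Finset

variable {n N m : ℕ} {e : Fin n → Fin N × Fin (m + 1)} {a : Fin N → Fin (m + 1)} {x : Fin N × Fin (m + 1) → Bool}

/-- the survivor variables: one for each block -/
theorem card_surv (he : IsEmb e) (ha : ∀ b, (a b).val < m) : (univ.filter fun v => a (e v).1 = (e v).2).card = N := by
  have h : (univ.filter fun v => a (e v).1 = (e v).2).card = (univ : Finset (Fin N)).card := by
    refine Finset.card_bij (fun v _ => (e v).1) (fun _ _ => mem_univ _) ?_ ?_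
    · intro v hv w hw hvw
      have h1 := (mem_filter.1 hv).2
      have h2 := (mem_filter.1 hw).2
      refine he.inj (Prod.ext hvw ?_)
      rw [← h1, ← h2]
      exact congrArg a hvw
    · intro b _
      obtain ⟨v, hv⟩ := he.sur b (a b) (ha b)
      refine ⟨v, mem_filter.2 ⟨mem_univ _, ?_⟩, ?_⟩
      · rw [hv]
      · rw [hv]
  rw [h, Finset.card_univ, Fintype.card_fin]

theorem card_none (he : IsEmb e) (ha : ∀ b, (a b).val < m) : (univ.filter fun l => tyE e a x l = none).card = 2 * N := by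
  have h : (univ.filter fun l => tyE e a x l = none) =
      (univ.filter fun v => a (e v).1 = (e v).2) ×ˢ (univ : Finset Bool) := by
    ext ⟨v, s⟩
    simp only [mem_filter, mem_univ, true_and, mem_product, and_true]
    unfold tyE
    by_cases h : a (e v).1 = (e v).2
    · simp [h]
    · simp [h]
  rw [h, card_product, card_surv he ha, Finset.card_univ, Fintype.card_bool, mul_comm]

/-- for each variable which is not a survivor exactly one of the two literals is true -/
theorem card_some (he : IsEmb e) (ha : ∀ b, (a b).val < m) (c : Bool) :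
    (univ.filter fun l => tyE e a x l = some c).card + N = n := by
  have h : (univ.filter fun l => tyE e a x l = some c).card =
      (univ.filter fun v => ¬ (a (e v).1 = (e v).2)).card := by
    refine Finset.card_bij (fun l _ => l.1) ?_ ?_ ?_
    · rintro ⟨v, s⟩ hl
      have h1 := (mem_filter.1 hl).2
      refine mem_filter.2 ⟨mem_univ _, fun h2 => ?_⟩
      unfold tyE at h1
      simp only at h1 h2
      rw [if_pos h2] at h1
      cases h1
    · rintro ⟨v, s⟩ hl ⟨w, t⟩ hl' hvw
      simp only at hvw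
      subst hvw
      have h1 := (mem_filter.1 hl).2
      have h2 := (mem_filter.1 hl').2
      unfold tyE at h1 h2
      simp only at h1 h2
      by_cases h3 : a (e v).1 = (e v).2
      · rw [if_pos h3] at h1
        cases h1
      · rw [if_neg h3] at h1 h2
        have h4 : (x (e v) == s) = (x (e v) == t) := by
          rw [Option.some.inj h1, Option.some.inj h2]
        have h5 : s = t := by
          revert h4
          cases x (e v) <;> cases s <;> cases t <;> simp
        rw [h5]
    · intro v hv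
      have h3 := (mem_filter.1 hv).2
      refine ⟨(v, (x (e v) == c)), mem_filter.2 ⟨mem_univ _, ?_⟩, rfl⟩
      unfold tyE
      simp only
      rw [if_neg h3]
      cases x (e v) <;> cases c <;> rfl
  rw [h]
  have h2 := Finset.card_filter_add_card_filter_not (s := (univ : Finset (Fin n)))
    (fun v => a (e v).1 = (e v).2)
  rw [card_surv he ha, Finset.card_univ, Fintype.card_fin] at h2
  omega

theorem sum_wt (he : IsEmb e) (ha : ∀ b, (a b).val < m) (y z : ℝ) :
    ∑ l, wt y z (tyE e a x l) = 2 * N * z + (n - N) * (1 + y) := by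
  have h1 : ∀ l, wt y z (tyE e a x l) = (if tyE e a x l = none then z else 0) +
      ((if tyE e a x l = some true then y else 0) + (if tyE e a x l = some false then 1 else 0)) := by
    intro l
    cases h : tyE e a x l with
    | none => simp [wt]
    | some b => cases b <;> simp [wt]
  rw [Finset.sum_congr rfl fun l _ => h1 l, Finset.sum_add_distrib, Finset.sum_add_distrib,
    ← Finset.sum_filter, ← Finset.sum_filter, ← Finset.sum_filter, Finset.sum_const, Finset.sum_const,
    Finset.sum_const, card_none he ha]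
  have h2 : (((univ.filter fun l => tyE e a x l = some true).card : ℕ) : ℝ) = n - N := by
    have := card_some (x := x) he ha true
    rw [eq_sub_iff_add_eq]
    exact_mod_cast this
  have h3 : (((univ.filter fun l => tyE e a x l = some false).card : ℕ) : ℝ) = n - N := by
    have := card_some (x := x) he ha false
    rw [eq_sub_iff_add_eq]
    exact_mod_cast this
  rw [nsmul_eq_mul, nsmul_eq_mul, nsmul_eq_mul, h2, h3]
  push_cast
  ring

end Pool.Agent.Lib.MP_51bb46_lc.RC
end

section

set_option autoImplicit false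
set_option linter.unusedSectionVars false

/-!
Random k-CNFs and short-line Frege: the block structure.
-/

namespace Pool.Agent.Lib.MP_51bb46_lc.RC

open Finset

/-- `v ↦ (v / m, v % m)` for `v < m N`, `v ↦ (v - m N, m)` for the others (`n - m N < m ≤ N`). -/
theorem exists_emb {n m : ℕ} (hm : 1 ≤ m) (h : m ≤ n / m) : ∃ e : Fin n → Fin (n / m) × Fin (m + 1), IsEmb e := by
  have hm0 : 0 < m := hm
  have hdm : m * (n / m) + n % m = n := Nat.div_add_mod n m
  have hmod : n % m < m := Nat.mod_lt n hm0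
  let e : Fin n → Fin (n / m) × Fin (m + 1) := fun v =>
    if hv : v.val < m * (n / m) then
      (⟨v.val / m, Nat.div_lt_of_lt_mul hv⟩, ⟨v.val % m, lt_trans (Nat.mod_lt _ hm0) (Nat.lt_succ_self m)⟩)
    else (⟨v.val - m * (n / m), by have := v.isLt; omega⟩, ⟨m, Nat.lt_succ_self m⟩)
  have e1 : ∀ v : Fin n, v.val < m * (n / m) → (e v).1.val = v.val / m ∧ (e v).2.val = v.val % m := fun v hv => by
    simp only [e, dif_pos hv, and_self]
  have e2 : ∀ v : Fin n, ¬v.val < m * (n / m) → (e v).1.val = v.val - m * (n / m) ∧ (e v).2.val = m := fun v hv => by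
    simp only [e, dif_neg hv, and_self]
  refine ⟨e, ?_, ?_⟩
  · intro v w hvw
    apply Fin.ext
    have a1 : (e v).1.val = (e w).1.val := by rw [hvw]
    have a2 : (e v).2.val = (e w).2.val := by rw [hvw]
    by_cases hv : v.val < m * (n / m) <;> by_cases hw : w.val < m * (n / m)
    · rw [(e1 v hv).1, (e1 w hw).1] at a1
      rw [(e1 v hv).2, (e1 w hw).2] at a2
      rw [← Nat.div_add_mod v.val m, ← Nat.div_add_mod w.val m, a1, a2]
    · rw [(e1 v hv).2, (e2 w hw).2] at a2
      have := Nat.mod_lt v.val hm0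
      omega
    · rw [(e2 v hv).2, (e1 w hw).2] at a2
      have := Nat.mod_lt w.val hm0
      omega
    · rw [(e2 v hv).1, (e2 w hw).1] at a1
      omega
  · intro b i hi
    have hb := b.isLt
    have hlt : m * b.val + i.val < m * (n / m) := by
      calc m * b.val + i.val < m * b.val + m := by omega
        _ = m * (b.val + 1) := by ring
        _ ≤ m * (n / m) := Nat.mul_le_mul_left m hb
    have hn : m * b.val + i.val < n := by omega
    refine ⟨⟨m * b.val + i.val, hn⟩, Prod.ext (Fin.ext ?_) (Fin.ext ?_)⟩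
    · rw [(e1 ⟨m * b.val + i.val, hn⟩ hlt).1]
      simp only
      rw [Nat.mul_add_div hm0, Nat.div_eq_of_lt hi, add_zero]
    · rw [(e1 ⟨m * b.val + i.val, hn⟩ hlt).2]
      simp only
      rw [Nat.mul_add_mod, Nat.mod_eq_of_lt hi]

theorem Om_nonempty (N : ℕ) {m : ℕ} (hm : 1 ≤ m) : (Om N m).Nonempty := by
  refine ⟨(fun _ => 0, fun _ => true), ?_⟩
  simp only [Om, mem_product, Fintype.mem_piFinset, JJ, mem_filter, mem_univ, true_and, and_true]
  intro _
  exact hm

end Pool.Agent.Lib.MP_51bb46_lc.RC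
end

section

set_option autoImplicit false
set_option linter.unusedSectionVars false

/-!
Random k-CNFs and short-line Frege: random k-CNFs with many clauses are unsatisfiable.
-/

namespace Pool.Agent.Lib.MP_51bb46_lc.RC

open Finset

variable {n M k : ℕ}

/-- the literals falsified by `x` -/
theorem card_falsified (x : Fin n → Bool) : (univ.filter fun l : Fin n × Bool => x l.1 ≠ l.2).card = n := by
  have h : (univ.filter fun l : Fin n × Bool => x l.1 ≠ l.2) = univ.image fun v : Fin n => (v, !(x v)) := by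
    ext ⟨v, b⟩
    simp only [mem_filter, mem_univ, true_and, mem_image, Prod.mk.injEq]
    constructor
    · intro h
      refine ⟨v, rfl, ?_⟩
      cases hx : x v <;> cases b <;> simp_all
    · rintro ⟨w, rfl, rfl⟩
      simp
  rw [h, Finset.card_image_of_injective _ (fun v w hvw => (Prod.mk.injEq _ _ _ _ ▸ hvw).1), Finset.card_univ,
    Fintype.card_fin]

/-- the clauses satisfied by `x` -/
theorem card_clause (x : Fin n → Bool) :
    (univ.filter fun g : Fin k → Fin n × Bool => ∃ j, x (g j).1 = (g j).2).card = (2 * n) ^ k - n ^ k := by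
  have h1 : (univ.filter fun g : Fin k → Fin n × Bool => ∃ j, x (g j).1 = (g j).2) =
      (univ.filter fun g : Fin k → Fin n × Bool => ∀ j, x (g j).1 ≠ (g j).2)ᶜ := by
    ext g
    simp
  have h2 : (univ.filter fun g : Fin k → Fin n × Bool => ∀ j, x (g j).1 ≠ (g j).2) =
      Fintype.piFinset fun _ : Fin k => univ.filter fun l : Fin n × Bool => x l.1 ≠ l.2 := by
    ext g
    simp [Fintype.mem_piFinset]
  rw [h1, Finset.card_compl, h2, Fintype.card_piFinset]
  simp only [card_falsified, Finset.prod_const, Finset.card_univ, Fintype.card_fin, Fintype.card_fun,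
    Fintype.card_prod, Fintype.card_bool]
  rw [mul_comm n 2]

/-- the formulas satisfied by `x` -/
theorem card_formula (x : Fin n → Bool) :
    (univ.filter fun F : Fin M × Fin k → Fin n × Bool => ∀ c, ∃ j, x (F (c, j)).1 = (F (c, j)).2).card =
      ((2 * n) ^ k - n ^ k) ^ M := by
  have h1 : (univ.filter fun F : Fin M × Fin k → Fin n × Bool => ∀ c, ∃ j, x (F (c, j)).1 = (F (c, j)).2).card =
      (Fintype.piFinset fun _ : Fin M =>
        univ.filter fun g : Fin k → Fin n × Bool => ∃ j, x (g j).1 = (g j).2).card := by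
    apply Finset.card_bij (fun F _ => Function.curry F)
    · intro F hF
      rw [mem_filter] at hF
      rw [Fintype.mem_piFinset]
      intro c
      rw [mem_filter]
      exact ⟨mem_univ _, hF.2 c⟩
    · intro F _ G _ h
      exact Function.curry_injective h
    · intro G hG
      rw [Fintype.mem_piFinset] at hG
      refine ⟨Function.uncurry G, ?_, Function.curry_uncurry G⟩
      rw [mem_filter]
      refine ⟨mem_univ _, fun c => ?_⟩
      exact (mem_filter.mp (hG c)).2
  rw [h1, Fintype.card_piFinset]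
  simp only [card_clause, Finset.prod_const, Finset.card_univ, Fintype.card_fin]

theorem n_exp_le {n : ℕ} {δ : ℝ} (hδ : 0 < δ) (hn : 2 ≤ δ ^ 2 * n) : (n : ℝ) * Real.exp (-(δ * n)) ≤ 1 := by
  have hn0 : (0 : ℝ) ≤ n := Nat.cast_nonneg n
  have h1 := Real.quadratic_le_exp_of_nonneg (show 0 ≤ δ * n by positivity)
  have h2 : (n : ℝ) ≤ Real.exp (δ * n) := by
    have h3 : (n : ℝ) * 2 ≤ n * (δ ^ 2 * n) := by gcongr
    nlinarith
  rw [Real.exp_neg, ← div_eq_mul_inv, div_le_one (Real.exp_pos _)]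
  exact h2

open Classical in
/-- most formulas with at least `(1 + ε) ln 2 2 ^ k n` clauses are unsatisfiable -/
theorem unsat_count {ε : ℝ} (hε : 0 < ε) (hn : 2 ≤ (ε * Real.log 2) ^ 2 * n)
    (hM : (1 + ε) * Real.log 2 * 2 ^ k * n ≤ M) :
    n * (univ.filter fun F : Fin M × Fin k → Fin n × Bool => ¬ Unsat (cnf F)).card ≤
      Fintype.card (Fin M × Fin k → Fin n × Bool) := by
  have hl2 : 0 < Real.log 2 := Real.log_pos (by norm_num)
  have hn0 : (0 : ℝ) < n := by
    by_contra h
    have h2 : (n : ℝ) = 0 := le_antisymm (not_lt.mp h) (Nat.cast_nonneg n)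
    rw [h2] at hn
    linarith
  have h1 : (univ.filter fun F : Fin M × Fin k → Fin n × Bool => ¬ Unsat (cnf F)) ⊆
      (univ : Finset (Fin n → Bool)).biUnion fun x =>
        univ.filter fun F : Fin M × Fin k → Fin n × Bool => ∀ c, ∃ j, x (F (c, j)).1 = (F (c, j)).2 := by
    intro F hF
    rw [mem_filter] at hF
    have h2 := hF.2
    unfold Unsat at h2
    push Not at h2
    obtain ⟨x, hx⟩ := h2
    rw [mem_biUnion]
    refine ⟨x, mem_univ _, ?_⟩
    rw [mem_filter]
    refine ⟨mem_univ _, fun c => ?_⟩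
    obtain ⟨l, hl, hl2⟩ := hx (univ.image fun j => F (c, j)) (mem_image_of_mem _ (mem_univ c))
    obtain ⟨j, _, rfl⟩ := mem_image.mp hl
    exact ⟨j, hl2⟩
  have h2 : (univ.filter fun F : Fin M × Fin k → Fin n × Bool => ¬ Unsat (cnf F)).card ≤
      2 ^ n * ((2 * n) ^ k - n ^ k) ^ M := by
    refine (Finset.card_le_card h1).trans (Finset.card_biUnion_le.trans ?_)
    simp only [card_formula, Finset.sum_const, smul_eq_mul, Finset.card_univ, Fintype.card_fun, Fintype.card_fin,
      Fintype.card_bool]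
    exact le_rfl
  have h3 : Fintype.card (Fin M × Fin k → Fin n × Bool) = ((2 * n) ^ k) ^ M := by
    rw [Fintype.card_fun]
    have h : Fintype.card (Fin M × Fin k) = k * M := by simp [mul_comm]
    have h' : Fintype.card (Fin n × Bool) = 2 * n := by simp [mul_comm]
    rw [h, h', pow_mul]
  rw [h3]
  have h4 : (n : ℝ) * (2 ^ n * (((2 * n) ^ k - n ^ k : ℕ) : ℝ) ^ M) ≤ ((2 * n) ^ k) ^ M := by
    have h5 : (((2 * n) ^ k - n ^ k : ℕ) : ℝ) = (2 * n) ^ k * (1 - 1 / 2 ^ k) := by
      rw [Nat.cast_sub (Nat.pow_le_pow_left (show n ≤ 2 * n by omega) k)]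
      push_cast
      rw [mul_pow]
      field_simp
    have h6 : (0 : ℝ) ≤ 1 - 1 / 2 ^ k := by
      rw [sub_nonneg, div_le_one (by positivity)]
      exact one_le_pow₀ (by norm_num)
    have h7 : (1 - 1 / (2 : ℝ) ^ k) ^ M ≤ Real.exp (-((1 + ε) * Real.log 2 * n)) := by
      calc (1 - 1 / (2 : ℝ) ^ k) ^ M ≤ (Real.exp (-(1 / 2 ^ k))) ^ M := by
            gcongr
            have := Real.add_one_le_exp (-(1 / (2 : ℝ) ^ k))
            linarith
        _ = Real.exp (-(M / 2 ^ k)) := by
            rw [← Real.exp_nat_mul]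
            congr 1
            ring
        _ ≤ Real.exp (-((1 + ε) * Real.log 2 * n)) := by
            apply Real.exp_le_exp.mpr
            have h9 : (1 + ε) * Real.log 2 * n ≤ M / 2 ^ k := by
              rw [le_div_iff₀ (by positivity)]
              linarith
            linarith
    have h8 : (2 : ℝ) ^ n * Real.exp (-((1 + ε) * Real.log 2 * n)) = Real.exp (-(ε * Real.log 2 * n)) := by
      have h9 : (2 : ℝ) ^ n = Real.exp (Real.log 2 * n) := by
        rw [← Real.rpow_natCast, Real.rpow_def_of_pos (by norm_num)]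
      rw [h9, ← Real.exp_add]
      congr 1
      ring
    have h9 := n_exp_le (n := n) (show 0 < ε * Real.log 2 by positivity) hn
    calc (n : ℝ) * (2 ^ n * (((2 * n) ^ k - n ^ k : ℕ) : ℝ) ^ M)
        = ((2 * n) ^ k) ^ M * (n * (2 ^ n * (1 - 1 / 2 ^ k) ^ M)) := by
          rw [h5, mul_pow]; ring
      _ ≤ ((2 * n) ^ k) ^ M * (n * (2 ^ n * Real.exp (-((1 + ε) * Real.log 2 * n)))) := by gcongr
      _ = ((2 * n) ^ k) ^ M * (n * Real.exp (-(ε * Real.log 2 * n))) := by rw [h8]
      _ ≤ ((2 * n) ^ k) ^ M * 1 := by gcongr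
      _ = ((2 * n) ^ k) ^ M := mul_one _
  have h5 : n * (2 ^ n * ((2 * n) ^ k - n ^ k) ^ M) ≤ ((2 * n) ^ k) ^ M := by exact_mod_cast h4
  exact (Nat.mul_le_mul_left n h2).trans h5

end Pool.Agent.Lib.MP_51bb46_lc.RC
end

section

set_option autoImplicit false
set_option linter.unusedSectionVars false

/-!
Random k-CNFs and short-line Frege: the weight of a set of positions.
-/

namespace Pool.Agent.Lib.MP_51bb46_lc.RC

open Finset

variable {N : ℕ} {Λ P : Type} {y z : ℝ} {ty : Λ → Option Bool} {blk : Λ → Fin N}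

theorem wt_ge (hyz : y ≤ z) (hz : z ≤ 1) (o : Option Bool) : y ≤ wt y z o := by
  rcases o with _ | _ | _
  · exact hyz
  · exact hyz.trans hz
  · exact le_rfl

theorem wt_le (hyz : y ≤ z) (hz : z ≤ 1) (o : Option Bool) : wt y z o ≤ 1 := by
  rcases o with _ | _ | _
  · exact hz
  · exact le_rfl
  · exact hyz.trans hz

theorem Wt_pos (hy : 0 < y) (hyz : y ≤ z) (hz : z ≤ 1) (f : P → Λ) (Q : Finset P) : 0 < Wt y z ty blk f Q := by
  unfold Wt
  refine mul_pos (Finset.prod_pos fun p _ => hy.trans_le (wt_ge hyz hz _)) ?_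
  positivity

/-- One more position. If `b = blk (f p)` occurs in the image `T` of `Q` then
`card (insert p Q) - card (insert b T) = (card Q - card T) + 1` because `card T ≤ card Q` (`Finset.card_image_le`);
otherwise the difference does not change. -/
theorem Wt_insert [DecidableEq P] {f : P → Λ} {Q : Finset P} {p : P} (hp : p ∉ Q) :
    Wt y z ty blk f (insert p Q) = Wt y z ty blk f Q *
      (wt y z (ty (f p)) * (if blk (f p) ∈ Q.image (fun p => blk (f p)) then 1 / y else 1)) := by
  unfold Wt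
  rw [Finset.prod_insert hp, Finset.card_insert_of_notMem hp, Finset.image_insert]
  have h1 : (Q.image fun p => blk (f p)).card ≤ Q.card := Finset.card_image_le
  split_ifs with h
  · rw [Finset.insert_eq_of_mem h]
    have h2 : Q.card + 1 - (Q.image fun p => blk (f p)).card =
        (Q.card - (Q.image fun p => blk (f p)).card) + 1 := by omega
    rw [h2, pow_succ]
    ring
  · rw [Finset.card_insert_of_notMem h]
    have h2 : Q.card + 1 - ((Q.image fun p => blk (f p)).card + 1) =
        Q.card - (Q.image fun p => blk (f p)).card := by omega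
    rw [h2]
    ring

/-- **The step.** If the true literals at the positions `Q'` lie in blocks of `Q` then the weight decreases at most by the
factor `z` for each new survivor block. Proof: induction on `Q'`; for a new position `p` (if `p ∉ Q`, else nothing changes)
use `Wt_insert` for `insert p (Q ∪ Q')`: if the block of `p` occurs already, the factor is `wt / y ≥ 1`; if not, `f p` is not
true (its block would lie in the image of `Q`), a false literal has the factor `1`, and for a survivor the factor is `z`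
and the set of new survivor blocks gets one more element. -/
theorem Wt_step [DecidableEq P] (hy : 0 < y) (hyz : y ≤ z) (hz : z ≤ 1) (f : P → Λ) (Q Q' : Finset P)
    (h : ∀ p ∈ Q', ty (f p) = some true → blk (f p) ∈ Q.image fun p => blk (f p)) :
    z ^ (((Q'.filter fun p => ty (f p) = none).image fun p => blk (f p)) \ (Q.image fun p => blk (f p))).card *
      Wt y z ty blk f Q ≤ Wt y z ty blk f (Q ∪ Q') := by
  have hz0 : 0 < z := hy.trans_le hyz
  induction Q' using Finset.induction_on with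
  | empty => simp
  | insert p Q' hp ih =>
    have hih := ih fun q hq => h q (Finset.mem_insert_of_mem hq)
    have hQ : 0 < Wt y z ty blk f Q := Wt_pos hy hyz hz f Q
    have hQ' : 0 < Wt y z ty blk f (Q ∪ Q') := Wt_pos hy hyz hz f _
    have hsub : (((Q'.filter fun p => ty (f p) = none).image fun p => blk (f p)) \ (Q.image fun p => blk (f p))) ⊆
        ((((insert p Q').filter fun p => ty (f p) = none).image fun p => blk (f p)) \
          (Q.image fun p => blk (f p))) :=
      Finset.sdiff_subset_sdiff (Finset.image_subset_image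
        (Finset.filter_subset_filter _ (Finset.subset_insert p Q'))) (Finset.Subset.refl _)
    have hmono : z ^ ((((insert p Q').filter fun p => ty (f p) = none).image fun p => blk (f p)) \
        (Q.image fun p => blk (f p))).card * Wt y z ty blk f Q ≤ Wt y z ty blk f (Q ∪ Q') :=
      (mul_le_mul_of_nonneg_right (pow_le_pow_of_le_one hz0.le hz (Finset.card_le_card hsub)) hQ.le).trans hih
    rw [Finset.union_insert]
    by_cases hpQ : p ∈ Q ∪ Q'
    · rw [Finset.insert_eq_of_mem hpQ]
      exact hmono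
    · rw [Wt_insert hpQ]
      by_cases hb : blk (f p) ∈ (Q ∪ Q').image fun p => blk (f p)
      · rw [if_pos hb]
        refine hmono.trans (le_mul_of_one_le_right hQ'.le ?_)
        rw [mul_one_div, one_le_div hy]
        exact wt_ge hyz hz _
      · rw [if_neg hb, mul_one]
        have hbQ : blk (f p) ∉ Q.image fun p => blk (f p) := fun h1 =>
          hb (Finset.image_subset_image Finset.subset_union_left h1)
        have hbQ' : blk (f p) ∉ Q'.image fun p => blk (f p) := fun h1 =>
          hb (Finset.image_subset_image Finset.subset_union_right h1)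
        rcases ht : ty (f p) with _ | _ | _
        · have hcard : (((Q'.filter fun p => ty (f p) = none).image fun p => blk (f p)) \
              (Q.image fun p => blk (f p))).card + 1 ≤
              ((((insert p Q').filter fun p => ty (f p) = none).image fun p => blk (f p)) \
              (Q.image fun p => blk (f p))).card := by
            refine Nat.succ_le_of_lt (Finset.card_lt_card ((Finset.ssubset_iff_of_subset hsub).mpr
              ⟨blk (f p), ?_, ?_⟩))
            · rw [Finset.mem_sdiff]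
              refine ⟨Finset.mem_image.mpr ⟨p, ?_, rfl⟩, hbQ⟩
              exact Finset.mem_filter.mpr ⟨Finset.mem_insert_self p Q', ht⟩
            · intro h1
              exact hbQ' (Finset.image_subset_image (Finset.filter_subset _ _) (Finset.mem_sdiff.mp h1).1)
          have h1 : z ^ ((((insert p Q').filter fun p => ty (f p) = none).image fun p => blk (f p)) \
              (Q.image fun p => blk (f p))).card ≤ z ^ (((Q'.filter fun p => ty (f p) = none).image
              fun p => blk (f p)) \ (Q.image fun p => blk (f p))).card * z := by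
            rw [← pow_succ]
            exact pow_le_pow_of_le_one hz0.le hz hcard
          refine (mul_le_mul_of_nonneg_right h1 hQ.le).trans ?_
          show _ ≤ Wt y z ty blk f (Q ∪ Q') * z
          calc _ = (z ^ (((Q'.filter fun p => ty (f p) = none).image
              fun p => blk (f p)) \ (Q.image fun p => blk (f p))).card * Wt y z ty blk f Q) * z := by ring
            _ ≤ _ := mul_le_mul_of_nonneg_right hih hz0.le
        · refine hmono.trans (le_of_eq ?_)
          show _ = Wt y z ty blk f (Q ∪ Q') * 1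
          rw [mul_one]
        · exact absurd (h p (Finset.mem_insert_self p Q') ht) hbQ

end Pool.Agent.Lib.MP_51bb46_lc.RC
end

section

set_option autoImplicit false
set_option linter.unusedSectionVars false

/-!
Random k-CNFs and short-line Frege: double counting.
-/

namespace Pool.Agent.Lib.MP_51bb46_lc.RC

open Finset

/-- **Fubini and Markov**: if for each `ω` at most a `δ` fraction of the `F` is bad then for all but a `2 δ` fraction of the
`F` less than half of the `ω` are bad. Proof: double counting of the bad pairs. -/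
theorem fubini {X Ω : Type} (A : Finset X) (O : Finset Ω) (bad : X → Ω → Prop) [∀ F ω, Decidable (bad F ω)] {δ : ℝ}
    (hO : O.Nonempty) (h : ∀ ω ∈ O, ((A.filter fun F => bad F ω).card : ℝ) ≤ δ * A.card) :
    ((A.filter fun F => O.card ≤ 2 * (O.filter fun ω => bad F ω).card).card : ℝ) ≤ 2 * δ * A.card := by
  have hO0 : (0:ℝ) < O.card := by exact_mod_cast hO.card_pos
  have e1 : (A.filter fun F => O.card ≤ 2 * (O.filter fun ω => bad F ω).card).card * O.card ≤
      2 * ∑ F ∈ A, (O.filter fun ω => bad F ω).card := by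
    calc (A.filter fun F => O.card ≤ 2 * (O.filter fun ω => bad F ω).card).card * O.card
        = ∑ F ∈ A.filter (fun F => O.card ≤ 2 * (O.filter fun ω => bad F ω).card), O.card := by
          rw [sum_const, smul_eq_mul]
      _ ≤ ∑ F ∈ A.filter (fun F => O.card ≤ 2 * (O.filter fun ω => bad F ω).card),
          2 * (O.filter fun ω => bad F ω).card := sum_le_sum fun F hF => (mem_filter.1 hF).2
      _ ≤ ∑ F ∈ A, 2 * (O.filter fun ω => bad F ω).card :=
          sum_le_sum_of_subset (filter_subset _ _)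
      _ = _ := by rw [mul_sum]
  have e2 : ∑ F ∈ A, (O.filter fun ω => bad F ω).card = ∑ ω ∈ O, (A.filter fun F => bad F ω).card := by
    simp only [card_filter]
    exact sum_comm
  have e3 : ((∑ ω ∈ O, (A.filter fun F => bad F ω).card : ℕ) : ℝ) ≤ O.card * (δ * A.card) := by
    rw [Nat.cast_sum]
    refine (sum_le_sum h).trans ?_
    rw [sum_const, nsmul_eq_mul]
  have e4 : (((A.filter fun F => O.card ≤ 2 * (O.filter fun ω => bad F ω).card).card : ℕ) : ℝ) *
      O.card ≤ 2 * δ * A.card * O.card := by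
    have h1 : (((A.filter fun F => O.card ≤ 2 * (O.filter fun ω => bad F ω).card).card : ℕ) : ℝ) *
        O.card ≤ 2 * ((∑ F ∈ A, (O.filter fun ω => bad F ω).card : ℕ) : ℝ) := by exact_mod_cast e1
    rw [e2] at h1
    refine h1.trans ?_
    refine (mul_le_mul_of_nonneg_left e3 (by norm_num)).trans (le_of_eq ?_)
    ring
  exact le_of_mul_le_mul_right e4 hO0

end Pool.Agent.Lib.MP_51bb46_lc.RC
end
end

section

section

set_option autoImplicit false
set_option linter.unusedSectionVars false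

/-!
Random k-CNFs and short-line Frege: existence of the parameters.
-/

namespace Pool.Agent.Lib.MP_51bb46_lc.RC

open Finset

/-- the number of variables of a block -/
noncomputable def pm (ε : ℝ) (k : ℕ) : ℕ := ⌈(k : ℝ) ^ (1 - ε)⌉₊

theorem pm_ge (ε : ℝ) (k : ℕ) : (k : ℝ) ^ (1 - ε) ≤ pm ε k := Nat.le_ceil _

theorem pm_le {ε : ℝ} (h0 : 0 < ε) (h1 : ε ≤ 1 / 2) {k : ℕ} (hk : 1 ≤ k) : (pm ε k : ℝ) ≤ 2 * (k : ℝ) ^ (1 - ε) := by
  have hk1 : (1 : ℝ) ≤ k := by exact_mod_cast hk
  have h2 : (1 : ℝ) ≤ (k : ℝ) ^ (1 - ε) := Real.one_le_rpow hk1 (by linarith)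
  have h3 := Nat.ceil_lt_add_one (show 0 ≤ (k : ℝ) ^ (1 - ε) by positivity)
  unfold pm
  linarith

theorem pm_pos {ε : ℝ} {k : ℕ} (hk : 1 ≤ k) : 1 ≤ pm ε k := by
  have hk1 : (0 : ℝ) < k := by exact_mod_cast hk
  unfold pm
  rw [Nat.one_le_ceil_iff]
  positivity

theorem pm_lek {ε : ℝ} (h0 : 0 < ε) {k : ℕ} (hk : 1 ≤ k) : pm ε k ≤ k := by
  have hk1 : (1 : ℝ) ≤ k := by exact_mod_cast hk
  unfold pm
  rw [Nat.ceil_le]
  calc (k : ℝ) ^ (1 - ε) ≤ (k : ℝ) ^ (1 : ℝ) := Real.rpow_le_rpow_of_exponent_le hk1 (by linarith)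
    _ = k := Real.rpow_one _

theorem exists_par {ε : ℝ} (h0 : 0 < ε) (h1 : ε ≤ 1 / 2) {A k n M : ℕ} (hk : 2 ^ 20 + A ≤ k)
    (h40 : k ^ 40 ≤ 2 ^ k) (hexp : 10 ^ 10 * (k : ℝ) ^ (30 + A) ≤ Real.exp ((k : ℝ) ^ ε / 8)) (hn : k ^ 10 ≤ n)
    (hM : M ≤ k ^ A * 2 ^ k * n) : ∃ E : ℝ, Par A k n M (pm ε k) E := by
  have hk1' : 1 ≤ k := by omega
  have hk1 : (1 : ℝ) ≤ k := by exact_mod_cast hk1'
  have hk0 : (0 : ℝ) < k := by linarith
  have hm1 := pm_pos (ε := ε) hk1'
  have hmk := pm_lek h0 hk1'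
  have hmle := pm_le h0 h1 hk1'
  set m := pm ε k with hm
  have hm0 : (0 : ℝ) < m := by exact_mod_cast hm1
  have hn0' : 0 < n := lt_of_lt_of_le (by positivity) hn
  have hn0 : (0 : ℝ) < n := by exact_mod_cast hn0'
  have h2mn : 2 * m ≤ n := by
    calc 2 * m ≤ k * k := Nat.mul_le_mul (by omega) hmk
      _ = k ^ 2 := by ring
      _ ≤ k ^ 10 := Nat.pow_le_pow_right hk1' (by norm_num)
      _ ≤ n := hn
  have hN : (n : ℝ) / (2 * m) ≤ ((n / m : ℕ) : ℝ) := by
    have h2 := div_gt (a := n) (b := m) (by omega)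
    have h2' : 2 * (m : ℝ) ≤ n := by exact_mod_cast h2mn
    have h3 : (1 : ℝ) ≤ n / (2 * m) := by
      rw [le_div_iff₀ (by positivity)]
      linarith
    have h4 : (n : ℝ) / m = n / (2 * m) + n / (2 * m) := by field_simp; ring
    linarith
  set N : ℝ := ((n / m : ℕ) : ℝ) with hNdef
  refine ⟨1 / 2 * Real.exp (-(N / (2 * n))), hk, h40, hn, hm1, hmk, by exact_mod_cast hM, by positivity, ?_, ?_⟩
  · have h2 : (k : ℝ) ^ ε / 8 ≤ k * (N / (2 * n)) := by
      have h3 : (k : ℝ) / (4 * m) ≤ k * (N / (2 * n)) := by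
        calc (k : ℝ) / (4 * m) = k * ((n / (2 * m)) / (2 * n)) := by field_simp; norm_num
          _ ≤ k * (N / (2 * n)) := by gcongr
      refine le_trans ?_ h3
      calc (k : ℝ) ^ ε / 8 = k / (4 * (2 * (k : ℝ) ^ (1 - ε))) := by
            have h4 : (k : ℝ) = (k : ℝ) ^ ε * (k : ℝ) ^ (1 - ε) := by
              rw [← Real.rpow_add hk0]
              simp
            have h5 : (0 : ℝ) < (k : ℝ) ^ (1 - ε) := by positivity
            rw [div_eq_div_iff (by norm_num) (by positivity)]
            calc (k : ℝ) ^ ε * (4 * (2 * (k : ℝ) ^ (1 - ε))) = ((k : ℝ) ^ ε * (k : ℝ) ^ (1 - ε)) * 8 := by ring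
              _ = k * 8 := by rw [← h4]
        _ ≤ k / (4 * m) := by gcongr
    have h3 : (1 / 2 * Real.exp (-(N / (2 * n)))) ^ k = (1 / 2) ^ k * Real.exp (-(k * (N / (2 * n)))) := by
      rw [mul_pow, ← Real.exp_nat_mul]
      congr 2
      ring
    rw [h3]
    have h4 : Real.exp (-(k * (N / (2 * n)))) ≤ Real.exp (-((k : ℝ) ^ ε / 8)) := Real.exp_le_exp.mpr (by linarith)
    calc 2 ^ k * 10 ^ 10 * (k : ℝ) ^ (30 + A) * ((1 / 2) ^ k * Real.exp (-(k * (N / (2 * n)))))
        = (2 ^ k * (1 / 2) ^ k) * ((10 ^ 10 * (k : ℝ) ^ (30 + A)) * Real.exp (-(k * (N / (2 * n))))) := by ring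
      _ = (10 ^ 10 * (k : ℝ) ^ (30 + A)) * Real.exp (-(k * (N / (2 * n)))) := by
          rw [← mul_pow]; norm_num
      _ ≤ Real.exp ((k : ℝ) ^ ε / 8) * Real.exp (-((k : ℝ) ^ ε / 8)) := by gcongr
      _ = 1 := by rw [← Real.exp_add]; simp
  · have h2 := Real.add_one_le_exp (-(N / (2 * n)))
    calc (n : ℝ) - N / 2 = (-(N / (2 * n)) + 1) * n := by field_simp; ring
      _ ≤ Real.exp (-(N / (2 * n))) * n := by gcongr
      _ = 1 / 2 * Real.exp (-(N / (2 * n))) * (2 * n) := by ring

end Pool.Agent.Lib.MP_51bb46_lc.RC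
end

section

set_option autoImplicit false
set_option linter.unusedSectionVars false

/-!
Random k-CNFs and short-line Frege: the union bound over lines and partial assignments.
-/

namespace Pool.Agent.Lib.MP_51bb46_lc.RC

open Finset

theorem n8 {ε : ℝ} (h0 : 0 < ε) (h1 : ε ≤ 1 / 2) {K c : ℝ} (hK : 0 < K) (hc0 : 0 < c) (hc : c ≤ 1 / 1024)
    (hKc : K * c ≤ Real.log 2 / 1024) {A k n M : ℕ} {E : ℝ} (P : Par A k n M (pm ε k) E) {r t ℓ : ℕ}
    (hT : (r + 1) * (t + 1) ≤ k)
    (hℓ : (ℓ : ℝ) < 2 ^ (c * (n / ((k : ℝ) ^ (1 - ε) * ((r + 1) * (t + 1)))))) :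
    (ℓ : ℝ) * (6 * ((n / pm ε k : ℕ) : ℝ) / (pb0 k n : ℕ)) ^ (pb0 k n) *
      ((1 / 2) ^ (pq n (pm ε k) / (r * (t + 1) + 1)) *
        Real.exp (K * (pm ε k : ℝ) ^ (-(3 / 2 - ε / 2)) *
          (c * (k : ℝ) ^ (1 / 2 - ε) * (n / ((r + 1) * (t + 1)))))) ≤ 1 / 2 := by
  have hk := P.k0
  have hn := P.n0
  have hk1 := P.k1
  have hb := P.kbig
  have hk1' : 1 ≤ k := by exact_mod_cast hk1
  set m := pm ε k with hm
  have hm0 := P.m0
  have hmge : (k : ℝ) ^ (1 - ε) ≤ m := pm_ge ε k
  have hmle : (m : ℝ) ≤ 2 * (k : ℝ) ^ (1 - ε) := pm_le h0 h1 hk1'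
  set κ : ℝ := (k : ℝ) ^ (1 - ε) with hκ
  have hκ0 : 0 < κ := by positivity
  have hκk : κ ≤ k := by
    calc κ ≤ (k : ℝ) ^ (1 : ℝ) := Real.rpow_le_rpow_of_exponent_le hk1 (by linarith)
      _ = k := Real.rpow_one _
  set T : ℝ := ((r : ℝ) + 1) * (t + 1) with hTdef
  have hT1 : 1 ≤ T := by
    rw [hTdef]
    have h2 : (0 : ℝ) ≤ r := Nat.cast_nonneg _
    have h3 : (0 : ℝ) ≤ t := Nat.cast_nonneg _
    nlinarith
  have hT0 : 0 < T := by linarith
  have hTk : T ≤ k := by rw [hTdef]; exact_mod_cast hT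
  set X : ℝ := n / (κ * T) with hX
  have hX2 : (n : ℝ) / k ^ 2 ≤ X := by
    rw [hX]
    apply div_le_div_of_nonneg_left hn.le (by positivity)
    calc κ * T ≤ k * k := by gcongr
      _ = (k : ℝ) ^ 2 := by ring
  have hXbig : (2 : ℝ) ^ 20 ≤ X := by
    have h := P.kpow (a := 0) (b := 2) (by norm_num)
    rw [pow_zero, mul_one] at h
    exact h.trans hX2
  have hX0 : 0 < X := lt_of_lt_of_le (by norm_num) hXbig
  -- the depth
  set D : ℕ := r * (t + 1) + 1 with hD
  have hD0 : 0 < D := by omega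
  have hDT : (D : ℝ) ≤ T := by
    rw [hD, hTdef]
    push_cast
    have h3 : (0 : ℝ) ≤ t := Nat.cast_nonneg _
    nlinarith
  have hD0' : (0 : ℝ) < D := by exact_mod_cast hD0
  set d : ℕ := pq n m / D with hd
  have hdX : X / 256 ≤ d := by
    have h2 := div_gt (a := pq n m) (b := D) hD0
    have h3 := P.q_gt
    have h4 : (n : ℝ) / (128 * κ) ≤ n / (64 * m) := by
      apply div_le_div_of_nonneg_left hn.le (by positivity)
      linarith
    have h5 : (0 : ℝ) ≤ n / (128 * κ) - 1 ∨ n / (128 * κ) - 1 < 0 := le_or_gt _ _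
    have h6 : (n : ℝ) / (128 * κ) - 1 ≤ pq n m := by linarith
    have h7 : (pq n m : ℝ) / T ≤ pq n m / D := by
      apply div_le_div_of_nonneg_left (Nat.cast_nonneg _) hD0' hDT
    have h8 : ((n : ℝ) / (128 * κ) - 1) / T ≤ pq n m / T := by gcongr
    have h9 : ((n : ℝ) / (128 * κ) - 1) / T = X / 128 - 1 / T := by
      rw [hX]; field_simp
    have h10 : 1 / T ≤ 1 := by rw [div_le_one hT0]; exact hT1
    linarith
  -- the exponent
  have hexp : K * (m : ℝ) ^ (-(3 / 2 - ε / 2)) * (c * (k : ℝ) ^ (1 / 2 - ε) * (n / T)) ≤ Real.log 2 * (X / 1024) := by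
    have h2 : (m : ℝ) ^ (-(3 / 2 - ε / 2)) ≤ κ ^ (-(3 / 2 - ε / 2)) :=
      Real.rpow_le_rpow_of_nonpos hκ0 hmge (by linarith)
    have h3 : κ ^ (-(3 / 2 - ε / 2)) * (k : ℝ) ^ (1 / 2 - ε) ≤ 1 / κ := by
      have h4 : (1 : ℝ) / κ = (k : ℝ) ^ (-(1 - ε)) := by
        rw [hκ, Real.rpow_neg hk.le, one_div]
      rw [h4, hκ, ← Real.rpow_mul hk.le, ← Real.rpow_add hk]
      apply Real.rpow_le_rpow_of_exponent_le hk1
      nlinarith [sq_nonneg ε]
    calc K * (m : ℝ) ^ (-(3 / 2 - ε / 2)) * (c * (k : ℝ) ^ (1 / 2 - ε) * (n / T))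
        ≤ K * κ ^ (-(3 / 2 - ε / 2)) * (c * (k : ℝ) ^ (1 / 2 - ε) * (n / T)) := by gcongr
      _ = K * c * (n / T) * (κ ^ (-(3 / 2 - ε / 2)) * (k : ℝ) ^ (1 / 2 - ε)) := by ring
      _ ≤ K * c * (n / T) * (1 / κ) := by gcongr
      _ = (K * c) * X := by rw [hX]; field_simp
      _ ≤ (Real.log 2 / 1024) * X := by gcongr
      _ = _ := by ring
  have hn6 : (n : ℝ) / k ^ 6 ≤ X / 1024 := by
    have h2 : (n : ℝ) / k ^ 6 = n / k ^ 2 * (1 / k ^ 4) := by field_simp
    rw [h2]
    calc (n : ℝ) / k ^ 2 * (1 / k ^ 4) ≤ X * (1 / 1024) := by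
          gcongr
          calc (1024 : ℝ) ≤ k := le_trans (by norm_num) hb
            _ = (k : ℝ) ^ 1 := (pow_one _).symm
            _ ≤ (k : ℝ) ^ 4 := pow_le_pow_right₀ hk1 (by norm_num)
      _ = X / 1024 := by ring
  have e1 : (ℓ : ℝ) ≤ 2 ^ (X / 1024) := by
    refine hℓ.le.trans ?_
    apply Real.rpow_le_rpow_of_exponent_le (by norm_num)
    calc c * X ≤ 1 / 1024 * X := by gcongr
      _ = X / 1024 := by ring
  have e2 : (6 * ((n / m : ℕ) : ℝ) / (pb0 k n : ℕ)) ^ (pb0 k n) ≤ 2 ^ (X / 1024) := by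
    refine P.b0_pow.trans ?_
    exact Real.rpow_le_rpow_of_exponent_le (by norm_num) hn6
  have e3 : (1 / 2 : ℝ) ^ d ≤ 2 ^ (-(X / 256)) := by
    have h2 : (1 / 2 : ℝ) ^ d = 2 ^ (-(d : ℝ)) := by
      rw [Real.rpow_neg (by norm_num), Real.rpow_natCast, one_div, inv_pow]
    rw [h2]
    apply Real.rpow_le_rpow_of_exponent_le (by norm_num)
    linarith
  have e4 : Real.exp (K * (m : ℝ) ^ (-(3 / 2 - ε / 2)) * (c * (k : ℝ) ^ (1 / 2 - ε) * (n / T))) ≤ 2 ^ (X / 1024) := by
    have h2 : (2 : ℝ) ^ (X / 1024) = Real.exp (Real.log 2 * (X / 1024)) := Real.rpow_def_of_pos (by norm_num) _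
    rw [h2]
    exact Real.exp_le_exp.mpr hexp
  have hnn : (0 : ℝ) ≤ 6 * ((n / m : ℕ) : ℝ) / (pb0 k n : ℕ) := by positivity
  calc (ℓ : ℝ) * (6 * ((n / m : ℕ) : ℝ) / (pb0 k n : ℕ)) ^ (pb0 k n) *
      ((1 / 2) ^ d * Real.exp (K * (m : ℝ) ^ (-(3 / 2 - ε / 2)) *
          (c * (k : ℝ) ^ (1 / 2 - ε) * (n / T))))
      ≤ 2 ^ (X / 1024) * 2 ^ (X / 1024) * (2 ^ (-(X / 256)) * 2 ^ (X / 1024)) := by gcongr
    _ = (2 : ℝ) ^ (-(X / 1024)) := by
        rw [← Real.rpow_add (by norm_num), ← Real.rpow_add (by norm_num), ← Real.rpow_add (by norm_num)]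
        congr 1
        ring
    _ ≤ (2 : ℝ) ^ (-1 : ℝ) := by
        apply Real.rpow_le_rpow_of_exponent_le (by norm_num)
        linarith
    _ = 1 / 2 := by rw [Real.rpow_neg_one]; norm_num

end Pool.Agent.Lib.MP_51bb46_lc.RC
end
end
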