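import Pool.Agent.Lib.MP_51bb46_lc.RC.CylA
import Pool.Agent.Lib.MP_51bb46_lc.RC.NumF

section

end

section

set_option autoImplicit false
set_option linter.unusedSectionVars false

/-!
Random k-CNFs and short-line Frege: satisfying the clauses of the closure.
-/

namespace Pool.Agent.Lib.MP_51bb46_lc.RC

open Finset

variable {M k N : ℕ} {Λ : Type} {blk : Λ → Fin N} {F : Fin M × Fin k → Λ}

/-- **Hall.** A system of distinct representatives (`Finset.all_card_le_biUnion_card_iff_exists_injective` for the index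
type `{c // c ∈ I}` and the sets `univ.image fun j => blk (F (c, j))`) gives distinct blocks `b c`; let `β (b c)` be the sign of
a literal of `c` in the block `b c`. -/
theorem exists_beta (sgn : Λ → Bool) (I : Finset (Fin M)) (h : ∀ S ⊆ I, S.card ≤ (Bl blk F S).card) :
    ∃ β : Fin N → Bool, ∀ c ∈ I, ∃ j, sgn (F (c, j)) = β (blk (F (c, j))) := by
  classical
  have hall := (Finset.all_card_le_biUnion_card_iff_exists_injective
    (fun c : {c // c ∈ I} => (univ : Finset (Fin k)).image fun j => blk (F (c.1, j)))).1 ?_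
  · obtain ⟨b, hb, hm⟩ := hall
    have hj : ∀ c : {c // c ∈ I}, ∃ j, blk (F (c.1, j)) = b c := by
      intro c
      obtain ⟨j, _, hj⟩ := Finset.mem_image.1 (hm c)
      exact ⟨j, hj⟩
    choose j hj using hj
    refine ⟨fun v => if hv : ∃ c, b c = v then sgn (F (hv.choose.1, j hv.choose)) else false,
      fun c hc => ⟨j ⟨c, hc⟩, ?_⟩⟩
    have hv : ∃ c', b c' = blk (F (c, j ⟨c, hc⟩)) := ⟨⟨c, hc⟩, (hj ⟨c, hc⟩).symm⟩
    have h1 : hv.choose = ⟨c, hc⟩ := hb (hv.choose_spec.trans (hj ⟨c, hc⟩))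
    show _ = dite _ _ _
    rw [dif_pos hv, h1]
  · intro S
    have h1 := h (S.map (Function.Embedding.subtype _)) (by
      intro c hc
      obtain ⟨d, _, rfl⟩ := Finset.mem_map.1 hc
      exact d.2)
    rw [Finset.card_map] at h1
    refine h1.trans (le_of_eq ?_)
    congr 1
    ext v
    simp only [Bl, Finset.mem_biUnion, Finset.mem_map, Function.Embedding.subtype_apply]
    constructor
    · rintro ⟨c, ⟨d, hd, rfl⟩, hv⟩
      exact ⟨d, hd, hv⟩
    · rintro ⟨d, hd, hv⟩
      exact ⟨d.1, ⟨d, hd, rfl⟩, hv⟩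

end Pool.Agent.Lib.MP_51bb46_lc.RC
end

section

set_option autoImplicit false
set_option linter.unusedSectionVars false

/-!
Random k-CNFs and short-line Frege: shrinkage in counting form, with the blocks of `σ` fixed.
-/

namespace Pool.Agent.Lib.MP_51bb46_lc.RC

open Finset G

variable {n N m : ℕ}

/-- substitution of the values of `σ`, renaming of the variables by `e` -/
def subE (e : Fin n → Fin N × Fin (m + 1)) (σ : Fin N → Option Bool) : G (Fin n) → G (Fin N × Fin (m + 1))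
  | cst c => cst c
  | lit v s => match σ (e v).1 with
    | some t => cst (t == s)
    | none => lit (e v) s
  | gate c A B => gate c (subE e σ A) (subE e σ B)

theorem len_subE (e : Fin n → Fin N × Fin (m + 1)) (σ : Fin N → Option Bool) (f : G (Fin n)) :
    (subE e σ f).len ≤ f.len := by
  induction f with
  | cst c => exact le_refl _
  | lit v s =>
    unfold subE
    cases σ (e v).1 with
    | none => exact le_refl _
    | some t => simp [len]
  | gate c A B hA hB =>
    simp only [subE, len]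
    omega

theorem R_subE (e : Fin n → Fin N × Fin (m + 1)) (σ : Fin N → Option Bool) (f : G (Fin n)) (a : Fin N → Fin (m + 1))
    (x : Fin N × Fin (m + 1) → Bool) (y : Fin N → Bool) : R a x (subE e σ f) y = f.ev (ptE e a x σ y) := by
  unfold R
  induction f with
  | cst c => rfl
  | lit v s =>
    unfold subE
    cases h : σ (e v).1 with
    | none =>
      simp only [ev, ptE, h]
    | some t =>
      simp only [ev, ptE, h]
  | gate c A B hA hB =>
    simp only [subE, ev, hA, hB]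

end Pool.Agent.Lib.MP_51bb46_lc.RC
end

section

set_option autoImplicit false
set_option linter.unusedSectionVars false

/-!
Random k-CNFs and short-line Frege: the closure.
-/

namespace Pool.Agent.Lib.MP_51bb46_lc.RC

open Finset

variable {M k N : ℕ} {Λ : Type} {y z : ℝ} {ty : Λ → Option Bool} {blk : Λ → Fin N}
  {F : Fin M × Fin k → Λ}

/-- `Bad ∅` -/
theorem Bad_empty : Bad y z ty blk F ∅ := by
  unfold Bad Wt
  simp

/-- the blocks of the positions of the clauses `I` -/
theorem image_prod (I : Finset (Fin M)) : (I ×ˢ (univ : Finset (Fin k))).image (fun p => blk (F p)) = Bl blk F I := by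
  ext b
  simp only [Bl, Finset.mem_image, Finset.mem_product, Finset.mem_univ, and_true, Finset.mem_biUnion, true_and]
  constructor
  · rintro ⟨⟨c, j⟩, hc, hb⟩
    exact ⟨c, hc, j, hb⟩
  · rintro ⟨c, hc, j, hb⟩
    exact ⟨(c, j), hc, hb⟩

/-- the survivor blocks of the positions of the clauses `S` -/
theorem image_prod_sv (B : Finset (Fin N)) (S : Finset (Fin M)) :
    (((S ×ˢ (univ : Finset (Fin k))).filter fun p => ty (F p) = none).image fun p => blk (F p)) \ B =
      Sv ty blk F B S := by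
  unfold Sv
  congr 1
  ext b
  simp only [Finset.mem_image, Finset.mem_filter, Finset.mem_product, Finset.mem_univ, and_true, Finset.mem_biUnion,
    true_and]
  constructor
  · rintro ⟨⟨c, j⟩, ⟨hc, ht⟩, hb⟩
    exact ⟨c, hc, j, ht, hb⟩
  · rintro ⟨c, hc, j, ht, hb⟩
    exact ⟨(c, j), ⟨hc, ht⟩, hb⟩

/-- **The closure.** Let `I` be a bad set with fewer than `i₀` elements, of maximal cardinality (`Finset.exists_max_image` for
the finite set of bad sets with fewer than `i₀` elements, which contains `∅`). Let `S` be disjoint from `I`, `|S| ≤ s₁`, `Uns`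
for `B = Bl I`, and suppose `|Sv| < 2 |S|`. Then `Wt_step` with `Q = I × univ`, `Q' = S × univ` (`image_prod`,
`image_prod_sv`) gives `Wt ((I ∪ S) × univ) ≥ z ^ |Sv| * z ^ (2 |I|) ≥ z ^ (2 |I ∪ S|)`, so `I ∪ S` is bad; its cardinality
is at most `(i₀ - 1) + s₁ ≤ i₁`, so it is less than `i₀` by `P1`, a contradiction to the maximality of `I`. -/
theorem closure (hy : 0 < y) (hyz : y ≤ z) (hz : z ≤ 1) {i₀ i₁ s₁ : ℕ} (h1 : 1 ≤ i₀) (his : i₀ + s₁ ≤ i₁ + 1)
    (P1 : ∀ I : Finset (Fin M), i₀ ≤ I.card → I.card ≤ i₁ → ¬ Bad y z ty blk F I) :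
    ∃ I : Finset (Fin M), I.card < i₀ ∧ ∀ S : Finset (Fin M), S.card ≤ s₁ → Disjoint I S →
      Uns ty blk F (Bl blk F I) S → 2 * S.card ≤ (Sv ty blk F (Bl blk F I) S).card := by
  classical
  obtain ⟨I, hI, hmax⟩ := Finset.exists_max_image
    ((univ : Finset (Finset (Fin M))).filter fun I => Bad y z ty blk F I ∧ I.card < i₀) (fun I => I.card)
    ⟨∅, by
      rw [Finset.mem_filter]
      exact ⟨Finset.mem_univ _, Bad_empty, by rw [Finset.card_empty]; omega⟩⟩
  rw [Finset.mem_filter] at hI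
  obtain ⟨-, hbad, hlt⟩ := hI
  refine ⟨I, hlt, ?_⟩
  intro S hS hd hu
  by_contra hc
  push Not at hc
  have hstep := Wt_step (ty := ty) (blk := blk) hy hyz hz F (I ×ˢ (univ : Finset (Fin k)))
    (S ×ˢ (univ : Finset (Fin k))) (by
      rintro ⟨c, j⟩ hp ht
      rw [image_prod]
      exact hu c (Finset.mem_product.1 hp).1 j ht)
  rw [image_prod, image_prod_sv, ← Finset.union_product] at hstep
  have hcard : (I ∪ S).card = I.card + S.card := Finset.card_union_of_disjoint hd
  have hSpos : 1 ≤ S.card := by omega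
  have hz0 : 0 < z := hy.trans_le hyz
  have hb2 : Bad y z ty blk F (I ∪ S) := by
    unfold Bad at hbad ⊢
    refine le_trans ?_ hstep
    rw [hcard, Nat.mul_add, pow_add, mul_comm]
    refine mul_le_mul ?_ hbad (by positivity) (by positivity)
    exact pow_le_pow_of_le_one hz0.le hz (by omega)
  have hlt2 : (I ∪ S).card < i₀ := by
    by_contra h3
    push Not at h3
    exact P1 (I ∪ S) h3 (by omega) hb2
  have h4 := hmax (I ∪ S) (by
    rw [Finset.mem_filter]
    exact ⟨Finset.mem_univ _, hb2, hlt2⟩)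
  omega

end Pool.Agent.Lib.MP_51bb46_lc.RC
end

section

set_option autoImplicit false
set_option linter.unusedSectionVars false

/-!
Random k-CNFs and short-line Frege: shrinkage in counting form.
-/

namespace Pool.Agent.Lib.MP_51bb46_lc.RC

open Finset G

variable {n N m : ℕ}

private theorem shrB_card (_hm : 1 ≤ m) (b : Fin N) : (JJ N m b).card = m := by
  unfold JJ
  have h1 : ((univ : Finset (Fin (m + 1))).filter fun i => i.val < m) = Finset.Iio (Fin.last m) := by
    ext i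
    rw [Finset.mem_filter, Finset.mem_Iio, Fin.lt_def, Fin.val_last]
    exact and_iff_right (Finset.mem_univ i)
  rw [h1, Fin.card_Iio]
  simp

/-- `Pr f (JJ N m) d` is the fraction of the restrictions for which the depth is larger than `d` -/
theorem Pr_eq (hm : 1 ≤ m) (f : G (Fin N × Fin (m + 1))) (d : ℕ) [∀ ω : (Fin N → Fin (m + 1)) ×
    (Fin N × Fin (m + 1) → Bool), Decidable (HD d (R ω.1 ω.2 f))] :
    (((Om N m).filter fun ω => ¬ HD d (R ω.1 ω.2 f)).card : ℝ) = Pr f (JJ N m) d * (Om N m).card := by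
  have hP : (∏ b, ((JJ N m b).card : ℝ)) ≠ 0 := by
    apply Finset.prod_ne_zero_iff.mpr
    intro b _
    rw [shrB_card hm b]
    have : (0:ℝ) < m := by exact_mod_cast hm
    exact this.ne'
  have h1 : ((Om N m).card : ℝ) = (∏ b, ((JJ N m b).card : ℝ)) * 2 ^ Fintype.card (Fin N × Fin (m + 1)) := by
    unfold Om
    rw [Finset.card_product, Fintype.card_piFinset, Finset.card_univ, Fintype.card_fun, Fintype.card_bool]
    push_cast
    rfl
  have h2 : (((Om N m).filter fun ω => ¬ HD d (R ω.1 ω.2 f)).card : ℝ) =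
      ∑ a ∈ Fintype.piFinset (JJ N m), ∑ x, ind d f a x := by
    rw [← Finset.sum_product' (Fintype.piFinset (JJ N m)) univ (fun a x => ind d f a x)]
    rw [Finset.card_filter]
    push_cast
    refine Finset.sum_congr rfl fun ω _ => ?_
    unfold ind
    by_cases h : HD d (R ω.1 ω.2 f)
    · rw [if_neg (not_not.2 h), if_pos h]
    · rw [if_pos h, if_neg h]
  rw [h1, h2]
  unfold Pr avA avX
  rw [← Finset.sum_div]
  field_simp

/-- **Concentrated shrinkage** (`exists_lamOK`, `main_bound`; `(JJ N m b).card = m`; `∑_b ∑_{i ∈ JJ b} occ ≤ len`; `ev_toG`,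
`len_toG` of Final.lean). -/
theorem shrC (α : ℝ) (h1 : 1 ≤ α) (h2 : α < 3 / 2) : ∃ K : ℝ, 0 < K ∧ ∀ (n N m : ℕ), 1 ≤ m →
    ∀ (e : Fin n → Fin N × Fin (m + 1)) (A : Fml (Fin n)) (σ : Fin N → Option Bool) (d : ℕ)
      [∀ ω : (Fin N → Fin (m + 1)) × (Fin N × Fin (m + 1) → Bool),
        Decidable (HD d fun y => A.eval (ptE e ω.1 ω.2 σ y))],
      (((Om N m).filter fun ω => ¬ HD d fun y => A.eval (ptE e ω.1 ω.2 σ y)).card : ℝ) ≤
        (1 / 2) ^ d * Real.exp (K * (m : ℝ) ^ (-α) * A.occurrences) * (Om N m).card := by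
  obtain ⟨K, z0, J0, hK, hl⟩ := exists_lamOK α h1 h2
  refine ⟨K, hK, fun n N m hm e A σ d _ => ?_⟩
  classical
  set f : G (Fin N × Fin (m + 1)) := subE e σ (A.toG true) with hf
  have hR : ∀ ω : (Fin N → Fin (m + 1)) × (Fin N × Fin (m + 1) → Bool),
      R ω.1 ω.2 f = fun y => A.eval (ptE e ω.1 ω.2 σ y) := by
    intro ω
    funext y
    rw [hf, R_subE, ev_toG]
    cases A.eval (ptE e ω.1 ω.2 σ y) <;> rfl
  have hc : (((Om N m).filter fun ω => ¬ HD d fun y => A.eval (ptE e ω.1 ω.2 σ y)).card : ℝ) =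
      Pr f (JJ N m) d * (Om N m).card := by
    rw [← Pr_eq hm f d]
    congr 2
    refine Finset.filter_congr fun ω _ => ?_
    rw [hR ω]
  rw [hc]
  refine mul_le_mul_of_nonneg_right ?_ (Nat.cast_nonneg _)
  have hJ : ∀ b, (JJ N m b).Nonempty := fun b => by
    rw [← Finset.card_pos, shrB_card hm b]
    omega
  refine (main_bound hl _ f (JJ N m) hJ le_rfl d).trans ?_
  refine mul_le_mul_of_nonneg_left (Real.exp_le_exp.2 ?_) (by positivity)
  have h3 : Psi (fun j => K * (j : ℝ) ^ (-α)) f (JJ N m) =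
      K * (m : ℝ) ^ (-α) * ∑ b, ∑ i ∈ JJ N m b, (f.occ (b, i) : ℝ) := by
    unfold Psi
    rw [Finset.mul_sum]
    refine Finset.sum_congr rfl fun b _ => ?_
    rw [shrB_card hm b]
  rw [h3]
  have hm0 : (0 : ℝ) < m := by exact_mod_cast hm
  refine mul_le_mul_of_nonneg_left ?_ (mul_nonneg hK.le (Real.rpow_nonneg hm0.le _))
  have h4 : ∑ b, ∑ i ∈ JJ N m b, (f.occ (b, i) : ℝ) ≤ ∑ b, ∑ i, (f.occ (b, i) : ℝ) :=
    Finset.sum_le_sum fun b _ => Finset.sum_le_sum_of_subset_of_nonneg (Finset.subset_univ _)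
      fun i _ _ => Nat.cast_nonneg _
  have h5 : ∑ b, ∑ i, (f.occ (b, i) : ℝ) = f.len := by
    rw [← G.sum_occ f, Fintype.sum_prod_type]
    push_cast
    rfl
  have h6 : (f.len : ℝ) ≤ A.occurrences := by
    rw [hf, ← len_toG A true]
    exact_mod_cast len_subE e σ (A.toG true)
  linarith

end Pool.Agent.Lib.MP_51bb46_lc.RC
end

section

set_option autoImplicit false
set_option linter.unusedSectionVars false

/-!
Random k-CNFs and short-line Frege: the literals of a set of blocks.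
-/

namespace Pool.Agent.Lib.MP_51bb46_lc.RC

open Finset

variable {n N m : ℕ} {e : Fin n → Fin N × Fin (m + 1)} {a : Fin N → Fin (m + 1)} {x : Fin N × Fin (m + 1) → Bool}

theorem card_blk (he : IsEmb e) (b : Fin N) : (univ.filter fun l => blkE e l = b).card ≤ 2 * (m + 1) := by
  have h1 : (univ.filter fun l => blkE e l = b).card ≤ (univ : Finset (Fin (m + 1) × Bool)).card := by
    refine Finset.card_le_card_of_injOn (fun l => ((e l.1).2, l.2)) (fun l _ => Finset.mem_coe.2 (mem_univ _)) ?_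
    intro l hl l' hl' h
    simp only [coe_filter, mem_univ, true_and, Set.mem_ofPred_eq, blkE] at hl hl'
    simp only [Prod.mk.injEq] at h
    refine Prod.ext (he.inj (Prod.ext (hl.trans hl'.symm) h.1)) h.2
  rw [card_univ, Fintype.card_prod, Fintype.card_fin, Fintype.card_bool] at h1
  omega

/-- the number of survivors -/
private theorem typb_surv (he : IsEmb e) (ha : ∀ b, (a b).val < m) :
    (univ.filter fun v : Fin n => a (e v).1 = (e v).2).card = N := by
  have h1 : (univ.filter fun v : Fin n => a (e v).1 = (e v).2).card = (univ : Finset (Fin N)).card := by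
    refine Finset.card_bij (fun v _ => (e v).1) (fun _ _ => mem_univ _) ?_ ?_
    · intro v hv v' hv' h
      simp only [mem_filter, mem_univ, true_and] at hv hv'
      refine he.inj (Prod.ext h ?_)
      rw [← hv, ← hv', h]
    · intro b _
      obtain ⟨v, hv⟩ := he.sur b (a b) (ha b)
      refine ⟨v, ?_, by rw [hv]⟩
      simp only [mem_filter, mem_univ, true_and, hv]
  rw [h1, card_univ, Fintype.card_fin]

private theorem typb_false (he : IsEmb e) (ha : ∀ b, (a b).val < m) :
    (univ.filter fun l => tyE e a x l = some false).card + N ≤ n := by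
  have h1 : (univ.filter fun l => tyE e a x l = some false).card ≤
      (univ.filter fun v : Fin n => ¬ a (e v).1 = (e v).2).card := by
    refine Finset.card_le_card_of_injOn (fun l => l.1) ?_ ?_
    · intro l hl
      simp only [coe_filter, mem_univ, true_and, Set.mem_ofPred_eq] at hl ⊢
      intro h
      unfold tyE at hl
      rw [if_pos h] at hl
      exact absurd hl (by simp)
    · intro l hl l' hl' h
      simp only [coe_filter, mem_univ, true_and, Set.mem_ofPred_eq] at hl hl'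
      have key : ∀ l : Fin n × Bool, tyE e a x l = some false → l.2 = !(x (e l.1)) := by
        intro l hl
        unfold tyE at hl
        by_cases h2 : a (e l.1).1 = (e l.1).2
        · rw [if_pos h2] at hl
          exact absurd hl (by simp)
        · rw [if_neg h2] at hl
          have h3 : (x (e l.1) == l.2) = false := Option.some.inj hl
          cases h4 : x (e l.1) <;> cases h5 : l.2 <;> simp_all
      have h' : l.1 = l'.1 := h
      refine Prod.ext h' ?_
      rw [key l hl, key l' hl', h']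
  have h2 := Finset.card_filter_add_card_filter_not (s := (univ : Finset (Fin n))) (fun v : Fin n => a (e v).1 = (e v).2)
  rw [typb_surv he ha, card_univ, Fintype.card_fin] at h2
  omega

private theorem typb_none (he : IsEmb e) (T : Finset (Fin N)) :
    (univ.filter fun l => tyE e a x l = none ∧ blkE e l ∈ T).card ≤ 2 * T.card := by
  have h1 : (univ.filter fun l => tyE e a x l = none ∧ blkE e l ∈ T).card ≤
      (T ×ˢ (univ : Finset Bool)).card := by
    refine Finset.card_le_card_of_injOn (fun l => (blkE e l, l.2)) ?_ ?_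
    · intro l hl
      simp only [coe_filter, mem_univ, true_and, Set.mem_ofPred_eq] at hl
      exact Finset.mem_coe.2 (mem_product.2 ⟨hl.2, mem_univ _⟩)
    · intro l hl l' hl' h
      simp only [coe_filter, mem_univ, true_and, Set.mem_ofPred_eq] at hl hl'
      simp only [Prod.mk.injEq, blkE] at h
      have key : ∀ l : Fin n × Bool, tyE e a x l = none → (e l.1).2 = a (e l.1).1 := by
        intro l hl
        unfold tyE at hl
        by_cases h2 : a (e l.1).1 = (e l.1).2
        · exact h2.symm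
        · rw [if_neg h2] at hl
          exact absurd hl (by simp)
      refine Prod.ext (he.inj (Prod.ext h.1 ?_)) h.2
      rw [key l hl.1, key l' hl'.1, h.1]
  rw [card_product, card_univ, Fintype.card_bool] at h1
  omega

theorem card_allowed (he : IsEmb e) (ha : ∀ b, (a b).val < m) (B T : Finset (Fin N)) :
    ((univ.filter fun l => tyE e a x l = some false ∨ blkE e l ∈ B ∨ (tyE e a x l = none ∧ blkE e l ∈ T)).card : ℝ) ≤
      (n - N) + 2 * (m + 1) * B.card + 2 * T.card := by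
  have h0 : (univ.filter fun l => tyE e a x l = some false ∨ blkE e l ∈ B ∨ (tyE e a x l = none ∧ blkE e l ∈ T)) ⊆
      (univ.filter fun l => tyE e a x l = some false) ∪ ((B.biUnion fun b => univ.filter fun l => blkE e l = b) ∪
        (univ.filter fun l => tyE e a x l = none ∧ blkE e l ∈ T)) := by
    intro l hl
    rw [mem_filter] at hl
    rw [mem_union, mem_union, mem_biUnion, mem_filter, mem_filter]
    rcases hl.2 with h | h | h
    · exact Or.inl ⟨mem_univ _, h⟩
    · exact Or.inr (Or.inl ⟨blkE e l, h, by rw [mem_filter]; exact ⟨mem_univ _, rfl⟩⟩)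
    · exact Or.inr (Or.inr ⟨mem_univ _, h⟩)
  have h1 := (card_le_card h0).trans ((card_union_le _ _).trans (Nat.add_le_add_left (card_union_le _ _) _))
  have h2 : (B.biUnion fun b => univ.filter fun l => blkE e l = b).card ≤ B.card * (2 * (m + 1)) :=
    card_biUnion_le_card_mul _ _ _ fun b _ => card_blk he b
  have h3 := typb_false (x := x) he ha
  have h4 := typb_none (a := a) (x := x) he T
  have h5 : (univ.filter fun l => tyE e a x l = some false ∨ blkE e l ∈ B ∨ (tyE e a x l = none ∧ blkE e l ∈ T)).card +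
      N ≤ n + B.card * (2 * (m + 1)) + 2 * T.card := by omega
  have h6 : (((univ.filter fun l => tyE e a x l = some false ∨ blkE e l ∈ B ∨
      (tyE e a x l = none ∧ blkE e l ∈ T)).card : ℝ)) + N ≤ n + B.card * (2 * (m + 1)) + 2 * T.card := by
    exact_mod_cast h5
  linarith

end Pool.Agent.Lib.MP_51bb46_lc.RC
end

section

set_option autoImplicit false
set_option linter.unusedSectionVars false

/-!
Random k-CNFs and short-line Frege: the expectation of the weight.
-/

namespace Pool.Agent.Lib.MP_51bb46_lc.RC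

open Finset

variable {N : ℕ} {Λ P : Type} {y z : ℝ} {ty : Λ → Option Bool} {blk : Λ → Fin N}

private theorem wtb_avg [Fintype P] [DecidableEq P] [Fintype Λ] (G : (P → Λ) → ℝ) (p : P) :
    ∑ f : P → Λ, ∑ l : Λ, G (Function.update f p l) = Fintype.card Λ * ∑ f : P → Λ, G f := by
  have h1 : ∑ f : P → Λ, ∑ l : Λ, G (Function.update f p l) =
      ∑ q : (P → Λ) × Λ, G (Function.update q.1 p q.2) := by
    rw [Fintype.sum_prod_type]
  have h2 : ∑ q : (P → Λ) × Λ, G (Function.update q.1 p q.2) = ∑ q : (P → Λ) × Λ, G q.1 := by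
    refine Fintype.sum_bijective (fun q : (P → Λ) × Λ => (Function.update q.1 p q.2, q.1 p)) ?_ _ _ fun q => rfl
    refine Function.Involutive.bijective ?_
    intro q
    refine Prod.ext ?_ ?_
    · show Function.update (Function.update q.1 p q.2) p (q.1 p) = q.1
      rw [Function.update_idem, Function.update_eq_self]
    · show Function.update q.1 p q.2 p = q.2
      rw [Function.update_self]
  rw [h1, h2, Fintype.sum_prod_type, Finset.mul_sum]
  refine Finset.sum_congr rfl fun f _ => ?_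
  show ∑ _l : Λ, G f = _
  rw [Finset.sum_const, nsmul_eq_mul, Finset.card_univ]

private theorem wtb_congr [DecidableEq P] {f g : P → Λ} {Q : Finset P} (h : ∀ p ∈ Q, f p = g p) :
    Wt y z ty blk f Q = Wt y z ty blk g Q ∧
      (Q.image fun p => blk (f p)) = Q.image fun p => blk (g p) := by
  have h2 : (Q.image fun p => blk (f p)) = Q.image fun p => blk (g p) :=
    Finset.image_congr fun p hp => by rw [h p hp]
  refine ⟨?_, h2⟩
  unfold Wt
  rw [h2]
  congr 1
  exact Finset.prod_congr rfl fun p hp => by rw [h p hp]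

private theorem wtb_one [Fintype Λ] (hy : 0 < y) (hyz : y ≤ z) (hz : z ≤ 1) {U q : ℕ}
    (hU : ∀ b, (univ.filter fun l => blk l = b).card ≤ U) (T : Finset (Fin N)) (hT : T.card ≤ q) :
    ∑ l, wt y z (ty l) * (if blk l ∈ T then 1 / y else 1) ≤ ∑ l, wt y z (ty l) + 1 / y * (U * q) := by
  classical
  have h1 : ∀ l, wt y z (ty l) * (if blk l ∈ T then 1 / y else 1) ≤
      wt y z (ty l) + (if blk l ∈ T then 1 / y else 0) := by
    intro l
    have h2 : 0 ≤ wt y z (ty l) := hy.le.trans (wt_ge hyz hz _)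
    have h3 := wt_le hyz hz (ty l)
    have h4 : 0 < 1 / y := by positivity
    split_ifs
    · nlinarith
    · linarith
  refine (Finset.sum_le_sum fun l _ => h1 l).trans ?_
  rw [Finset.sum_add_distrib]
  refine add_le_add le_rfl ?_
  rw [← Finset.sum_filter, Finset.sum_const, nsmul_eq_mul]
  have h5 : (univ.filter fun l => blk l ∈ T).card ≤ U * q := by
    have h6 : (univ.filter fun l => blk l ∈ T) ⊆ T.biUnion fun b => univ.filter fun l => blk l = b := by
      intro l hl
      rw [Finset.mem_biUnion]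
      exact ⟨blk l, (Finset.mem_filter.1 hl).2, Finset.mem_filter.2 ⟨Finset.mem_univ _, rfl⟩⟩
    refine (Finset.card_le_card h6).trans (Finset.card_biUnion_le.trans ?_)
    refine (Finset.sum_le_sum fun b _ => hU b).trans ?_
    rw [Finset.sum_const, smul_eq_mul, mul_comm]
    exact Nat.mul_le_mul le_rfl hT
  have h7 : ((univ.filter fun l => blk l ∈ T).card : ℝ) ≤ U * q := by exact_mod_cast h5
  have h8 : 0 < 1 / y := by positivity
  rw [mul_comm]
  exact mul_le_mul_of_nonneg_left h7 h8.le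

/-- **The expectation.** Induction on `Q`: `∑_f G f = (1/|Λ|) ∑_f ∑_l G (update f p l)`, and
`Wt (insert p Q) = Wt Q * (wt (f p) * ..)` where `Wt Q` does not depend on `f p`;
`∑_l wt (ty l) * (if blk l ∈ T then 1 / y else 1) ≤ ∑_l wt (ty l) + (1 / y) * U * |T|`, `|T| ≤ |Q| ≤ q`. -/
theorem Wt_sum [Fintype P] [DecidableEq P] [Fintype Λ] [Nonempty Λ] (hy : 0 < y) (hyz : y ≤ z) (hz : z ≤ 1) {U q : ℕ}
    (hU : ∀ b, (univ.filter fun l => blk l = b).card ≤ U) {E : ℝ}
    (hE : ∑ l, wt y z (ty l) + 1 / y * (U * q) ≤ E * Fintype.card Λ) (Q : Finset P) (hQ : Q.card ≤ q) :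
    ∑ f : P → Λ, Wt y z ty blk f Q ≤ E ^ Q.card * (Fintype.card Λ : ℝ) ^ Fintype.card P := by
  have hL : (0 : ℝ) < Fintype.card Λ := by exact_mod_cast Fintype.card_pos
  have hE0 : 0 ≤ E := by
    have h1 : 0 ≤ ∑ l, wt y z (ty l) + 1 / y * (U * q) :=
      add_nonneg (Finset.sum_nonneg fun l _ => hy.le.trans (wt_ge hyz hz _)) (by positivity)
    have h2 : 0 ≤ E * Fintype.card Λ := h1.trans hE
    exact nonneg_of_mul_nonneg_left h2 hL
  induction Q using Finset.induction_on with
  | empty =>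
    have h1 : ∀ f : P → Λ, Wt y z ty blk f ∅ = 1 := by
      intro f
      simp [Wt]
    rw [Finset.sum_congr rfl fun f _ => h1 f]
    simp
  | insert p Q hp ih =>
    rw [Finset.card_insert_of_notMem hp] at hQ
    have hQ' : Q.card ≤ q := by omega
    have ih' := ih hQ'
    set G : (P → Λ) → ℝ := fun f => Wt y z ty blk f (insert p Q) with hG
    have hstep : ∀ f : P → Λ, ∑ l : Λ, G (Function.update f p l) ≤
        Wt y z ty blk f Q * (E * Fintype.card Λ) := by
      intro f
      have h1 : ∀ l : Λ, G (Function.update f p l) = Wt y z ty blk f Q *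
          (wt y z (ty l) * (if blk l ∈ Q.image (fun p => blk (f p)) then 1 / y else 1)) := by
        intro l
        have h2 : ∀ r ∈ Q, Function.update f p l r = f r := by
          intro r hr
          exact Function.update_of_ne (fun h : r = p => hp (by rw [← h]; exact hr)) _ _
        obtain ⟨h3, h4⟩ := wtb_congr (y := y) (z := z) (ty := ty) (blk := blk) h2
        show Wt y z ty blk (Function.update f p l) (insert p Q) = _
        rw [Wt_insert hp, h3, h4, Function.update_self]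
      rw [Finset.sum_congr rfl fun l _ => h1 l, ← Finset.mul_sum]
      refine mul_le_mul_of_nonneg_left ?_ (Wt_pos hy hyz hz f Q).le
      exact (wtb_one hy hyz hz hU _ (Finset.card_image_le.trans hQ')).trans hE
    have h5 := wtb_avg G p
    have h6 : (Fintype.card Λ : ℝ) * ∑ f : P → Λ, G f ≤
        (Fintype.card Λ : ℝ) * (E * ∑ f : P → Λ, Wt y z ty blk f Q) := by
      rw [← h5]
      refine (Finset.sum_le_sum fun f _ => hstep f).trans (le_of_eq ?_)
      rw [← Finset.sum_mul]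
      ring
    have h7 := le_of_mul_le_mul_left h6 hL
    rw [Finset.card_insert_of_notMem hp, pow_succ]
    calc ∑ f : P → Λ, G f ≤ E * ∑ f : P → Λ, Wt y z ty blk f Q := h7
      _ ≤ E * (E ^ Q.card * (Fintype.card Λ : ℝ) ^ Fintype.card P) := mul_le_mul_of_nonneg_left ih' hE0
      _ = _ := by ring

end Pool.Agent.Lib.MP_51bb46_lc.RC
end

section

set_option autoImplicit false
set_option linter.unusedSectionVars false

/-!
Random k-CNFs and short-line Frege: property P3 for a fixed restriction.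
-/

namespace Pool.Agent.Lib.MP_51bb46_lc.RC

open Finset

variable {M k N : ℕ} {Λ : Type} [Fintype Λ] [DecidableEq Λ] [Nonempty Λ] {y z : ℝ} {ty : Λ → Option Bool}
  {blk : Λ → Fin N}

open Classical in
/-- One pair of sets: if `S` is not expanding then `T = Sv F B S` has at most `2 s - 1` elements and all literals of `S` lie in
the set `W` of the hypothesis; `card_cyl` with `Q = S × univ`. -/
theorem P3_one {B T : Finset (Fin N)} {E : ℝ}
    (hE : ((univ.filter fun l => ty l = some false ∨ blk l ∈ B ∨ (ty l = none ∧ blk l ∈ T)).card : ℝ) ≤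
      E * Fintype.card Λ) (S : Finset (Fin M)) :
    ((univ.filter fun F : Fin M × Fin k → Λ => Uns ty blk F B S ∧ Sv ty blk F B S ⊆ T).card : ℝ) ≤
      (E ^ k) ^ S.card * (Fintype.card Λ : ℝ) ^ (M * k) := by
  have hsub : (univ.filter fun F : Fin M × Fin k → Λ => Uns ty blk F B S ∧ Sv ty blk F B S ⊆ T) ⊆
      univ.filter fun F : Fin M × Fin k → Λ => ∀ p ∈ S ×ˢ (univ : Finset (Fin k)),
        F p ∈ univ.filter fun l => ty l = some false ∨ blk l ∈ B ∨ (ty l = none ∧ blk l ∈ T) := by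
    intro F hF
    obtain ⟨h1, h2⟩ := (mem_filter.1 hF).2
    refine mem_filter.2 ⟨mem_univ _, fun p hp => mem_filter.2 ⟨mem_univ _, ?_⟩⟩
    obtain ⟨c, j⟩ := p
    have hc : c ∈ S := (mem_product.1 hp).1
    rcases hty : ty (F (c, j)) with _ | _ | _
    · by_cases hB : blk (F (c, j)) ∈ B
      · exact Or.inr (Or.inl hB)
      · refine Or.inr (Or.inr ⟨rfl, h2 ?_⟩)
        unfold Sv
        refine mem_sdiff.2 ⟨?_, hB⟩
        rw [mem_biUnion]
        exact ⟨c, hc, mem_image.2 ⟨j, mem_filter.2 ⟨mem_univ _, hty⟩, rfl⟩⟩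
    · exact Or.inl rfl
    · exact Or.inr (Or.inl (h1 c hc j hty))
  have hcy := card_cyl (P := Fin M × Fin k) (S ×ˢ univ) _ hE
  rw [card_product, card_univ, Fintype.card_fin, Fintype.card_prod, Fintype.card_fin, Fintype.card_fin] at hcy
  have h1 : ((univ.filter fun F : Fin M × Fin k → Λ => Uns ty blk F B S ∧ Sv ty blk F B S ⊆ T).card : ℝ) ≤
      ((univ.filter fun F : Fin M × Fin k → Λ => ∀ p ∈ S ×ˢ (univ : Finset (Fin k)),
        F p ∈ univ.filter fun l => ty l = some false ∨ blk l ∈ B ∨ (ty l = none ∧ blk l ∈ T)).card : ℝ) := by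
    exact_mod_cast card_le_card hsub
  refine h1.trans ?_
  rw [← pow_mul, mul_comm k S.card]
  convert hcy using 3

open Classical in
/-- **Property P3.** Union bound over `B` (`card_small`), over `s ∈ [s₁, s₂]`, the sets `S` of size `s` (`card_eq_size`) and the
sets `T` with at most `2 s` elements (`card_small`; `2 s ≤ 2 s₂ ≤ N`): the sum is at most
`(3N/b₀)^b₀ ∑_s ((3M/s) (3N/(2s))^2 E^k)^s`; `geom_tail`. -/
theorem P3_count {b₀ s₁ s₂ : ℕ} (hb : 1 ≤ b₀) (hbN : b₀ ≤ N) (hs : 1 ≤ s₁) (hsN : 2 * s₂ ≤ N) {E τ : ℝ} (hE0 : 0 ≤ E)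
    (hE : ∀ B T : Finset (Fin N), B.card ≤ b₀ → T.card ≤ 2 * s₂ →
      ((univ.filter fun l => ty l = some false ∨ blk l ∈ B ∨ (ty l = none ∧ blk l ∈ T)).card : ℝ) ≤
        E * Fintype.card Λ)
    (hτ : (3 * M / s₁ : ℝ) * (3 * N / (2 * s₁) : ℝ) ^ 2 * E ^ k ≤ τ) (hτ2 : τ ≤ 1 / 2) :
    ((univ.filter fun F : Fin M × Fin k → Λ => ∃ B : Finset (Fin N), B.card ≤ b₀ ∧ ∃ S : Finset (Fin M),
      s₁ ≤ S.card ∧ S.card ≤ s₂ ∧ Uns ty blk F B S ∧ (Sv ty blk F B S).card < 2 * S.card).card : ℝ) ≤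
      (3 * N / b₀ : ℝ) ^ b₀ * (2 * τ ^ s₁) * (Fintype.card Λ : ℝ) ^ (M * k) := by
  have hs1 : (0 : ℝ) < s₁ := by exact_mod_cast hs
  have hτ0 : 0 ≤ τ := le_trans (by positivity) hτ
  have hLp : 0 ≤ (Fintype.card Λ : ℝ) ^ (M * k) := by positivity
  have hsub : (univ.filter fun F : Fin M × Fin k → Λ => ∃ B : Finset (Fin N), B.card ≤ b₀ ∧ ∃ S : Finset (Fin M),
      s₁ ≤ S.card ∧ S.card ≤ s₂ ∧ Uns ty blk F B S ∧ (Sv ty blk F B S).card < 2 * S.card) ⊆
      (univ.filter fun B : Finset (Fin N) => B.card ≤ b₀).biUnion fun B => (Icc s₁ s₂).biUnion fun s =>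
        (univ.filter fun S : Finset (Fin M) => S.card = s).biUnion fun S =>
          (univ.filter fun T : Finset (Fin N) => T.card ≤ 2 * s).biUnion fun T =>
            univ.filter fun F : Fin M × Fin k → Λ => Uns ty blk F B S ∧ Sv ty blk F B S ⊆ T := by
    intro F hF
    obtain ⟨B, hB, S, h1, h2, h3, h4⟩ := (mem_filter.1 hF).2
    rw [mem_biUnion]
    refine ⟨B, mem_filter.2 ⟨mem_univ _, hB⟩, ?_⟩
    rw [mem_biUnion]
    refine ⟨S.card, mem_Icc.2 ⟨h1, h2⟩, ?_⟩
    rw [mem_biUnion]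
    refine ⟨S, mem_filter.2 ⟨mem_univ _, rfl⟩, ?_⟩
    rw [mem_biUnion]
    exact ⟨Sv ty blk F B S, mem_filter.2 ⟨mem_univ _, h4.le⟩, mem_filter.2 ⟨mem_univ _, h3, Subset.refl _⟩⟩
  have hc : ((univ.filter fun F : Fin M × Fin k → Λ => ∃ B : Finset (Fin N), B.card ≤ b₀ ∧ ∃ S : Finset (Fin M),
      s₁ ≤ S.card ∧ S.card ≤ s₂ ∧ Uns ty blk F B S ∧ (Sv ty blk F B S).card < 2 * S.card).card : ℝ) ≤
      ∑ B ∈ univ.filter (fun B : Finset (Fin N) => B.card ≤ b₀), ∑ s ∈ Icc s₁ s₂,
        ∑ S ∈ univ.filter (fun S : Finset (Fin M) => S.card = s),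
          ∑ T ∈ univ.filter (fun T : Finset (Fin N) => T.card ≤ 2 * s),
        ((univ.filter fun F : Fin M × Fin k → Λ => Uns ty blk F B S ∧ Sv ty blk F B S ⊆ T).card : ℝ) := by
    exact_mod_cast (card_le_card hsub).trans (card_biUnion_le.trans (sum_le_sum fun B _ =>
      card_biUnion_le.trans (sum_le_sum fun s _ => card_biUnion_le.trans (sum_le_sum fun S _ => card_biUnion_le))))
  refine hc.trans ?_
  have hstep : ∀ B ∈ univ.filter (fun B : Finset (Fin N) => B.card ≤ b₀), ∑ s ∈ Icc s₁ s₂,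
      ∑ S ∈ univ.filter (fun S : Finset (Fin M) => S.card = s),
        ∑ T ∈ univ.filter (fun T : Finset (Fin N) => T.card ≤ 2 * s),
        ((univ.filter fun F : Fin M × Fin k → Λ => Uns ty blk F B S ∧ Sv ty blk F B S ⊆ T).card : ℝ) ≤
      2 * τ ^ s₁ * (Fintype.card Λ : ℝ) ^ (M * k) := by
    intro B hB
    have hBc := (mem_filter.1 hB).2
    have hs : ∀ s ∈ Icc s₁ s₂, ∑ S ∈ univ.filter (fun S : Finset (Fin M) => S.card = s),
        ∑ T ∈ univ.filter (fun T : Finset (Fin N) => T.card ≤ 2 * s),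
        ((univ.filter fun F : Fin M × Fin k → Λ => Uns ty blk F B S ∧ Sv ty blk F B S ⊆ T).card : ℝ) ≤
        τ ^ s * (Fintype.card Λ : ℝ) ^ (M * k) := by
      intro s hsI
      obtain ⟨hsa, hsb⟩ := mem_Icc.1 hsI
      have hs1' : 1 ≤ s := hs.trans hsa
      have hspos : (0 : ℝ) < s := by exact_mod_cast hs1'
      have c1 : ((univ.filter fun S : Finset (Fin M) => S.card = s).card : ℝ) ≤ (3 * M / s : ℝ) ^ s := by
        have h := card_eq_size (M := M) hs1'
        convert h using 3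
      have c2 : ((univ.filter fun T : Finset (Fin N) => T.card ≤ 2 * s).card : ℝ) ≤
          (3 * N / (2 * s) : ℝ) ^ (2 * s) := by
        have h := card_small (N := N) (s := 2 * s) (by omega) (by omega)
        rw [Nat.cast_mul, Nat.cast_ofNat] at h
        convert h using 3
      calc ∑ S ∈ univ.filter (fun S : Finset (Fin M) => S.card = s),
          ∑ T ∈ univ.filter (fun T : Finset (Fin N) => T.card ≤ 2 * s),
          ((univ.filter fun F : Fin M × Fin k → Λ => Uns ty blk F B S ∧ Sv ty blk F B S ⊆ T).card : ℝ)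
          ≤ ∑ _S ∈ univ.filter (fun S : Finset (Fin M) => S.card = s),
            ∑ _T ∈ univ.filter (fun T : Finset (Fin N) => T.card ≤ 2 * s),
              (E ^ k) ^ s * (Fintype.card Λ : ℝ) ^ (M * k) := by
            refine sum_le_sum fun S hS => sum_le_sum fun T hT => ?_
            have hSc := (mem_filter.1 hS).2
            have hTc := (mem_filter.1 hT).2
            have h := P3_one (M := M) (k := k) (hE B T hBc (hTc.trans (by omega))) S
            rw [hSc] at h
            exact h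
        _ = ((univ.filter fun S : Finset (Fin M) => S.card = s).card : ℝ) *
              (((univ.filter fun T : Finset (Fin N) => T.card ≤ 2 * s).card : ℝ) *
                ((E ^ k) ^ s * (Fintype.card Λ : ℝ) ^ (M * k))) := by
            rw [sum_const, sum_const, nsmul_eq_mul, nsmul_eq_mul]
        _ ≤ (3 * M / s : ℝ) ^ s * ((3 * N / (2 * s) : ℝ) ^ (2 * s) *
                ((E ^ k) ^ s * (Fintype.card Λ : ℝ) ^ (M * k))) := by
            refine mul_le_mul c1 (mul_le_mul_of_nonneg_right c2 (by positivity)) (by positivity) (by positivity)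
        _ = ((3 * M / s : ℝ) * (3 * N / (2 * s) : ℝ) ^ 2 * E ^ k) ^ s * (Fintype.card Λ : ℝ) ^ (M * k) := by
            rw [pow_mul, mul_pow, mul_pow]
            ring
        _ ≤ τ ^ s * (Fintype.card Λ : ℝ) ^ (M * k) := by
            refine mul_le_mul_of_nonneg_right (pow_le_pow_left₀ (by positivity) (le_trans ?_ hτ) s) hLp
            have h1 : (s₁ : ℝ) ≤ s := by exact_mod_cast hsa
            have h2 : (3 * M / s : ℝ) ≤ 3 * M / s₁ := div_le_div_of_nonneg_left (by positivity) hs1 h1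
            have h3 : (3 * N / (2 * s) : ℝ) ≤ 3 * N / (2 * s₁) :=
              div_le_div_of_nonneg_left (by positivity) (by positivity) (by linarith)
            refine mul_le_mul_of_nonneg_right ?_ (by positivity)
            exact mul_le_mul h2 (pow_le_pow_left₀ (by positivity) h3 2) (by positivity) (by positivity)
    refine (sum_le_sum hs).trans ?_
    rw [← sum_mul]
    exact mul_le_mul_of_nonneg_right (geom_tail hτ0 hτ2 s₁ s₂) hLp
  refine (sum_le_sum hstep).trans ?_
  have c0 : ((univ.filter fun B : Finset (Fin N) => B.card ≤ b₀).card : ℝ) ≤ (3 * N / b₀ : ℝ) ^ b₀ := by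
    have h := card_small (N := N) hb hbN
    convert h using 3
  have hR : 0 ≤ 2 * τ ^ s₁ * (Fintype.card Λ : ℝ) ^ (M * k) := by positivity
  rw [sum_const, nsmul_eq_mul, mul_assoc ((3 * N / b₀ : ℝ) ^ b₀)]
  exact mul_le_mul_of_nonneg_right c0 hR

end Pool.Agent.Lib.MP_51bb46_lc.RC
end

section

set_option autoImplicit false
set_option linter.unusedSectionVars false

/-!
Random k-CNFs and short-line Frege: property P0.
-/

namespace Pool.Agent.Lib.MP_51bb46_lc.RC

open Finset

variable {M k N : ℕ} {Λ : Type} [Fintype Λ] [DecidableEq Λ] [Nonempty Λ] {y z : ℝ} {ty : Λ → Option Bool}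
  {blk : Λ → Fin N}

private theorem cntC_W {U : ℕ} (hU : ∀ b, (univ.filter fun l => blk l = b).card ≤ U) (T : Finset (Fin N)) {s : ℕ}
    (hT : T.card ≤ s) : (univ.filter fun l => blk l ∈ T).card ≤ U * s := by
  have hsub : (univ.filter fun l => blk l ∈ T) ⊆ T.biUnion fun b => univ.filter fun l => blk l = b := by
    intro l hl
    rw [mem_biUnion]
    exact ⟨blk l, (mem_filter.1 hl).2, mem_filter.2 ⟨mem_univ _, rfl⟩⟩
  calc (univ.filter fun l => blk l ∈ T).card ≤ (T.biUnion fun b => univ.filter fun l => blk l = b).card :=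
        card_le_card hsub
    _ ≤ ∑ b ∈ T, (univ.filter fun l => blk l = b).card := card_biUnion_le
    _ ≤ ∑ _b ∈ T, U := sum_le_sum fun b _ => hU b
    _ = T.card * U := by rw [sum_const, smul_eq_mul]
    _ ≤ U * s := by
        rw [mul_comm]
        exact Nat.mul_le_mul_left U hT

open Classical in
/-- **Property P0.** Union bound over the size `s` of `S`, `S` and `T = Bl F S` (at most `s` elements): all literals of `S` are in
blocks of `T`, at most `U s` of the literals; `card_cyl`. -/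
theorem P0_count {U i₁ : ℕ} (hU : ∀ b, (univ.filter fun l => blk l = b).card ≤ U) (hi : i₁ ≤ N) :
    ((univ.filter fun F : Fin M × Fin k → Λ => ∃ S : Finset (Fin M), S.card ≤ i₁ ∧
      (Bl blk F S).card < S.card).card : ℝ) ≤
      (∑ s ∈ Icc 1 i₁, ((3 * M / s : ℝ) * (3 * N / s) * (U * s / Fintype.card Λ) ^ k) ^ s) *
        (Fintype.card Λ : ℝ) ^ (M * k) := by
  have hL : (0 : ℝ) < Fintype.card Λ := by exact_mod_cast Fintype.card_pos
  have hLp : 0 ≤ (Fintype.card Λ : ℝ) ^ (M * k) := by positivity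
  have hsub : (univ.filter fun F : Fin M × Fin k → Λ => ∃ S : Finset (Fin M), S.card ≤ i₁ ∧
      (Bl blk F S).card < S.card) ⊆ (Icc 1 i₁).biUnion fun s =>
        (univ.filter fun S : Finset (Fin M) => S.card = s).biUnion fun S =>
          (univ.filter fun T : Finset (Fin N) => T.card ≤ s).biUnion fun T =>
            univ.filter fun F : Fin M × Fin k → Λ => Bl blk F S ⊆ T := by
    intro F hF
    obtain ⟨S, h1, h2⟩ := (mem_filter.1 hF).2
    rw [mem_biUnion]
    refine ⟨S.card, mem_Icc.2 ⟨by omega, h1⟩, ?_⟩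
    rw [mem_biUnion]
    refine ⟨S, mem_filter.2 ⟨mem_univ _, rfl⟩, ?_⟩
    rw [mem_biUnion]
    exact ⟨Bl blk F S, mem_filter.2 ⟨mem_univ _, h2.le⟩, mem_filter.2 ⟨mem_univ _, Subset.refl _⟩⟩
  have hc : ((univ.filter fun F : Fin M × Fin k → Λ => ∃ S : Finset (Fin M), S.card ≤ i₁ ∧
      (Bl blk F S).card < S.card).card : ℝ) ≤ ∑ s ∈ Icc 1 i₁,
        ∑ S ∈ univ.filter (fun S : Finset (Fin M) => S.card = s),
          ∑ T ∈ univ.filter (fun T : Finset (Fin N) => T.card ≤ s),
        ((univ.filter fun F : Fin M × Fin k → Λ => Bl blk F S ⊆ T).card : ℝ) := by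
    exact_mod_cast (card_le_card hsub).trans (card_biUnion_le.trans (sum_le_sum fun s _ =>
      card_biUnion_le.trans (sum_le_sum fun S _ => card_biUnion_le)))
  refine hc.trans ?_
  rw [sum_mul]
  refine sum_le_sum fun s hsI => ?_
  obtain ⟨hsa, hsb⟩ := mem_Icc.1 hsI
  have hspos : (0 : ℝ) < s := by exact_mod_cast hsa
  have c1 : ((univ.filter fun S : Finset (Fin M) => S.card = s).card : ℝ) ≤ (3 * M / s : ℝ) ^ s := by
    have h := card_eq_size (M := M) hsa
    convert h using 3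
  have c2 : ((univ.filter fun T : Finset (Fin N) => T.card ≤ s).card : ℝ) ≤ (3 * N / s : ℝ) ^ s := by
    have h := card_small (N := N) hsa (hsb.trans hi)
    convert h using 3
  have hone : ∀ S ∈ univ.filter (fun S : Finset (Fin M) => S.card = s),
      ∀ T ∈ univ.filter (fun T : Finset (Fin N) => T.card ≤ s),
      ((univ.filter fun F : Fin M × Fin k → Λ => Bl blk F S ⊆ T).card : ℝ) ≤
        ((U * s / Fintype.card Λ : ℝ) ^ k) ^ s * (Fintype.card Λ : ℝ) ^ (M * k) := by
    intro S hS T hT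
    have hSc := (mem_filter.1 hS).2
    have hTc := (mem_filter.1 hT).2
    have hW : ((univ.filter fun l => blk l ∈ T).card : ℝ) ≤ (U * s / Fintype.card Λ : ℝ) * Fintype.card Λ := by
      rw [div_mul_cancel₀ _ hL.ne']
      exact_mod_cast cntC_W hU T hTc
    have hcy := card_cyl (P := Fin M × Fin k) (S ×ˢ univ) _ hW
    rw [card_product, card_univ, Fintype.card_fin, Fintype.card_prod, Fintype.card_fin, Fintype.card_fin,
      hSc] at hcy
    have hs1 : (univ.filter fun F : Fin M × Fin k → Λ => Bl blk F S ⊆ T) ⊆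
        univ.filter fun F : Fin M × Fin k → Λ => ∀ p ∈ S ×ˢ (univ : Finset (Fin k)),
          F p ∈ univ.filter fun l => blk l ∈ T := by
      intro F hF
      have h1 := (mem_filter.1 hF).2
      refine mem_filter.2 ⟨mem_univ _, fun p hp => mem_filter.2 ⟨mem_univ _, h1 ?_⟩⟩
      obtain ⟨c, j⟩ := p
      unfold Bl
      rw [mem_biUnion]
      exact ⟨c, (mem_product.1 hp).1, mem_image.2 ⟨j, mem_univ _, rfl⟩⟩
    have h1 : ((univ.filter fun F : Fin M × Fin k → Λ => Bl blk F S ⊆ T).card : ℝ) ≤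
        ((univ.filter fun F : Fin M × Fin k → Λ => ∀ p ∈ S ×ˢ (univ : Finset (Fin k)),
          F p ∈ univ.filter fun l => blk l ∈ T).card : ℝ) := by
      exact_mod_cast card_le_card hs1
    refine h1.trans ?_
    rw [← pow_mul, mul_comm k s]
    convert hcy using 3
  calc ∑ S ∈ univ.filter (fun S : Finset (Fin M) => S.card = s),
      ∑ T ∈ univ.filter (fun T : Finset (Fin N) => T.card ≤ s),
      ((univ.filter fun F : Fin M × Fin k → Λ => Bl blk F S ⊆ T).card : ℝ)
      ≤ ∑ _S ∈ univ.filter (fun S : Finset (Fin M) => S.card = s),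
        ∑ _T ∈ univ.filter (fun T : Finset (Fin N) => T.card ≤ s),
          ((U * s / Fintype.card Λ : ℝ) ^ k) ^ s * (Fintype.card Λ : ℝ) ^ (M * k) :=
        sum_le_sum fun S hS => sum_le_sum fun T hT => hone S hS T hT
    _ = ((univ.filter fun S : Finset (Fin M) => S.card = s).card : ℝ) *
          (((univ.filter fun T : Finset (Fin N) => T.card ≤ s).card : ℝ) *
            (((U * s / Fintype.card Λ : ℝ) ^ k) ^ s * (Fintype.card Λ : ℝ) ^ (M * k))) := by
        rw [sum_const, sum_const, nsmul_eq_mul, nsmul_eq_mul]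
    _ ≤ (3 * M / s : ℝ) ^ s * ((3 * N / s : ℝ) ^ s *
            (((U * s / Fintype.card Λ : ℝ) ^ k) ^ s * (Fintype.card Λ : ℝ) ^ (M * k))) :=
        mul_le_mul c1 (mul_le_mul_of_nonneg_right c2 (by positivity)) (by positivity) (by positivity)
    _ = ((3 * M / s : ℝ) * (3 * N / s) * (U * s / Fintype.card Λ) ^ k) ^ s *
          (Fintype.card Λ : ℝ) ^ (M * k) := by
        rw [mul_pow, mul_pow]
        ring

end Pool.Agent.Lib.MP_51bb46_lc.RC
end

section

set_option autoImplicit false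
set_option linter.unusedSectionVars false

/-!
Random k-CNFs and short-line Frege: the deterministic core.
-/

namespace Pool.Agent.Lib.MP_51bb46_lc.RC

open Finset

variable {n N m M k : ℕ} {e : Fin n → Fin N × Fin (m + 1)} {a : Fin N → Fin (m + 1)}
  {x : Fin N × Fin (m + 1) → Bool} {F : Fin M × Fin k → Fin n × Bool}

/-- **The core.** `closure` gives `I`, `exists_beta` (with `P0`, `i₀ ≤ i₁ + 1`) gives `β`; `B = Bl I` has at most
`k (i₀ - 1) ≤ b₀` elements; `descentC` for the constraints `satC`, `nbC`, `sgC` and the lines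
`h i y = (L i).eval (ptE e a x (sigB B β) y)`. Expansion: if no clause of `S` satisfies `satC` then `S` is disjoint from `I` (by
the choice of `β`), `Uns` holds, `S.biUnion nbC = Sv B S`, and for `|S| ≤ s₁` use the closure, for `|S| > s₁` use `P3`. The
axiom lines are those implied by a clause (`holds_of_Cst`). -/
theorem coreRC {y z : ℝ} (hy : 0 < y) (hyz : y ≤ z) (hz : z ≤ 1) {i₀ i₁ s₁ q b₀ : ℕ} (h1 : 1 ≤ i₀)
    (his : i₀ + s₁ ≤ i₁ + 1) (hb : k * i₀ ≤ b₀)
    (P0 : ∀ S : Finset (Fin M), S.card ≤ i₁ → S.card ≤ (Bl (blkE e) F S).card)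
    (P1 : ∀ I : Finset (Fin M), i₀ ≤ I.card → I.card ≤ i₁ → ¬ Bad y z (tyE e a x) (blkE e) F I)
    (P3 : ∀ B : Finset (Fin N), B.card ≤ b₀ → ∀ S : Finset (Fin M), s₁ ≤ S.card → S.card ≤ 2 * q →
      Uns (tyE e a x) (blkE e) F B S → 2 * S.card ≤ (Sv (tyE e a x) (blkE e) F B S).card)
    {ℓ r t d : ℕ} (L : Fin ℓ → Fml (Fin n)) (hL : Refutes r (cnf F) L) (Lg : Finset (Fin ℓ)) (hLg : Lg.card ≤ t)
    (hSh : ∀ i, i ∉ Lg → ∀ σ : Fin N → Option Bool, (dom σ).card ≤ b₀ →
      HD d fun y => (L i).eval (ptE e a x σ y))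
    (hq : 1 ≤ q) (hrq : r * (t + 1) ≤ q) (hd : d * (r * (t + 1) + 1) ≤ q) : False := by
  classical
  obtain ⟨I, hI, hcl⟩ := closure hy hyz hz h1 his P1
  obtain ⟨β, hβ⟩ := exists_beta (blk := blkE e) (F := F) (fun l => l.2) I
    (fun S hS => P0 S ((Finset.card_le_card hS).trans (by omega)))
  set B : Finset (Fin N) := Bl (blkE e) F I with hB
  have hBc : B.card ≤ b₀ := by
    have h2 : B.card ≤ I.card * k := by
      rw [hB]
      unfold Bl
      refine Finset.card_biUnion_le_card_mul _ _ _ fun c _ => ?_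
      refine Finset.card_image_le.trans ?_
      rw [Finset.card_univ, Fintype.card_fin]
    have h3 : I.card * k ≤ i₀ * k := Nat.mul_le_mul_right _ hI.le
    rw [mul_comm i₀ k] at h3
    omega
  have hsat : ∀ c ∈ I, satC e a x F B β c := by
    intro c hc
    obtain ⟨j, hj⟩ := hβ c hc
    refine ⟨j, Or.inl ⟨?_, hj⟩⟩
    rw [hB]
    unfold Bl
    rw [mem_biUnion]
    exact ⟨c, hc, mem_image.2 ⟨j, mem_univ _, rfl⟩⟩
  have hg : ∀ S : Finset (Fin M), S.card ≤ 2 * q → (∀ c ∈ S, ¬ satC e a x F B β c) →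
      2 * S.card ≤ (S.biUnion (nbC e a x F B)).card := by
    intro S hS hns
    have hdis : Disjoint I S := by
      rw [Finset.disjoint_left]
      intro c hc hc'
      exact hns c hc' (hsat c hc)
    have hun : Uns (tyE e a x) (blkE e) F B S := by
      intro c hc j hj
      by_contra hb
      exact hns c hc ⟨j, Or.inr ⟨hb, hj⟩⟩
    have hSv : Sv (tyE e a x) (blkE e) F B S = S.biUnion (nbC e a x F B) := by
      unfold Sv nbC
      ext b
      simp only [mem_sdiff, mem_biUnion]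
      constructor
      · rintro ⟨⟨c, hc, hb⟩, hbB⟩
        exact ⟨c, hc, hb, hbB⟩
      · rintro ⟨c, hc, hb, hbB⟩
        exact ⟨⟨c, hc, hb⟩, hbB⟩
    rw [← hSv]
    by_cases hs : S.card ≤ s₁
    · exact hcl S hs hdis hun
    · exact P3 B hBc S (by omega) hS hun
  obtain ⟨hL1, hL2⟩ := hL
  refine descentC (sg := sgC e a x F) hg (fun i y => (L i).eval (ptE e a x (sigB B β) y))
    (univ.filter (fun i => ∃ C ∈ cnf F, ∀ x, C.holds x → (L i).eval x = true))
    ?_ ?_ Lg hLg ?_ hq hrq hd ?_ (r := r)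
  · intro i hi
    rw [mem_filter] at hi
    obtain ⟨_, C, hC, hCi⟩ := hi
    unfold cnf at hC
    obtain ⟨c, _, rfl⟩ := mem_image.1 hC
    exact ⟨c, fun y hy => hCi _ (holds_of_Cst B β c y hy)⟩
  · intro i hi
    rcases hL1 i with h | ⟨P, h1, h2, h3⟩
    · exact absurd (by rw [mem_filter]; exact ⟨mem_univ _, h⟩) hi
    · exact ⟨P, h1, h2, fun y hy => h3 _ hy⟩
  · intro i hi
    exact hSh i hi (sigB B β) (by rw [dom_sigB]; exact hBc)
  · obtain ⟨i, hi⟩ := hL2
    exact ⟨i, fun y => hi _⟩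

end Pool.Agent.Lib.MP_51bb46_lc.RC
end

section

set_option autoImplicit false
set_option linter.unusedSectionVars false

/-!
Random k-CNFs and short-line Frege: property P1 for a fixed restriction.
-/

namespace Pool.Agent.Lib.MP_51bb46_lc.RC

open Finset

variable {M k N : ℕ} {Λ : Type} [Fintype Λ] [DecidableEq Λ] [Nonempty Λ] {y z : ℝ} {ty : Λ → Option Bool}
  {blk : Λ → Fin N}

open Classical in
/-- One set: Markov's inequality for `Wt_sum` (with `q = k * i₁`). -/
theorem Bad_count (hy : 0 < y) (hyz : y ≤ z) (hz : z ≤ 1) {U i₁ : ℕ}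
    (hU : ∀ b, (univ.filter fun l => blk l = b).card ≤ U) {E : ℝ}
    (hE : ∑ l, wt y z (ty l) + 1 / y * (U * (k * i₁ : ℕ)) ≤ E * Fintype.card Λ) (I : Finset (Fin M))
    (hI : I.card ≤ i₁) :
    ((univ.filter fun F : Fin M × Fin k → Λ => Bad y z ty blk F I).card : ℝ) ≤
      (E ^ k / z ^ 2) ^ I.card * (Fintype.card Λ : ℝ) ^ (M * k) := by
  have hz0 : 0 < z := hy.trans_le hyz
  have hQ : (I ×ˢ (univ : Finset (Fin k))).card = I.card * k := by
    rw [card_product, card_univ, Fintype.card_fin]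
  have hQ' : (I ×ˢ (univ : Finset (Fin k))).card ≤ k * i₁ := by
    rw [hQ, mul_comm]
    exact Nat.mul_le_mul_left k hI
  have h1 := Wt_sum (N := N) (P := Fin M × Fin k) hy hyz hz hU hE (I ×ˢ univ) hQ'
  rw [hQ, Fintype.card_prod, Fintype.card_fin, Fintype.card_fin] at h1
  have hzp : 0 < z ^ (2 * I.card) := pow_pos hz0 _
  have h2 : ((univ.filter fun F : Fin M × Fin k → Λ => Bad y z ty blk F I).card : ℝ) * z ^ (2 * I.card) ≤
      ∑ F : Fin M × Fin k → Λ, Wt y z ty blk F (I ×ˢ univ) := by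
    calc ((univ.filter fun F : Fin M × Fin k → Λ => Bad y z ty blk F I).card : ℝ) * z ^ (2 * I.card)
        = ∑ _F ∈ univ.filter fun F : Fin M × Fin k → Λ => Bad y z ty blk F I, z ^ (2 * I.card) := by
          rw [sum_const, nsmul_eq_mul]
      _ ≤ ∑ F ∈ univ.filter fun F : Fin M × Fin k → Λ => Bad y z ty blk F I, Wt y z ty blk F (I ×ˢ univ) :=
          sum_le_sum fun F hF => (mem_filter.1 hF).2
      _ ≤ ∑ F : Fin M × Fin k → Λ, Wt y z ty blk F (I ×ˢ univ) :=
          sum_le_sum_of_subset_of_nonneg (filter_subset _ _) fun F _ _ => (Wt_pos hy hyz hz F _).le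
  have h3 := h2.trans h1
  rw [div_pow, ← pow_mul, ← pow_mul, div_mul_eq_mul_div, le_div_iff₀ hzp]
  rw [mul_comm k I.card]
  exact h3

open Classical in
/-- **Property P1.** Union bound: `∑_{I} (E^k / z^2)^|I|`, the sets of size `i` are at most `(3 M / i)^i` many
(`card_eq_size`), and `(3 M / i) (E^k / z^2) ≤ (3 M / i₀) (E^k / z^2) ≤ τ` for `i ≥ i₀`; `geom_tail`. -/
theorem P1_count (hy : 0 < y) (hyz : y ≤ z) (hz : z ≤ 1) {U i₀ i₁ : ℕ} (h0 : 1 ≤ i₀)
    (hU : ∀ b, (univ.filter fun l => blk l = b).card ≤ U) {E τ : ℝ}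
    (hE : ∑ l, wt y z (ty l) + 1 / y * (U * (k * i₁ : ℕ)) ≤ E * Fintype.card Λ)
    (hτ : 3 * M * E ^ k ≤ τ * z ^ 2 * i₀) (hτ2 : τ ≤ 1 / 2) :
    ((univ.filter fun F : Fin M × Fin k → Λ => ∃ I : Finset (Fin M), i₀ ≤ I.card ∧ I.card ≤ i₁ ∧
      Bad y z ty blk F I).card : ℝ) ≤ 2 * τ ^ i₀ * (Fintype.card Λ : ℝ) ^ (M * k) := by
  have hz0 : 0 < z := hy.trans_le hyz
  have hL : (0 : ℝ) < Fintype.card Λ := by exact_mod_cast Fintype.card_pos
  have hE0 : 0 ≤ E := by
    have h1 : 0 ≤ ∑ l, wt y z (ty l) := sum_nonneg fun l _ => hy.le.trans (wt_ge hyz hz _)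
    have h2 : (0 : ℝ) ≤ 1 / y * (U * (k * i₁ : ℕ)) := by positivity
    have h3 : 0 ≤ E * Fintype.card Λ := (add_nonneg h1 h2).trans hE
    exact nonneg_of_mul_nonneg_left h3 hL
  have hi0 : (0 : ℝ) < i₀ := by exact_mod_cast h0
  have hz2 : 0 < z ^ 2 := by positivity
  have hτ0 : 0 ≤ τ := by
    have h1 : (0 : ℝ) ≤ 3 * M * E ^ k := by positivity
    have h2 : 0 ≤ τ * (z ^ 2 * i₀) := by
      rw [← mul_assoc]
      exact h1.trans hτ
    exact nonneg_of_mul_nonneg_left h2 (mul_pos hz2 hi0)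
  have hsub : (univ.filter fun F : Fin M × Fin k → Λ => ∃ I : Finset (Fin M), i₀ ≤ I.card ∧ I.card ≤ i₁ ∧
      Bad y z ty blk F I) ⊆ (Icc i₀ i₁).biUnion fun i =>
        (univ.filter fun T : Finset (Fin M) => T.card = i).biUnion fun I =>
          univ.filter fun F : Fin M × Fin k → Λ => Bad y z ty blk F I := by
    intro F hF
    obtain ⟨I, h1, h2, h3⟩ := (mem_filter.1 hF).2
    rw [mem_biUnion]
    refine ⟨I.card, mem_Icc.2 ⟨h1, h2⟩, ?_⟩
    rw [mem_biUnion]
    exact ⟨I, mem_filter.2 ⟨mem_univ _, rfl⟩, mem_filter.2 ⟨mem_univ _, h3⟩⟩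
  have hc : ((univ.filter fun F : Fin M × Fin k → Λ => ∃ I : Finset (Fin M), i₀ ≤ I.card ∧ I.card ≤ i₁ ∧
      Bad y z ty blk F I).card : ℝ) ≤ ∑ i ∈ Icc i₀ i₁, ∑ I ∈ univ.filter fun T : Finset (Fin M) => T.card = i,
        ((univ.filter fun F : Fin M × Fin k → Λ => Bad y z ty blk F I).card : ℝ) := by
    exact_mod_cast (card_le_card hsub).trans (card_biUnion_le.trans (sum_le_sum fun i _ => card_biUnion_le))
  refine hc.trans ?_
  have hstep : ∀ i ∈ Icc i₀ i₁, ∑ I ∈ univ.filter (fun T : Finset (Fin M) => T.card = i),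
      ((univ.filter fun F : Fin M × Fin k → Λ => Bad y z ty blk F I).card : ℝ) ≤
        τ ^ i * (Fintype.card Λ : ℝ) ^ (M * k) := by
    intro i hi
    obtain ⟨hi1, hi2⟩ := mem_Icc.1 hi
    have hipos : (0 : ℝ) < i := hi0.trans_le (by exact_mod_cast hi1)
    have hX0 : 0 ≤ E ^ k / z ^ 2 := by positivity
    have hLp : 0 ≤ (Fintype.card Λ : ℝ) ^ (M * k) := by positivity
    calc ∑ I ∈ univ.filter (fun T : Finset (Fin M) => T.card = i),
        ((univ.filter fun F : Fin M × Fin k → Λ => Bad y z ty blk F I).card : ℝ)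
        ≤ ∑ _I ∈ univ.filter (fun T : Finset (Fin M) => T.card = i),
            (E ^ k / z ^ 2) ^ i * (Fintype.card Λ : ℝ) ^ (M * k) := by
          refine sum_le_sum fun I hI => ?_
          have hIc := (mem_filter.1 hI).2
          have h := Bad_count (M := M) (k := k) hy hyz hz hU hE I (hIc.le.trans hi2)
          rw [hIc] at h
          exact h
      _ = ((univ.filter fun T : Finset (Fin M) => T.card = i).card : ℝ) *
            ((E ^ k / z ^ 2) ^ i * (Fintype.card Λ : ℝ) ^ (M * k)) := by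
          rw [sum_const, nsmul_eq_mul]
      _ ≤ (3 * M / i : ℝ) ^ i * ((E ^ k / z ^ 2) ^ i * (Fintype.card Λ : ℝ) ^ (M * k)) := by
          refine mul_le_mul_of_nonneg_right ?_ (mul_nonneg (pow_nonneg hX0 _) hLp)
          have h := card_eq_size (M := M) (h0.trans hi1)
          convert h using 3
      _ = ((3 * M / i : ℝ) * (E ^ k / z ^ 2)) ^ i * (Fintype.card Λ : ℝ) ^ (M * k) := by
          rw [mul_pow]
          ring
      _ ≤ τ ^ i * (Fintype.card Λ : ℝ) ^ (M * k) := by
          refine mul_le_mul_of_nonneg_right (pow_le_pow_left₀ (by positivity) ?_ i) hLp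
          rw [div_mul_div_comm, div_le_iff₀ (by positivity)]
          refine hτ.trans ?_
          have h1 : (i₀ : ℝ) ≤ i := by exact_mod_cast hi1
          calc τ * z ^ 2 * i₀ ≤ τ * z ^ 2 * i := mul_le_mul_of_nonneg_left h1 (by positivity)
            _ = τ * (i * z ^ 2) := by ring
  refine (sum_le_sum hstep).trans ?_
  rw [← sum_mul]
  exact mul_le_mul_of_nonneg_right (geom_tail hτ0 hτ2 i₀ i₁) (by positivity)

end Pool.Agent.Lib.MP_51bb46_lc.RC
end

section

set_option autoImplicit false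
set_option linter.unusedSectionVars false

/-!
Random k-CNFs and short-line Frege: a typical formula has no short refutation.
-/

namespace Pool.Agent.Lib.MP_51bb46_lc.RC

open Finset

/-- the bad pairs of a formula and a restriction -/
def BadP {M k N : ℕ} {Λ : Type} (y z : ℝ) (i₀ i₁ b₀ s₁ s₂ : ℕ) (ty : Λ → Option Bool) (blk : Λ → Fin N)
    (F : Fin M × Fin k → Λ) : Prop :=
  (∃ I : Finset (Fin M), i₀ ≤ I.card ∧ I.card ≤ i₁ ∧ Bad y z ty blk F I) ∨
    ∃ B : Finset (Fin N), B.card ≤ b₀ ∧ ∃ S : Finset (Fin M), s₁ ≤ S.card ∧ S.card ≤ s₂ ∧ Uns ty blk F B S ∧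
      (Sv ty blk F B S).card < 2 * S.card

open Classical in
/-- few restrictions are bad for the formula -/
def Nice {n N m M k : ℕ} (y z : ℝ) (i₀ i₁ b₀ s₁ s₂ : ℕ) (e : Fin n → Fin N × Fin (m + 1))
    (F : Fin M × Fin k → Fin n × Bool) : Prop :=
  2 * ((Om N m).filter fun ω => BadP y z i₀ i₁ b₀ s₁ s₂ (tyE e ω.1 ω.2) (blkE e) F).card < (Om N m).card

open Classical in
theorem refuteRC {n N m M k : ℕ} {e : Fin n → Fin N × Fin (m + 1)} {F : Fin M × Fin k → Fin n × Bool} {y z : ℝ}
    (hy : 0 < y) (hyz : y ≤ z) (hz : z ≤ 1) {i₀ i₁ s₁ q b₀ : ℕ} (h1 : 1 ≤ i₀) (his : i₀ + s₁ ≤ i₁ + 1)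
    (hb : k * i₀ ≤ b₀) (hb1 : 1 ≤ b₀) (hbN : b₀ ≤ N)
    (P0 : ∀ S : Finset (Fin M), S.card ≤ i₁ → S.card ≤ (Bl (blkE e) F S).card)
    (hN : Nice y z i₀ i₁ b₀ s₁ (2 * q) e F)
    {ℓ r t d : ℕ} (L : Fin ℓ → Fml (Fin n)) (hL : Refutes r (cnf F) L) (Lg : Finset (Fin ℓ)) (hLg : Lg.card ≤ t)
    {β : ℝ} (hβ0 : 0 ≤ β)
    (hS : ∀ i, i ∉ Lg → ∀ σ : Fin N → Option Bool,
      (((Om N m).filter fun ω => ¬ HD d fun y => (L i).eval (ptE e ω.1 ω.2 σ y)).card : ℝ) ≤ β * (Om N m).card)
    (hβ : ℓ * (6 * N / b₀ : ℝ) ^ b₀ * β ≤ 1 / 2)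
    (hq : 1 ≤ q) (hrq : r * (t + 1) ≤ q) (hd : d * (r * (t + 1) + 1) ≤ q) : False := by
  set A1 := (Om N m).filter fun ω => BadP y z i₀ i₁ b₀ s₁ (2 * q) (tyE e ω.1 ω.2) (blkE e) F with hA1
  set Sg : Finset (Fin N → Option Bool) := univ.filter fun σ => (univ.filter fun v => σ v ≠ none).card ≤ b₀ with hSg
  set A2 := (Om N m).filter fun ω => ∃ i, i ∉ Lg ∧ ∃ σ ∈ Sg, ¬ HD d fun y => (L i).eval (ptE e ω.1 ω.2 σ y) with hA2
  have hc2 : (A2.card : ℝ) ≤ 1 / 2 * (Om N m).card := by
    have h2 : A2 ⊆ (Lgᶜ ×ˢ Sg).biUnion fun p =>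
        (Om N m).filter fun ω => ¬ HD d fun y => (L p.1).eval (ptE e ω.1 ω.2 p.2 y) := by
      intro ω hω
      rw [hA2, mem_filter] at hω
      obtain ⟨hω, i, hi, σ, hσ, hne⟩ := hω
      rw [mem_biUnion]
      exact ⟨(i, σ), mem_product.mpr ⟨by rw [mem_compl]; exact hi, hσ⟩, mem_filter.mpr ⟨hω, hne⟩⟩
    calc (A2.card : ℝ) ≤ (((Lgᶜ ×ˢ Sg).biUnion fun p =>
          (Om N m).filter fun ω => ¬ HD d fun y => (L p.1).eval (ptE e ω.1 ω.2 p.2 y)).card : ℝ) := by
          exact_mod_cast Finset.card_le_card h2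
      _ ≤ ∑ p ∈ Lgᶜ ×ˢ Sg,
          (((Om N m).filter fun ω => ¬ HD d fun y => (L p.1).eval (ptE e ω.1 ω.2 p.2 y)).card : ℝ) := by
          exact_mod_cast Finset.card_biUnion_le
      _ ≤ ∑ _p ∈ Lgᶜ ×ˢ Sg, β * (Om N m).card := by
          apply Finset.sum_le_sum
          intro p hp
          rw [mem_product, mem_compl] at hp
          exact hS p.1 hp.1 p.2
      _ = (Lgᶜ.card : ℝ) * Sg.card * (β * (Om N m).card) := by
          rw [Finset.sum_const, Finset.card_product]
          push_cast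
          rw [nsmul_eq_mul]
          push_cast
          ring
      _ ≤ (ℓ : ℝ) * (6 * N / b₀ : ℝ) ^ b₀ * (β * (Om N m).card) := by
          have h3 : (Lgᶜ.card : ℝ) ≤ ℓ := by
            have := Finset.card_le_univ Lgᶜ
            rw [Fintype.card_fin] at this
            exact_mod_cast this
          have h4 : (Sg.card : ℝ) ≤ (6 * N / b₀ : ℝ) ^ b₀ := card_partial hb1 hbN
          have h5 : (0 : ℝ) ≤ β * (Om N m).card := by positivity
          gcongr
      _ = ((ℓ : ℝ) * (6 * N / b₀ : ℝ) ^ b₀ * β) * (Om N m).card := by ring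
      _ ≤ 1 / 2 * (Om N m).card := by gcongr
  have hc1 : 2 * A1.card < (Om N m).card := hN
  have hc1' : (2 : ℝ) * A1.card < (Om N m).card := by exact_mod_cast hc1
  have hex : ∃ ω ∈ Om N m, ω ∉ A1 ∪ A2 := by
    by_contra hcon
    push Not at hcon
    have h3 : (Om N m).card ≤ (A1 ∪ A2).card := Finset.card_le_card hcon
    have h4 := Finset.card_union_le A1 A2
    have h5 : ((Om N m).card : ℝ) ≤ A1.card + A2.card := by exact_mod_cast h3.trans h4
    linarith
  obtain ⟨ω, hω, hnot⟩ := hex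
  rw [mem_union, not_or] at hnot
  obtain ⟨hn1, hn2⟩ := hnot
  have hb1' : ¬ BadP y z i₀ i₁ b₀ s₁ (2 * q) (tyE e ω.1 ω.2) (blkE e) F := by
    intro h; exact hn1 (mem_filter.mpr ⟨hω, h⟩)
  unfold BadP at hb1'
  push Not at hb1'
  apply coreRC (e := e) (a := ω.1) (x := ω.2) (F := F) hy hyz hz h1 his hb P0 hb1'.1 hb1'.2 L hL Lg hLg _ hq hrq hd
  intro i hi σ hσ
  by_contra hne
  exact hn2 (mem_filter.mpr ⟨hω, i, hi, σ, mem_filter.mpr ⟨mem_univ _, hσ⟩, hne⟩)

end Pool.Agent.Lib.MP_51bb46_lc.RC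
end

section

set_option autoImplicit false
set_option linter.unusedSectionVars false

/-!
Random k-CNFs and short-line Frege: most formulas are typical.
-/

namespace Pool.Agent.Lib.MP_51bb46_lc.RC

open Finset

/-- the property P0 -/
def PZ {n N m M k : ℕ} (i₁ : ℕ) (e : Fin n → Fin N × Fin (m + 1)) (F : Fin M × Fin k → Fin n × Bool) : Prop :=
  ∀ S : Finset (Fin M), S.card ≤ i₁ → S.card ≤ (Bl (blkE e) F S).card

open Classical in
theorem typicalRC {n N m M k : ℕ} (hm : 1 ≤ m) (hn : 1 ≤ n) {e : Fin n → Fin N × Fin (m + 1)} (he : IsEmb e)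
    {y z E₁ E₃ τ₁ τ₃ δ₀ δ η : ℝ} {i₀ i₁ s₁ s₂ b₀ : ℕ} (hy : 0 < y) (hyz : y ≤ z) (hz : z ≤ 1) (h0 : 1 ≤ i₀)
    (hi : i₁ ≤ N) (hb : 1 ≤ b₀) (hbN : b₀ ≤ N) (hs : 1 ≤ s₁) (hsN : 2 * s₂ ≤ N)
    (n3 : 2 * N * z + (n - N) * (1 + y) + 1 / y * ((2 * (m + 1)) * (k * i₁)) ≤ E₁ * (2 * n))
    (n4 : 3 * M * E₁ ^ k ≤ τ₁ * z ^ 2 * i₀) (hτ₁ : τ₁ ≤ 1 / 2)
    (n5 : (n - N) + 2 * (m + 1) * b₀ + 2 * (2 * s₂) ≤ E₃ * (2 * n)) (hE3 : 0 ≤ E₃)
    (n6 : (3 * M / s₁ : ℝ) * (3 * N / (2 * s₁) : ℝ) ^ 2 * E₃ ^ k ≤ τ₃) (hτ₃ : τ₃ ≤ 1 / 2)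
    (n7 : ∑ s ∈ Icc 1 i₁, ((3 * M / s : ℝ) * (3 * N / s) * (2 * (m + 1) * s / (2 * n)) ^ k) ^ s ≤ δ₀)
    (hδ : 2 * τ₁ ^ i₀ + (3 * N / b₀ : ℝ) ^ b₀ * (2 * τ₃ ^ s₁) ≤ δ) (hη : 2 * δ + δ₀ ≤ η) :
    ((univ.filter fun F : Fin M × Fin k → Fin n × Bool => ¬ (PZ i₁ e F ∧ Nice y z i₀ i₁ b₀ s₁ s₂ e F)).card : ℝ) ≤
      η * Fintype.card (Fin M × Fin k → Fin n × Bool) := by
  have : Nonempty (Fin n) := ⟨⟨0, hn⟩⟩
  have hΛ : (Fintype.card (Fin n × Bool) : ℝ) = 2 * n := by
    rw [Fintype.card_prod, Fintype.card_fin, Fintype.card_bool]; push_cast; ring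
  have hall : (Fintype.card (Fin M × Fin k → Fin n × Bool) : ℝ) =
      (Fintype.card (Fin n × Bool) : ℝ) ^ (M * k) := by
    have h : Fintype.card (Fin M × Fin k) = M * k := by simp
    rw [Fintype.card_fun, h, Nat.cast_pow]
  have hU : ∀ b, (univ.filter fun l => blkE e l = b).card ≤ 2 * (m + 1) := fun b => card_blk he b
  -- P0
  have hP0 : ((univ.filter fun F : Fin M × Fin k → Fin n × Bool => ¬ PZ i₁ e F).card : ℝ) ≤
      δ₀ * Fintype.card (Fin M × Fin k → Fin n × Bool) := by
    have h := P0_count (M := M) (k := k) (blk := blkE e) hU hi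
    have h2 : (univ.filter fun F : Fin M × Fin k → Fin n × Bool => ¬ PZ i₁ e F) =
        univ.filter fun F : Fin M × Fin k → Fin n × Bool => ∃ S : Finset (Fin M), S.card ≤ i₁ ∧
          (Bl (blkE e) F S).card < S.card := by
      apply Finset.filter_congr
      intro F _
      unfold PZ
      push Not
      rfl
    rw [h2, hall]
    refine h.trans ?_
    gcongr
    refine le_trans (le_of_eq ?_) n7
    apply Finset.sum_congr rfl
    intro s _
    rw [hΛ]
    push_cast
    ring
  -- bad pairs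
  have hω : ∀ ω ∈ Om N m, (((univ : Finset (Fin M × Fin k → Fin n × Bool)).filter fun F =>
      BadP y z i₀ i₁ b₀ s₁ s₂ (tyE e ω.1 ω.2) (blkE e) F).card : ℝ) ≤
        δ * (univ : Finset (Fin M × Fin k → Fin n × Bool)).card := by
    rintro ⟨a, x⟩ hω
    have ha : ∀ b, (a b).val < m := by
      intro b
      unfold Om at hω
      have h1 := (mem_product.mp hω).1
      rw [Fintype.mem_piFinset] at h1
      have h2 := h1 b
      unfold JJ at h2
      exact (mem_filter.mp h2).2
    have hw := sum_wt (a := a) (x := x) he ha y z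
    have h1 := P1_count (M := M) (k := k) (ty := tyE e a x) (blk := blkE e) (i₀ := i₀) (i₁ := i₁) (E := E₁) (τ := τ₁)
      hy hyz hz h0 hU (by
        rw [hΛ, hw]
        push_cast
        exact n3) n4 hτ₁
    have h3 := P3_count (M := M) (k := k) (ty := tyE e a x) (blk := blkE e) (s₁ := s₁) (s₂ := s₂) (E := E₃) (τ := τ₃)
      hb hbN hs hsN hE3 (by
        intro B T hB hT
        rw [hΛ]
        refine (card_allowed he ha B T).trans (le_trans ?_ n5)
        have hB' : (B.card : ℝ) ≤ b₀ := by exact_mod_cast hB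
        have hT' : (T.card : ℝ) ≤ 2 * s₂ := by exact_mod_cast hT
        gcongr) n6 hτ₃
    rw [Finset.card_univ, hall]
    set A := (univ : Finset (Fin M × Fin k → Fin n × Bool)).filter fun F => ∃ I : Finset (Fin M), i₀ ≤ I.card ∧
      I.card ≤ i₁ ∧ Bad y z (tyE e a x) (blkE e) F I with hA
    set C := (univ : Finset (Fin M × Fin k → Fin n × Bool)).filter fun F => ∃ B : Finset (Fin N), B.card ≤ b₀ ∧
      ∃ S : Finset (Fin M), s₁ ≤ S.card ∧ S.card ≤ s₂ ∧ Uns (tyE e a x) (blkE e) F B S ∧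
        (Sv (tyE e a x) (blkE e) F B S).card < 2 * S.card with hC
    have hsub : ((univ : Finset (Fin M × Fin k → Fin n × Bool)).filter fun F =>
        BadP y z i₀ i₁ b₀ s₁ s₂ (tyE e a x) (blkE e) F) = A ∪ C := by
      ext F
      rw [mem_union, hA, hC, mem_filter, mem_filter, mem_filter]
      unfold BadP
      simp only [mem_univ, true_and]
    have h4 : (((univ : Finset (Fin M × Fin k → Fin n × Bool)).filter fun F =>
        BadP y z i₀ i₁ b₀ s₁ s₂ (tyE e a x) (blkE e) F).card : ℝ) ≤ A.card + C.card := by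
      rw [hsub]
      exact_mod_cast Finset.card_union_le A C
    refine h4.trans ((add_le_add h1 h3).trans ?_)
    rw [← add_mul]
    gcongr
  have hf := fubini (univ : Finset (Fin M × Fin k → Fin n × Bool)) (Om N m)
    (fun F ω => BadP y z i₀ i₁ b₀ s₁ s₂ (tyE e ω.1 ω.2) (blkE e) F) (Om_nonempty N hm) hω
  have hsub : (univ.filter fun F : Fin M × Fin k → Fin n × Bool => ¬ (PZ i₁ e F ∧ Nice y z i₀ i₁ b₀ s₁ s₂ e F)) ⊆
      (univ.filter fun F : Fin M × Fin k → Fin n × Bool => ¬ PZ i₁ e F) ∪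
        univ.filter fun F : Fin M × Fin k → Fin n × Bool => (Om N m).card ≤ 2 * ((Om N m).filter fun ω =>
          BadP y z i₀ i₁ b₀ s₁ s₂ (tyE e ω.1 ω.2) (blkE e) F).card := by
    intro F hF
    rw [mem_filter] at hF
    rw [mem_union, mem_filter, mem_filter]
    by_cases h : PZ i₁ e F
    · right
      refine ⟨mem_univ _, ?_⟩
      by_contra h2
      push Not at h2
      exact hF.2 ⟨h, h2⟩
    · exact Or.inl ⟨mem_univ _, h⟩
  have h5 : ((univ.filter fun F : Fin M × Fin k → Fin n × Bool =>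
      ¬ (PZ i₁ e F ∧ Nice y z i₀ i₁ b₀ s₁ s₂ e F)).card : ℝ) ≤
      (univ.filter fun F : Fin M × Fin k → Fin n × Bool => ¬ PZ i₁ e F).card +
        (univ.filter fun F : Fin M × Fin k → Fin n × Bool => (Om N m).card ≤ 2 * ((Om N m).filter fun ω =>
          BadP y z i₀ i₁ b₀ s₁ s₂ (tyE e ω.1 ω.2) (blkE e) F).card).card := by
    exact_mod_cast (Finset.card_le_card hsub).trans (Finset.card_union_le _ _)
  refine h5.trans ?_
  rw [Finset.card_univ] at hf
  refine (add_le_add hP0 hf).trans ?_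
  have h6 : (0 : ℝ) ≤ Fintype.card (Fin M × Fin k → Fin n × Bool) := Nat.cast_nonneg _
  calc _ = (2 * δ + δ₀) * Fintype.card (Fin M × Fin k → Fin n × Bool) := by ring
    _ ≤ _ := by gcongr

end Pool.Agent.Lib.MP_51bb46_lc.RC
end

section

set_option autoImplicit false
set_option linter.unusedSectionVars false

/-!
Random k-CNFs and short-line Frege: assembly.
-/

namespace Pool.Agent.Lib.MP_51bb46_lc.RC

open Finset

open Classical in
theorem mainRC (ε : ℝ) (h0 : 0 < ε) (h1 : ε ≤ 1 / 2) : ∃ c : ℝ, 0 < c ∧ ∀ A : ℕ, ∃ k₀ : ℕ, ∀ k n M : ℕ, k₀ ≤ k →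
    k ^ 10 ≤ n →
    (M ≤ k ^ A * 2 ^ k * n → n * (univ.filter fun F : Fin M × Fin k → Fin n × Bool => ¬ Hard c ε k (cnf F)).card ≤
      Fintype.card (Fin M × Fin k → Fin n × Bool)) ∧
    ((1 + ε) * Real.log 2 * 2 ^ k * n ≤ M →
      n * (univ.filter fun F : Fin M × Fin k → Fin n × Bool => ¬ Unsat (cnf F)).card ≤
        Fintype.card (Fin M × Fin k → Fin n × Bool)) := by
  obtain ⟨K, hK, hsh⟩ := shrC (3 / 2 - ε / 2) (by linarith) (by linarith)
  have hl2 : 0 < Real.log 2 := Real.log_pos (by norm_num)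
  refine ⟨min (1 / 1024) (Real.log 2 / (1024 * K)), by positivity, fun A => ?_⟩
  obtain ⟨k₀, hk₀⟩ := base ε h0 A
  refine ⟨k₀, ?_⟩
  set c : ℝ := min (1 / 1024) (Real.log 2 / (1024 * K)) with hc
  have hc0 : 0 < c := by positivity
  have hc1 : c ≤ 1 / 1024 := min_le_left _ _
  have hKc : K * c ≤ Real.log 2 / 1024 := by
    have h2 : c ≤ Real.log 2 / (1024 * K) := min_le_right _ _
    calc K * c ≤ K * (Real.log 2 / (1024 * K)) := by gcongr
      _ = Real.log 2 / 1024 := by field_simp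
  intro k n M hk hn
  obtain ⟨hk1, hk2, hk3, hk4⟩ := hk₀ k hk
  refine ⟨fun hM => ?_, fun hM => ?_⟩
  · obtain ⟨E, P⟩ := exists_par h0 h1 hk1 hk2 hk3 hn hM
    set m := pm ε k with hm
    have hn0 := P.n0
    have hm0 := P.m0
    obtain ⟨e, he⟩ := exists_emb (n := n) (m := m) P.hm1 (by
      rw [Nat.le_div_iff_mul_le P.hm1]
      calc m * m ≤ k * k := Nat.mul_le_mul P.hmk P.hmk
        _ = k ^ 2 := by ring
        _ ≤ k ^ 10 := Nat.pow_le_pow_right (by omega) (by norm_num)
        _ ≤ n := hn)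
    have hyz : 1 / (16 * (m : ℝ)) ≤ 1 / 8 := by
      apply one_div_le_one_div_of_le (by norm_num)
      have := P.m1
      linarith
    have hn1 : 1 ≤ n := by exact_mod_cast hn0
    have htyp := typicalRC (n := n) (N := n / m) (m := m) (M := M) (k := k) P.hm1 hn1 he (y := 1 / (16 * m))
      (z := 1 / 8) (E₁ := E) (E₃ := E) (τ₁ := 1 / 4) (τ₃ := 1 / 4) (δ₀ := 1 / (2 * n)) (δ := 1 / (4 * n))
      (η := 1 / n) (i₀ := pi0 k n) (i₁ := pi1 k n) (s₁ := ps1 k n) (s₂ := 2 * pq n m) (b₀ := pb0 k n)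
      (by positivity) hyz (by norm_num) (Nat.succ_le_succ (Nat.zero_le _)) P.i1_leN P.b0_pos P.b0_leN P.s1_pos P.q_leN
      P.n3 P.n4 (by norm_num) P.n5 P.hE0 P.n6 (by norm_num) P.n7 P.delta (by
        apply le_of_eq
        field_simp
        norm_num)
    have hsub : (univ.filter fun F : Fin M × Fin k → Fin n × Bool => ¬ Hard c ε k (cnf F)) ⊆
        univ.filter fun F : Fin M × Fin k → Fin n × Bool =>
          ¬ (PZ (pi1 k n) e F ∧ Nice (1 / (16 * m)) (1 / 8) (pi0 k n) (pi1 k n) (pb0 k n) (ps1 k n)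
            (2 * pq n m) e F) := by
      intro F hF
      rw [mem_filter] at hF ⊢
      refine ⟨mem_univ _, fun hPN => hF.2 ?_⟩
      obtain ⟨hP, hN⟩ := hPN
      intro r t ℓ L hrt hL hLg
      by_contra hcon
      push Not at hcon
      set S : ℝ := c * (k : ℝ) ^ (1 / 2 - ε) * (n / ((r + 1) * (t + 1))) with hS
      have h8 := n8 h0 h1 hK hc0 hc1 hKc P hrt hcon
      have hrk : r * (t + 1) + 1 ≤ k := by
        have : (r + 1) * (t + 1) = r * (t + 1) + t + 1 := by ring
        omega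
      have hqk := P.q_gek
      have hk0 := P.k0
      refine refuteRC (e := e) (F := F) (y := 1 / (16 * (m : ℝ))) (z := 1 / 8) (by positivity) hyz (by norm_num)
        (i₀ := pi0 k n) (i₁ := pi1 k n) (s₁ := ps1 k n) (q := pq n m) (b₀ := pb0 k n) (Nat.succ_le_succ (Nat.zero_le _))
        ?_ le_rfl P.b0_pos P.b0_leN hP hN L hL
        (univ.filter fun i => S < (L i).occurrences) hLg
        (β := (1 / 2) ^ (pq n m / (r * (t + 1) + 1)) * Real.exp (K * (m : ℝ) ^ (-(3 / 2 - ε / 2)) * S))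
        (by positivity) ?_ h8 (by omega) (by omega) (Nat.div_mul_le_self _ _)
      · have := P.i0_lt
        unfold ps1
        omega
      · intro i hi σ
        have hocc : ((L i).occurrences : ℝ) ≤ S := by
          by_contra h
          push Not at h
          exact hi (mem_filter.mpr ⟨mem_univ _, h⟩)
        refine (hsh n (n / m) m P.hm1 e (L i) σ (pq n m / (r * (t + 1) + 1))).trans ?_
        gcongr
    have hcard : ((univ.filter fun F : Fin M × Fin k → Fin n × Bool => ¬ Hard c ε k (cnf F)).card : ℝ) ≤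
        1 / n * Fintype.card (Fin M × Fin k → Fin n × Bool) :=
      le_trans (by exact_mod_cast Finset.card_le_card hsub) htyp
    have hfin : (n : ℝ) * (univ.filter fun F : Fin M × Fin k → Fin n × Bool => ¬ Hard c ε k (cnf F)).card ≤
        Fintype.card (Fin M × Fin k → Fin n × Bool) := by
      calc (n : ℝ) * (univ.filter fun F : Fin M × Fin k → Fin n × Bool => ¬ Hard c ε k (cnf F)).card
          ≤ n * (1 / n * Fintype.card (Fin M × Fin k → Fin n × Bool)) := by gcongr
        _ = Fintype.card (Fin M × Fin k → Fin n × Bool) := by field_simp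
    exact_mod_cast hfin
  · refine unsat_count h0 ?_ hM
    have hkn : k ≤ n := by
      calc k = k ^ 1 := (pow_one _).symm
        _ ≤ k ^ 10 := Nat.pow_le_pow_right (by omega) (by norm_num)
        _ ≤ n := hn
    have hkn' : (k : ℝ) ≤ n := by exact_mod_cast hkn
    refine hk4.trans ?_
    gcongr

open Classical in
/-- most formulas are unsatisfiable and hard -/
theorem finalRC (ε : ℝ) (h0 : 0 < ε) (h1 : ε ≤ 1 / 2) : ∃ c : ℝ, 0 < c ∧ ∀ A : ℕ, ∃ k₀ : ℕ, ∀ k n M : ℕ, k₀ ≤ k →
    k ^ 10 ≤ n → (1 + ε) * Real.log 2 * 2 ^ k * n ≤ M → M ≤ k ^ A * 2 ^ k * n →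
      n * (univ.filter fun F : Fin M × Fin k → Fin n × Bool => ¬ (Unsat (cnf F) ∧ Hard c ε k (cnf F))).card ≤
        2 * Fintype.card (Fin M × Fin k → Fin n × Bool) := by
  obtain ⟨c, hc, hA⟩ := mainRC ε h0 h1
  refine ⟨c, hc, fun A => ?_⟩
  obtain ⟨k₀, hk₀⟩ := hA A
  refine ⟨k₀, fun k n M hk hn hM1 hM2 => ?_⟩
  obtain ⟨h2, h3⟩ := hk₀ k n M hk hn
  have h4 := h2 hM2
  have h5 := h3 hM1
  have h6 : (univ.filter fun F : Fin M × Fin k → Fin n × Bool => ¬ (Unsat (cnf F) ∧ Hard c ε k (cnf F))) ⊆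
      (univ.filter fun F : Fin M × Fin k → Fin n × Bool => ¬ Hard c ε k (cnf F)) ∪
        univ.filter fun F : Fin M × Fin k → Fin n × Bool => ¬ Unsat (cnf F) := by
    intro F hF
    rw [mem_filter] at hF
    rw [mem_union, mem_filter, mem_filter]
    have h7 := hF.2
    by_cases h8 : Unsat (cnf F)
    · exact Or.inl ⟨mem_univ _, fun h9 => h7 ⟨h8, h9⟩⟩
    · exact Or.inr ⟨mem_univ _, h8⟩
  have h7 := (Finset.card_le_card h6).trans (Finset.card_union_le _ _)
  calc n * (univ.filter fun F : Fin M × Fin k → Fin n × Bool => ¬ (Unsat (cnf F) ∧ Hard c ε k (cnf F))).card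
      ≤ n * ((univ.filter fun F : Fin M × Fin k → Fin n × Bool => ¬ Hard c ε k (cnf F)).card +
        (univ.filter fun F : Fin M × Fin k → Fin n × Bool => ¬ Unsat (cnf F)).card) := Nat.mul_le_mul_left n h7
    _ ≤ 2 * Fintype.card (Fin M × Fin k → Fin n × Bool) := by
        rw [Nat.mul_add]
        omega

end Pool.Agent.Lib.MP_51bb46_lc.RC
end
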